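import Pool.Agent.R838.ST.Midw
import Pool.Agent.R838.CR.Finp
import Pool.Agent.R838.ST.Zst

set_option autoImplicit false

/-!
# The hypotheses of the stability theorem for completed L-functions
-/

namespace Pool.Agent.R838.IS

open Complex Filter Topology MeasureTheory Set Metric
open Pool.Agent.H24R2.JP (Om)
open Pool.Agent.R838.CR
open Pool.Agent.R838.LD
open Pool.Agent.R838.ST

theorem stb_hd {B : ℝ} {F : ℂ → ℂ} {FT : ℝ → ℂ → ℂ} {hh : ℝ → ℝ} (hd : HD B F FT hh) : STB B F FT where
  ins := ins_of hd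
  diff := hd.diff
  symm := hd.symm
  heatd := hd.heatd
  strip := hd.strip
  zero := hd.heat0

theorem unit0_hd {B : ℝ} {F : ℂ → ℂ} {FT : ℝ → ℂ → ℂ} {hh : ℝ → ℝ} (hd : HD B F FT hh) : UNIT0 F := by
  obtain ⟨K1, T1, hK1, hT1, hline⟩ := hd.line
  obtain ⟨K2, T2, hK2, hT2, hup⟩ := hd.up
  obtain ⟨R0, K3, hR0, hK3, hlow⟩ := hd.lowr
  obtain ⟨T3, hT3, hlow⟩ := hlow R0 le_rfl
  have hB := hd.B_ge
  obtain ⟨r, hr⟩ : ∃ r : ℝ, r = R0 + B + 2 := ⟨_, rfl⟩
  have hr0 : 0 < r := by rw [hr]; linarith
  have hl2 : 0 < Real.log (2 * r / r) := by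
    have e : 2 * r / r = 2 := by field_simp
    rw [e]; exact Real.log_pos (by norm_num)
  obtain ⟨C, hC⟩ : ∃ C : ℝ, C = 2 * K2 + K1 * (2 * r) + (1 + K2) * (3 * r) + K3 * R0 + K3 := ⟨_, rfl⟩
  have hC0 : 0 < C := by rw [hC]; positivity
  refine ⟨C / Real.log (2 * r / r), max (max (2 * T1) (2 * T2)) (max (2 * T3) (max (96 * r) (Real.exp 1))), by positivity,
    ?_, ?_⟩
  · have := le_max_left (2 * T1) (2 * T2)
    have h2 := le_max_left (max (2 * T1) (2 * T2)) (max (2 * T3) (max (96 * r) (Real.exp 1)))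
    linarith
  intro t ht S hS
  simp only [max_le_iff] at ht
  obtain ⟨⟨ht1, ht2⟩, ht3, ht4, ht5⟩ := ht
  have ht0 : 0 < t := by linarith
  have hL : 1 ≤ Real.log t := by rw [Real.le_log_iff_exp_le ht0]; exact ht5
  obtain ⟨c, hc⟩ : ∃ c : ℂ, c = I * t + (R0 : ℂ) := ⟨_, rfl⟩
  have hlo := hlow t (by linarith)
  rw [← hc] at hlo
  have hpos := hd.h_pos t
  have hFc : 0 < ‖F c‖ := lt_of_lt_of_le (by positivity) hlo
  have hOm : Om t = Real.log t / 2 := rfl
  have hM : ∀ z, ‖z - c‖ ≤ 2 * r → ‖F z‖ ≤ Real.exp (C * Real.log t) * ‖F c‖ := by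
    intro z hz
    have hre := (Complex.abs_re_le_norm (z - c)).trans hz
    have him := (Complex.abs_im_le_norm (z - c)).trans hz
    have e1 : (z - c).re = z.re - R0 := by rw [hc]; simp
    have e2 : (z - c).im = z.im - t := by rw [hc]; simp
    rw [e1] at hre
    rw [e2] at him
    have hre' := abs_le.1 hre
    have him' := abs_le.1 him
    have hzr : |z.re| ≤ 3 * r := by
      rw [abs_le]; constructor <;> linarith
    have ht' : t / 2 ≤ z.im := by linarith
    have ht'' : z.im ≤ 2 * t := by linarith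
    have hz0 : 0 < z.im := by linarith
    have h1 := (hup z.im ((z.re : ℝ) : ℂ) (by linarith) (by simp)).1 (by
      rw [Complex.ofReal_re]; linarith)
    have e3 : I * z.im + ((z.re : ℝ) : ℂ) = z := by
      rw [add_comm, mul_comm]; exact Complex.re_add_im z
    rw [e3, Complex.ofReal_re] at h1
    have h2 := hline t (z.im - t) (by linarith) (by linarith)
    have e4 : t + (z.im - t) = z.im := by ring
    rw [e4] at h2
    have hlz : Real.log z.im ≤ 2 * Real.log t := by
      have h3 : Real.log z.im ≤ Real.log (t ^ 2) := by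
        apply Real.log_le_log hz0
        have : 2 ≤ t := by
          have := Real.add_one_le_exp (1 : ℝ)
          linarith
        nlinarith
      rw [Real.log_pow] at h3
      exact_mod_cast h3
    have hOmz : Om z.im ≤ Real.log t := by
      show Real.log z.im / 2 ≤ Real.log t
      linarith
    have h3 : ‖F z‖ ≤ Real.exp (K2 * (2 * Real.log t)) * (hh t * Real.exp (K1 * (2 * r))) *
        Real.exp ((Real.log t + K2) * (3 * r)) := by
      refine h1.trans ?_
      have g1 : Real.exp (K2 * Real.log z.im) ≤ Real.exp (K2 * (2 * Real.log t)) := by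
        rw [Real.exp_le_exp]
        exact mul_le_mul_of_nonneg_left hlz (by linarith)
      have g2 : hh z.im ≤ hh t * Real.exp (K1 * (2 * r)) := by
        refine h2.trans (mul_le_mul_of_nonneg_left ?_ hpos.le)
        rw [Real.exp_le_exp]
        exact mul_le_mul_of_nonneg_left him (by linarith)
      have g3 : Real.exp ((Om z.im + K2) * |z.re|) ≤ Real.exp ((Real.log t + K2) * (3 * r)) := by
        rw [Real.exp_le_exp]
        exact mul_le_mul (by linarith) hzr (abs_nonneg _) (by linarith)
      exact mul_le_mul (mul_le_mul g1 g2 (hd.h_pos _).le (Real.exp_pos _).le) g3 (Real.exp_pos _).le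
        (by positivity)
    refine h3.trans ?_
    have h4 := mul_le_mul_of_nonneg_left hlo (Real.exp_pos (C * Real.log t)).le
    refine le_trans ?_ h4
    have e5 : Real.exp (K2 * (2 * Real.log t)) * (hh t * Real.exp (K1 * (2 * r))) *
        Real.exp ((Real.log t + K2) * (3 * r)) = hh t *
        Real.exp (K2 * (2 * Real.log t) + K1 * (2 * r) + (Real.log t + K2) * (3 * r)) := by
      rw [Real.exp_add, Real.exp_add]; ring
    have e6 : Real.exp (C * Real.log t) * (hh t * Real.exp ((Om t - K3) * R0 - K3)) = hh t *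
        Real.exp (C * Real.log t + ((Om t - K3) * R0 - K3)) := by
      rw [Real.exp_add]; ring
    rw [e5, e6]
    apply mul_le_mul_of_nonneg_left _ hpos.le
    rw [Real.exp_le_exp, hC]
    have g1 : K1 * (2 * r) ≤ K1 * (2 * r) * Real.log t := le_mul_of_one_le_right (by positivity) hL
    have g2 : K2 * (3 * r) ≤ K2 * (3 * r) * Real.log t := le_mul_of_one_le_right (by positivity) hL
    have g3 : K3 * R0 ≤ K3 * R0 * Real.log t := le_mul_of_one_le_right (by positivity) hL
    have g4 : K3 ≤ K3 * Real.log t := le_mul_of_one_le_right (by positivity) hL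
    have g5 : 0 ≤ Om t * R0 := by rw [hOm]; positivity
    have e7 : (2 * K2 + K1 * (2 * r) + (1 + K2) * (3 * r) + K3 * R0 + K3) * Real.log t =
      K2 * (2 * Real.log t) + K1 * (2 * r) * Real.log t + Real.log t * (3 * r) + K2 * (3 * r) * Real.log t +
      K3 * R0 * Real.log t + K3 * Real.log t := by ring
    rw [e7]
    have e8 : (Real.log t + K2) * (3 * r) = Real.log t * (3 * r) + K2 * (3 * r) := by ring
    have e9 : (Om t - K3) * R0 = Om t * R0 - K3 * R0 := by ring
    rw [e8, e9]
    linarith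
  have hfa : AnalyticOnNhd ℂ F (closedBall c (2 * r)) := fun z _ => hd.diff.analyticAt z
  have h6 := Pool.Agent.W337.SD.jcount (f := F) (c := c) (r := r) (R := 2 * r)
    (A := C * Real.log t) hfa hr0 (by linarith) (norm_pos_iff.1 hFc) hM S (by
      intro s hs
      obtain ⟨h7, h8⟩ := hS s hs
      have h9 : |s.re| ≤ B := hd.strip 0 s le_rfl (by rw [hd.heat0]; exact h8)
      have e : s - c = ((s.re - R0 : ℝ) : ℂ) + ((s.im - t : ℝ) : ℂ) * I := by
        rw [hc]
        apply Complex.ext
        · simp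
        · simp
      rw [e]
      refine (norm_add_le _ _).trans ?_
      rw [norm_mul, Complex.norm_I, mul_one, Complex.norm_real, Complex.norm_real, Real.norm_eq_abs, Real.norm_eq_abs]
      have h10 : |s.re - R0| ≤ R0 + B := by
        rw [abs_le] at h9 ⊢
        constructor <;> linarith [h9.1, h9.2]
      linarith)
  refine h6.trans ?_
  rw [div_mul_eq_mul_div]

end Pool.Agent.R838.IS
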