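import Pool.Agent.R838.IS.Is1

set_option autoImplicit false

/-!
# Zeros with a close neighbour
-/

namespace Pool.Agent.R838.IS

open Complex Filter Topology MeasureTheory Set
open Pool.Agent.R838.ST
open Pool.Agent.R838.CR

/-- `z` is a multiple zero, or there is another zero above the real axis whose ordinate differs by at most `x`. -/
def NP (f : ℂ → ℂ) (x : ℝ) (z : ℂ) : Prop :=
  1 < analyticOrderNatAt f z ∨ ∃ w : ℂ, w ≠ z ∧ f w = 0 ∧ 0 < w.im ∧ |w.im - z.im| ≤ x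

lemma NP_mono {f : ℂ → ℂ} {x x' : ℝ} {z : ℂ} (hx : x ≤ x') (h : NP f x z) : NP f x' z := by
  rcases h with h | ⟨w, h1, h2, h3, h4⟩
  · exact Or.inl h
  · exact Or.inr ⟨w, h1, h2, h3, h4.trans hx⟩

lemma NP_tr {f g : ℂ → ℂ} {B : ℝ} (hf : Differentiable ℂ f) (hsf : ∀ s, f s = 0 → |s.re| ≤ B)
    (hg : Differentiable ℂ g) {t h H ρ x : ℝ} (hx : 0 ≤ x) (hρ : 0 ≤ ρ) (hH : h + x ≤ H) (ht : H + ρ < t)
    {φ : ℂ × ℕ → ℂ × ℕ}
    (hφ : ∀ p ∈ Zi f, |p.1.im - t| ≤ H → φ p ∈ Zi g ∧ ‖(φ p).1 - p.1‖ ≤ ρ)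
    (hφi : Set.InjOn φ {p | p ∈ Zi f ∧ |p.1.im - t| ≤ H})
    {p : ℂ × ℕ} (hp : p ∈ Zi f) (hpt : |p.1.im - t| ≤ h) (hN : NP f x p.1) : NP g (x + 2 * ρ) (φ p).1 := by
  have hpH : |p.1.im - t| ≤ H := by linarith
  have key : ∀ q ∈ Zi f, q ≠ p → |q.1.im - p.1.im| ≤ x → NP g (x + 2 * ρ) (φ p).1 := by
    intro q hq hqp hqx
    have hqH : |q.1.im - t| ≤ H := by
      have := abs_sub_le q.1.im p.1.im t
      linarith
    obtain ⟨a1, a2⟩ := hφ p hp hpH
    obtain ⟨b1, b2⟩ := hφ q hq hqH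
    have hne : φ q ≠ φ p := fun h => hqp (hφi ⟨hq, hqH⟩ ⟨hp, hpH⟩ h)
    have a3 := (Complex.abs_im_le_norm ((φ p).1 - p.1)).trans a2
    have b3 := (Complex.abs_im_le_norm ((φ q).1 - q.1)).trans b2
    rw [Complex.sub_im] at a3 b3
    by_cases he : (φ q).1 = (φ p).1
    · left
      have c1 : (φ p).2 < analyticOrderNatAt g (φ p).1 := a1
      have c2 : (φ q).2 < analyticOrderNatAt g (φ q).1 := b1
      rw [he] at c2
      by_contra hcon
      exact hne (Prod.ext he (by omega))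
    · right
      refine ⟨(φ q).1, he, Zi_zero hg b1, ?_, ?_⟩
      · have c1 := abs_le.1 b3
        have c2 := abs_le.1 hqH
        linarith
      · have c1 := abs_sub_le (φ q).1.im q.1.im (φ p).1.im
        have c2 := abs_sub_le q.1.im p.1.im (φ p).1.im
        rw [abs_sub_comm p.1.im] at c2
        linarith
  rcases hN with h1 | ⟨w, h1, h2, h3, h4⟩
  · by_cases h0 : p.2 = 0
    · refine key (p.1, 1) h1 ?_ ?_
      · intro h
        have := congrArg Prod.snd h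
        simp only at this
        omega
      · show |p.1.im - p.1.im| ≤ x
        rw [sub_self, abs_zero]; exact hx
    · refine key (p.1, 0) (by show 0 < analyticOrderNatAt f p.1; omega) ?_ ?_
      · intro h
        have := congrArg Prod.snd h
        simp only at this
        omega
      · show |p.1.im - p.1.im| ≤ x
        rw [sub_self, abs_zero]; exact hx
  · exact key (w, 0) (ord_pos hf hsf h2) (fun h => h1 (congrArg Prod.fst h)) h4

/-- The comparison. -/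
theorem glueN {f g : ℂ → ℂ} {B : ℝ} (hf : Differentiable ℂ f) (hsf : ∀ s, f s = 0 → |s.re| ≤ B)
    (hg : Differentiable ℂ g) (hsg : ∀ s, g s = 0 → |s.re| ≤ B)
    {h H ε ρ U V x : ℝ} (hh : 0 ≤ h) (hε : 0 ≤ ε) (hx : 0 ≤ x) (hH : h + x ≤ H)
    (G : Finset ℝ) (hSep : Sep G ρ)
    (hcov : ∀ x, U < x → x ≤ V → 2 * h / ρ - 1 ≤ ((G.filter fun t => |t - x| ≤ h).card : ℝ))
    (bad : ℝ → Prop) [DecidablePred bad]
    (hpos : ∀ t ∈ G, H + ε < t)
    (hgood : ∀ t ∈ G, ¬ bad t → MT2 f g t H ε) :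
    (2 * h / ρ - 1) * ((ZS f (fun z => (U < z.im ∧ z.im ≤ V) ∧ NP f x z)).ncard : ℝ) ≤
      (2 * (h + ε) / ρ + 1) * ((ZS g (fun z => (U - ε < z.im ∧ z.im ≤ V + ε) ∧
        NP g (x + 2 * ε) z)).ncard : ℝ) +
      ∑ t ∈ G with bad t, (nn f t h : ℝ) := by
  classical
  have hX := (ZS_le hf hsf (P := fun z => (U < z.im ∧ z.im ≤ V) ∧ NP f x z) (Q := fun y => U < y ∧ y ≤ V)
    (u := U) (v := V) (fun z hz => hz.1) (fun y hy => ⟨hy.1.le, hy.2⟩)).1
  have hY := (ZS_le hg hsg (P := fun z => (U - ε < z.im ∧ z.im ≤ V + ε) ∧ NP g (x + 2 * ε) z)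
    (Q := fun y => U - ε < y ∧ y ≤ V + ε) (u := U - ε) (v := V + ε) (fun z hz => hz.1)
    (fun y hy => ⟨hy.1.le, hy.2⟩)).1
  obtain ⟨X, hXd⟩ : ∃ X : Finset (ℂ × ℕ), X = hX.toFinset := ⟨_, rfl⟩
  obtain ⟨Y, hYd⟩ : ∃ Y : Finset (ℂ × ℕ), Y = hY.toFinset := ⟨_, rfl⟩
  rw [Set.ncard_eq_toFinset_card _ hX, Set.ncard_eq_toFinset_card _ hY, ← hXd, ← hYd]
  have hXm : ∀ u, u ∈ X ↔ u ∈ ZS f (fun z => (U < z.im ∧ z.im ≤ V) ∧ NP f x z) := fun u => by
    rw [hXd, Set.Finite.mem_toFinset]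
  have hYm : ∀ u, u ∈ Y ↔ u ∈ ZS g (fun z => (U - ε < z.im ∧ z.im ≤ V + ε) ∧
      NP g (x + 2 * ε) z) := fun u => by
    rw [hYd, Set.Finite.mem_toFinset]
  have h1 := dc_low G X (fun u => u.1.im) h (2 * h / ρ - 1) (fun u hu => by
    have := ((hXm u).1 hu).2.1
    exact hcov _ this.1 this.2)
  have h2 := dc_up G Y (fun u => u.1.im) (h + ε) (2 * (h + ε) / ρ + 1) (fun u _ => hSep _ _ (by linarith))
  have h3 : ∀ t ∈ G, ((X.filter fun u => |u.1.im - t| ≤ h).card : ℝ) ≤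
      ((Y.filter fun u => |u.1.im - t| ≤ h + ε).card : ℝ) +
        (if bad t then (nn f t h : ℝ) else 0) := by
    intro t ht
    by_cases hb : bad t
    · rw [if_pos hb]
      have h4 : (X.filter fun u => |u.1.im - t| ≤ h).card ≤ nn f t h := by
        obtain ⟨h5, h6⟩ := ZS_nn hf hsf t h (P := fun z => |z.im - t| ≤ h) (fun z hz => hz)
        rw [← Set.ncard_coe_finset]
        refine (Set.ncard_le_ncard ?_ h5).trans h6
        intro u hu
        rw [Finset.mem_coe, Finset.mem_filter, hXm] at hu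
        exact ⟨hu.1.1, hu.2⟩
      have h5 : ((X.filter fun u => |u.1.im - t| ≤ h).card : ℝ) ≤ (nn f t h : ℝ) := by exact_mod_cast h4
      have h6 : (0 : ℝ) ≤ ((Y.filter fun u => |u.1.im - t| ≤ h + ε).card : ℝ) := Nat.cast_nonneg _
      linarith
    · rw [if_neg hb, add_zero]
      obtain ⟨φ, hφ, hφi⟩ := hgood t ht hb
      have hhH : h ≤ H := by linarith
      have h4 : (X.filter fun u => |u.1.im - t| ≤ h).card ≤ (Y.filter fun u => |u.1.im - t| ≤ h + ε).card := by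
        refine Finset.card_le_card_of_injOn φ ?_ ?_
        · intro u hu
          rw [Finset.mem_coe, Finset.mem_filter, hXm] at hu
          obtain ⟨⟨hx1, ⟨hx2, hx3⟩, hx4⟩, hx5⟩ := hu
          obtain ⟨h5, h6⟩ := hφ u hx1 (hx5.trans hhH)
          have h7 := (Complex.abs_im_le_norm ((φ u).1 - u.1)).trans h6
          rw [Complex.sub_im] at h7
          have h7' := abs_le.1 h7
          rw [Finset.mem_coe, Finset.mem_filter, hYm]
          refine ⟨⟨h5, ⟨by linarith [h7'.1], by linarith [h7'.2]⟩, ?_⟩, ?_⟩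
          · exact NP_tr hf hsf hg hx hε hH (hpos t ht) hφ hφi hx1 hx5 hx4
          · have h9 := abs_sub_le (φ u).1.im u.1.im t
            linarith
        · intro u hu v hv huv
          rw [Finset.mem_coe, Finset.mem_filter, hXm] at hu hv
          exact hφi ⟨hu.1.1, hu.2.trans hhH⟩ ⟨hv.1.1, hv.2.trans hhH⟩ huv
      exact_mod_cast h4
  refine h1.trans ((Finset.sum_le_sum h3).trans ?_)
  rw [Finset.sum_add_distrib, Finset.sum_filter]
  exact add_le_add h2 le_rfl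

end Pool.Agent.R838.IS
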