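import Pool.Agent.R838.IS.In1

set_option autoImplicit false

/-!
# Zeros with a close neighbour, blocks
-/

namespace Pool.Agent.R838.IS

open Complex Filter Topology MeasureTheory Set
open Pool.Agent.H24R2.JP (Om)
open Pool.Agent.H24R2.DZ (ra NN)
open Pool.Agent.R838.CR
open Pool.Agent.R838.ST
open Pool.Agent.W186.SD (S_NGN S_AW S_CNT S_COV Std)

theorem blockN {B : ℝ} {F : ℂ → ℂ} {FT : ℝ → ℂ → ℂ} (hD : STB B F FT) (h0 : UNIT0 F) (hNGN : S_NGN)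
    (hAW : S_AW) (hCNT : S_CNT) (hCOV : S_COV)
    (A : ℝ) (hA : 0 ≤ A) (ε : ℝ) (hε : 0 < ε) (hε1 : ε ≤ 1) :
    ∃ δ U0 : ℝ, 0 < δ ∧ 2 ≤ U0 ∧ ∀ U τ1 τ2 x : ℝ, U0 ≤ U → 0 ≤ τ1 → 0 ≤ τ2 →
    (τ1 = 0 ∨ τ2 = 0) → τ1 ≤ δ / Om U ^ 2 → τ2 ≤ δ / Om U ^ 2 →
    0 ≤ x → x ≤ A / Om U →
    ((ZS (FT τ1) (fun z => (U < z.im ∧ z.im ≤ 2 * U) ∧ NP (FT τ1) x z)).ncard : ℝ) ≤
      ((ZS (FT τ2) (fun z => (U < z.im ∧ z.im ≤ 2 * U) ∧ NP (FT τ2) (x + ε / Om U) z)).ncard : ℝ) +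
      ε * U * Om U := by
  classical
  obtain ⟨δc, Cc, Uc, hδc, hCc, hUc, hCr⟩ := crude hD h0 hNGN hAW hCNT hCOV 0 0 le_rfl
  obtain ⟨Rs1, ηs1, hR1, hη1, hW⟩ := midw hD h0 hNGN hAW hCNT hCOV
  obtain ⟨Rs3, ηs3, c3, a3, hR3, hη3, hc3, ha3, hM⟩ := goodm2 hD hNGN hAW
  obtain ⟨C6, T6, hC6, hT6, hUn⟩ := unitA hD h0 1 one_pos
  obtain ⟨R, hR⟩ : ∃ R : ℝ, R = max Rs1 Rs3 := ⟨_, rfl⟩
  obtain ⟨η, hη⟩ : ∃ η : ℝ, η = min ηs1 ηs3 := ⟨_, rfl⟩
  have hη0 : 0 < η := by rw [hη]; exact lt_min hη1 hη3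
  obtain ⟨c, Cw, cw, aw, Tw, hc, hCw, hcw, haw, hTw, hW⟩ := hW R η (by rw [hR]; exact le_max_left _ _) hη0
    (by rw [hη]; exact min_le_left _ _) 1
  obtain ⟨e0, he0⟩ : ∃ e0 : ℝ, e0 = min (ε / 4) (ε / (16 * Cc)) := ⟨_, rfl⟩
  have he0p : 0 < e0 := by rw [he0]; exact lt_min (by positivity) (by positivity)
  have he01 : e0 ≤ ε / 4 := by rw [he0]; exact min_le_left _ _
  have he02 : 4 * e0 * Cc ≤ ε / 4 := by
    have : e0 ≤ ε / (16 * Cc) := by rw [he0]; exact min_le_right _ _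
    rw [le_div_iff₀ (by positivity)] at this
    linarith
  obtain ⟨a, ha⟩ : ∃ a : ℝ, a = max (max aw a3) (max (400 * (1 + (A + 1))) (4 * Cw / (c * ε))) := ⟨_, rfl⟩
  have ha1 : aw ≤ a := by rw [ha]; exact (le_max_left _ _).trans (le_max_left _ _)
  have ha3' : a3 ≤ a := by rw [ha]; exact (le_max_right _ _).trans (le_max_left _ _)
  have ha4' : 400 * (1 + (A + 1)) ≤ a := by rw [ha]; exact (le_max_left _ _).trans (le_max_right _ _)
  have ha4 : 400 ≤ a := by linarith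
  have ha5 : 4 * Cw / (c * ε) ≤ a := by rw [ha]; exact (le_max_right _ _).trans (le_max_right _ _)
  have ha0 : 1 ≤ a := haw.trans ha1
  have hap : 0 < a := by linarith
  have hexp : Cw * Real.exp (-(c * a)) ≤ ε / 4 := expa hc hε ha5
  obtain ⟨κ, hκ⟩ : ∃ κ : ℝ, κ = e0 / (2 * a) := ⟨_, rfl⟩
  have hκ0 : 0 < κ := by rw [hκ]; positivity
  have hκ1 : κ ≤ 1 / 20 := by rw [hκ]; exact kap (by linarith) (by linarith)
  obtain ⟨δm, Tm, hδm, hTm, hM⟩ := hM R η (by rw [hR]; exact le_max_right _ _) hη0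
    (by rw [hη]; exact min_le_right _ _) a κ ha3' hκ0 hκ1
  obtain ⟨T3, hT3, hstd⟩ := std_ex (c0 := min cw c3) ha0 (lt_min hcw hc3)
  obtain ⟨Ub, hUb, hUb'⟩ := log_small C6 hC6.le 1 (ε := ε / 16) (by positivity)
  refine ⟨min (min δc δm) (min (a / 2) (1 / 2)),
    max (max (max Tw Tm) (max T3 Uc)) (max (max Ub T6) (Real.exp (2 * 4))), ?_, ?_, ?_⟩
  · exact lt_min (lt_min hδc hδm) (lt_min (by positivity) (by norm_num))
  · exact hTw.trans ((le_max_left _ _).trans ((le_max_left _ _).trans (le_max_left _ _)))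
  intro U τ1 τ2 x hU hτ1 hτ2 h12 hτ1' hτ2' hxε hxA
  simp only [max_le_iff] at hU
  obtain ⟨⟨⟨hU1, hU2⟩, hU3, hU4⟩, ⟨hU5, hU6⟩, hU7⟩ := hU
  have hU9 : (9 : ℝ) ≤ U := by
    have := Real.add_one_le_exp (2 * 4 : ℝ)
    linarith
  have hU0 : 0 < U := by linarith
  have hL : 2 * 4 ≤ Real.log U := by rw [Real.le_log_iff_exp_le hU0]; exact hU7
  have hOm : Om U = Real.log U / 2 := rfl
  obtain ⟨ω, hω⟩ : ∃ ω : ℝ, ω = Om U := ⟨_, rfl⟩
  have hω4 : 4 ≤ ω := by rw [hω, hOm]; linarith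
  have hω0 : 0 < ω := by linarith
  obtain ⟨J, hJ⟩ := hstd U hU3
  rw [← hω] at hτ1' hτ2' hJ hxA ⊢
  have hJw : Std cw U (a / (2 * ω ^ 2)) a J := ⟨hJ.tau, hJ.a_eq, hJ.small.trans (mul_le_mul_of_nonneg_right
    (min_le_left _ _) (by rw [← hω]; exact hω0.le)), hJ.top, hJ.top'⟩
  have hJ3 : Std c3 U (a / (2 * ω ^ 2)) a J := ⟨hJ.tau, hJ.a_eq, hJ.small.trans (mul_le_mul_of_nonneg_right
    (min_le_right _ _) (by rw [← hω]; exact hω0.le)), hJ.top, hJ.top'⟩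
  have hω2p : 0 < ω ^ 2 := by positivity
  have hdl : ∀ τ' x : ℝ, τ' ≤ min (min δc δm) (min (a / 2) (1 / 2)) / ω ^ 2 →
      min (min δc δm) (min (a / 2) (1 / 2)) ≤ x → τ' ≤ x / ω ^ 2 := fun τ' x h1 h2 =>
    h1.trans (div_le_div_of_nonneg_right h2 hω2p.le)
  have hx1 : min (min δc δm) (min (a / 2) (1 / 2)) ≤ δc := (min_le_left _ _).trans (min_le_left _ _)
  have hx2 : min (min δc δm) (min (a / 2) (1 / 2)) ≤ δm := (min_le_left _ _).trans (min_le_right _ _)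
  have hx3 : min (min δc δm) (min (a / 2) (1 / 2)) ≤ a / 2 := (min_le_right _ _).trans (min_le_left _ _)
  have hx4 : min (min δc δm) (min (a / 2) (1 / 2)) ≤ 1 / 2 := (min_le_right _ _).trans (min_le_right _ _)
  have hττ1 : τ1 ≤ a / (2 * ω ^ 2) := by
    refine (hdl τ1 _ hτ1' hx3).trans (le_of_eq ?_)
    field_simp
  have hra : ra U a = a / ω := by rw [hω]; rfl
  obtain ⟨ρ, hρ⟩ : ∃ ρ : ℝ, ρ = e0 / ω := ⟨_, rfl⟩
  have hρ0 : 0 < ρ := by rw [hρ]; positivity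
  have h1ω : 0 < 1 / ω := by positivity
  have h1ω1 : 1 / ω ≤ 1 := by rw [div_le_one hω0]; linarith
  have hwinH : 1 / ω + (A + 1) / ω ≤ ra U a / 400 := by
    have := win_le (H0 := A + 1) hω0 ha4'
    rw [hra]
    exact this
  have hAω : 0 ≤ (A + 1) / ω := by positivity
  have hwin : 1 / ω ≤ ra U a / 400 := by linarith
  have hρr : ρ ≤ ra U a / 400 := by
    have : ρ ≤ 1 / ω := by
      rw [hρ]
      exact div_le_div_of_nonneg_right (by linarith) hω0.le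
    linarith
  have hκρ : 2 * κ * ra U a = ρ := by
    rw [hκ, hra, hρ]; field_simp
  obtain ⟨G, hG⟩ : ∃ G : Finset ℝ, G = grid ρ (U - 1) (2 * U + 1) := ⟨_, rfl⟩
  have hGm : ∀ t ∈ G, U / 2 + 1 ≤ t ∧ t ≤ 3 * U - 1 := by
    intro t ht
    rw [hG] at ht
    have := grid_mem hρ0 ht
    constructor <;> linarith
  have hSep : Sep G ρ := by rw [hG]; exact grid_sep hρ0
  have hfd2 := hD.heatd τ2 hτ2
  have hst2 : ∀ s, FT τ2 s = 0 → |s.re| ≤ B := fun s hs => hD.strip τ2 s hτ2 hs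
  have hρε4 : 2 * ρ < ε / ω := by
    rw [hρ, ← mul_div_assoc]
    exact div_lt_div_of_pos_right (by linarith) hω0
  have hHH : 1 / ω + x ≤ 1 / ω + (A + 1) / ω := by
    have h2 : (A + 1) / ω = A / ω + 1 / ω := add_div _ _ _
    linarith
  have hAU : 1 / ω + (A + 1) / ω + ρ ≤ ra U a / 400 + ra U a / 400 := by linarith
  have hraU : a ≤ ω := by
    have h1 := hJw.top
    have h2 : a ≤ 2 ^ J * a := le_mul_of_one_le_left hap.le (one_le_pow₀ (by norm_num))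
    have h3 : Real.log U / 200 ≤ ω := by rw [hω, hOm]; linarith
    linarith
  have hrU : ra U a ≤ 1 := by
    rw [hra, div_le_one hω0]
    exact hraU
  have key := glueN (f := FT τ1) (g := FT τ2) (B := B) (hD.heatd τ1 hτ1) (fun s hs => hD.strip τ1 s hτ1 hs)
    hfd2 hst2 (h := 1 / ω) (H := 1 / ω + (A + 1) / ω) (ε := ρ) (ρ := ρ) (x := x)
    (U := U) (V := 2 * U) h1ω.le hρ0.le hxε hHH G hSep
    (fun x hx1 hx2 => by rw [hG]; exact grid_cov hρ0 (by linarith) (by linarith))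
    (fun t => ¬ GH F R η U a J t)
    (fun t ht => by
      have h1 := (hGm t ht).1
      linarith)
    (fun t ht hb => by
      rw [not_not] at hb
      obtain ⟨h1, h2⟩ := hGm t ht
      obtain ⟨φ, h3, h4⟩ := hM U (a / (2 * ω ^ 2)) τ1 τ2 t J hU2 hJ3 hτ1 hτ2 h12
        (by rw [← hω]; exact hdl τ1 _ hτ1' hx2) (by rw [← hω]; exact hdl τ2 _ hτ2' hx2) h1 h2 hb
      rw [hκρ] at h3
      exact ⟨φ, fun p hp hpt => h3 p hp (hpt.trans hwinH),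
        fun x hx y hy hxy => h4 ⟨hx.1, hx.2.trans hwinH⟩ ⟨hy.1, hy.2.trans hwinH⟩ hxy⟩)
  -- the bad heights
  have hbad : ∑ t ∈ G with ¬ GH F R η U a J t, (nn (FT τ1) t (1 / ω) : ℝ) ≤
      Cw * (U / ρ) * Real.exp (-(c * a)) := by
    have h1 := hW U (a / (2 * ω ^ 2)) τ1 a ρ (1 / ω) J (G.filter fun t => ¬ GH F R η U a J t)
      hU1 ha1 hJw hτ1 hττ1 hρ0 hρr hwin (fun t ht => by
        rw [Finset.mem_filter] at ht
        obtain ⟨h1, h2⟩ := hGm t ht.1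
        exact ⟨h1, h2, ht.2⟩) (hSep.subset (Finset.filter_subset _ _))
    simp only [pow_one] at h1
    exact h1
  -- names
  obtain ⟨N1, hN1⟩ : ∃ N1 : ℝ, N1 = ((ZS (FT τ1) (fun z => (U < z.im ∧ z.im ≤ 2 * U) ∧ NP (FT τ1) x z)).ncard : ℝ) :=
    ⟨_, rfl⟩
  obtain ⟨N2, hN2⟩ : ∃ N2 : ℝ, N2 = ((ZS (FT τ2) (fun z => (U - ρ < z.im ∧ z.im ≤ 2 * U + ρ) ∧
    NP (FT τ2) (x + 2 * ρ) z)).ncard : ℝ) := ⟨_, rfl⟩
  obtain ⟨N3, hN3⟩ : ∃ N3 : ℝ, N3 = ((ZS (FT τ2) (fun z => (U < z.im ∧ z.im ≤ 2 * U) ∧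
    NP (FT τ2) (x + 2 * ρ) z)).ncard : ℝ) := ⟨_, rfl⟩
  rw [← hN1, ← hN2] at key
  rw [← hN1]
  have hN30 : 0 ≤ N3 := by rw [hN3]; exact Nat.cast_nonneg _
  have hρε : ρ ≤ ε / ω := by
    rw [hρ]
    exact div_le_div_of_nonneg_right (by linarith) hω0.le
  -- crude bound
  have hN3c : N3 ≤ Cc * U * ω := by
    rw [hN3]
    have h1 := hCr U τ2 (fun i : Fin 0 => i.elim0) (fun i : Fin 0 => i.elim0) hU4 hτ2
      (by rw [← hω]; exact hdl τ2 _ hτ2' hx1) (fun i => i.elim0) (fun i => i.elim0)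
    rw [← hω] at h1
    have h2 := (ZS_le hfd2 hst2 (P := fun z => (U < z.im ∧ z.im ≤ 2 * U) ∧ NP (FT τ2) (x + 2 * ρ) z)
      (Q := fun y => U < y ∧ y ≤ 2 * U) (u := U) (v := 2 * U) (fun z hz => hz.1) (fun y hy => ⟨hy.1.le, hy.2⟩)).2
    refine le_trans ?_ h1
    exact_mod_cast h2
  -- the boundary
  have hρ1 : ρ ≤ 1 := by
    have : ρ ≤ 1 / ω := by
      rw [hρ]
      exact div_le_div_of_nonneg_right (by linarith) hω0.le
    linarith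
  have hnnU : ∀ x : ℝ, U ≤ x → x ≤ 2 * U → (nn (FT τ2) x ρ : ℝ) ≤ ε / 16 * U := by
    intro x hx1 hx2
    have h2 : Real.log x ≤ Real.log (4 * U) := Real.log_le_log (by linarith) (by linarith)
    have h3 : Real.log (4 * U) ≤ 2 * Real.log U := log4 (by linarith)
    have h5 := hUn x τ2 ρ (by linarith) hτ2 (by
      have h6 : Om x ≤ 2 * ω := by
        rw [hω]; unfold Om; linarith
      have h7 := hdl τ2 _ hτ2' hx4
      rw [le_div_iff₀ hω2p] at h7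
      have h8 : 4 * ω ≤ ω ^ 2 := by
        rw [pow_two]
        exact mul_le_mul_of_nonneg_right (by linarith) hω0.le
      calc 2 * τ2 * Om x ≤ 2 * τ2 * (2 * ω) := mul_le_mul_of_nonneg_left h6 (by positivity)
        _ = τ2 * (4 * ω) := by ring
        _ ≤ τ2 * ω ^ 2 := mul_le_mul_of_nonneg_left h8 hτ2
        _ ≤ 1 := by linarith) hρ1
    have h9 := hUb' U hU5
    rw [pow_one] at h9
    exact h5.trans ((mul_le_mul_of_nonneg_left h2 hC6.le).trans h9)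
  have hN23 : N2 ≤ N3 + ε / 8 * U := by
    have h1 := bdryG hfd2 hst2 (NP (FT τ2) (x + 2 * ρ)) (U := U) (V := 2 * U) (ρ := ρ)
    rw [← hN2, ← hN3] at h1
    have h2 := hnnU U le_rfl (by linarith)
    have h3 := hnnU (2 * U) (by linarith) le_rfl
    linarith
  have hN34 : N3 ≤ ((ZS (FT τ2) (fun z => (U < z.im ∧ z.im ≤ 2 * U) ∧ NP (FT τ2) (x + ε / ω) z)).ncard : ℝ) := by
    rw [hN3]
    have hf4 := (ZS_le hfd2 hst2 (P := fun z => (U < z.im ∧ z.im ≤ 2 * U) ∧ NP (FT τ2) (x + ε / ω) z)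
      (Q := fun y => U < y ∧ y ≤ 2 * U) (u := U) (v := 2 * U) (fun z hz => hz.1) (fun y hy => ⟨hy.1.le, hy.2⟩)).1
    have hsub : ZS (FT τ2) (fun z => (U < z.im ∧ z.im ≤ 2 * U) ∧ NP (FT τ2) (x + 2 * ρ) z) ⊆
        ZS (FT τ2) (fun z => (U < z.im ∧ z.im ≤ 2 * U) ∧ NP (FT τ2) (x + ε / ω) z) := by
      rintro p ⟨h1, h2, h3⟩
      exact ⟨h1, h2, NP_mono (by linarith) h3⟩
    exact_mod_cast Set.ncard_le_ncard hsub hf4
  -- numbers
  have hUω : 0 < U * ω := by positivity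
  have q1 : 2 * (1 / ω) / ρ - 1 = 2 / e0 - 1 := by rw [hρ]; field_simp
  have q2 : 2 * (1 / ω + ρ) / ρ + 1 = 2 / e0 + 3 := by rw [hρ]; field_simp; ring
  rw [q1, q2] at key
  have q3 : Cw * (U / ρ) * Real.exp (-(c * a)) ≤ ε / 4 * (U * ω) / e0 := by
    have h1 := mul_le_mul_of_nonneg_right hexp (show 0 ≤ U * ω / e0 by positivity)
    refine le_trans (le_of_eq ?_) (h1.trans (le_of_eq ?_))
    · rw [hρ]; field_simp
    · ring
  have hU1ω : U ≤ U * ω := le_mul_of_one_le_right hU0.le (by linarith)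
  have q5 : N2 ≤ N3 + ε / 8 * (U * ω) := by
    have := mul_le_mul_of_nonneg_left hU1ω (show 0 ≤ ε / 8 by positivity)
    linarith
  have q6 : N3 ≤ Cc * (U * ω) := by rw [← mul_assoc]; exact hN3c
  have q7 := numb he0p (by linarith) hN30 hUω.le hε (key.trans (add_le_add le_rfl (hbad.trans q3))) q5 q6 he02
  have e3 : ε * U * ω = ε * (U * ω) := by ring
  rw [e3]
  linarith

end Pool.Agent.R838.IS
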