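import Pool.Agent.R838.IS.In2
import Pool.Agent.R838.ST.Zgp

set_option autoImplicit false

/-!
# Zeros with a close neighbour: the theorem
-/

namespace Pool.Agent.R838.IS

open Complex Filter Topology MeasureTheory Set
open Pool.Agent.H24R2.JP (XX HH Om)
open Pool.Agent.H986R2.DBN (XT Ht)
open Pool.Agent.R838.CR
open Pool.Agent.R838.ST
open Pool.Agent.W186.SD (S_NGN S_AW S_CNT S_COV)

/-- zeros with ordinate in `(0, T]` and another zero whose ordinate differs by at most `α / log T` -/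
def CN (f : ℂ → ℂ) (T α : ℝ) : Set (ℂ × ℕ) :=
  ZS f (fun z => (0 < z.im ∧ z.im ≤ T) ∧ NP f (α / Real.log T) z)

theorem fullN {B : ℝ} {F : ℂ → ℂ} {FT : ℝ → ℂ → ℂ} (hD : STB B F FT) (h0 : UNIT0 F) (hNGN : S_NGN)
    (hAW : S_AW) (hCNT : S_CNT) (hCOV : S_COV)
    (A : ℝ) (hA : 0 ≤ A) (ε : ℝ) (hε : 0 < ε) :
    ∃ δ T0 : ℝ, 0 < δ ∧ 2 ≤ T0 ∧ ∀ T τ1 τ2 α : ℝ, T0 ≤ T → 0 ≤ τ1 → 0 ≤ τ2 → (τ1 = 0 ∨ τ2 = 0) →
    τ1 ≤ δ / Om T ^ 2 → τ2 ≤ δ / Om T ^ 2 → 0 ≤ α → α ≤ A →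
    ((CN (FT τ1) T α).ncard : ℝ) ≤ ((CN (FT τ2) T (α + ε)).ncard : ℝ) + ε * (T * Real.log T) := by
  obtain ⟨ε1, hε1⟩ : ∃ ε1 : ℝ, ε1 = min (ε / 4) 1 := ⟨_, rfl⟩
  have hε10 : 0 < ε1 := by rw [hε1]; exact lt_min (by positivity) one_pos
  have hε11 : ε1 ≤ 1 := by rw [hε1]; exact min_le_right _ _
  have hε12 : 4 * ε1 ≤ ε := by
    have : ε1 ≤ ε / 4 := by rw [hε1]; exact min_le_left _ _
    linarith
  obtain ⟨δb, Ub, hδb, hUb, hbl⟩ := blockN hD h0 hNGN hAW hCNT hCOV A hA ε1 hε10 hε11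
  obtain ⟨C8, T8, hC8, hT8, hnn⟩ := nn_all hD h0
  obtain ⟨T9, hT9, hls⟩ := logs_small C8 hC8.le 1 (ε := ε / 2) (by positivity)
  refine ⟨min δb 1, max (max (Ub ^ 2) T8) (max T9 (Real.exp 4)), lt_min hδb one_pos,
    hT8.trans ((le_max_right _ _).trans (le_max_left _ _)), ?_⟩
  intro T τ1 τ2 α hT hτ1 hτ2 h12 hτ1' hτ2' hεα hαA
  simp only [max_le_iff] at hT
  obtain ⟨⟨hTa, hTb⟩, hTc, hTd⟩ := hT
  have hT5 : 5 ≤ T := by
    have := Real.add_one_le_exp (4 : ℝ)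
    linarith
  have hT0 : 0 < T := by linarith
  have hL : 4 ≤ Real.log T := by rw [Real.le_log_iff_exp_le hT0]; exact hTd
  have hL1 : 1 ≤ Real.log T := by linarith
  have hL0 : 0 < Real.log T := by linarith
  have hOm : Om T = Real.log T / 2 := rfl
  have hOm1 : 2 ≤ Om T := by rw [hOm]; linarith
  have hOm0 : 0 < Om T := by linarith
  have hOm2 : 0 < Om T ^ 2 := by positivity
  -- the square root
  have hsq : Real.sqrt T * Real.sqrt T = T := Real.mul_self_sqrt hT0.le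
  have hs2 : 2 ≤ Real.sqrt T := Real.le_sqrt_of_sq_le (by linarith)
  have hs0 : 0 < Real.sqrt T := by linarith
  have hsU : Ub ≤ Real.sqrt T := Real.le_sqrt_of_sq_le hTa
  obtain ⟨n, hn1, hn2⟩ := exists_nat_pow_near (x := Real.sqrt T) (y := (2 : ℝ)) (by linarith) (by norm_num)
  obtain ⟨V, hV⟩ : ∃ V : ℝ, V = T / 2 ^ n := ⟨_, rfl⟩
  have h2n : (0 : ℝ) < 2 ^ n := by positivity
  have hVl : Real.sqrt T ≤ V := by
    rw [hV, le_div_iff₀ h2n]
    calc Real.sqrt T * 2 ^ n ≤ Real.sqrt T * Real.sqrt T := mul_le_mul_of_nonneg_left hn1 hs0.le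
      _ = T := hsq
  have hVu : V ≤ 2 * Real.sqrt T := by
    rw [hV, div_le_iff₀ h2n]
    rw [pow_succ] at hn2
    have h1 := mul_le_mul_of_nonneg_left hn2.le hs0.le
    rw [hsq] at h1
    linarith
  have hV0 : 0 < V := by linarith
  have hVT : V ≤ T := by
    rw [hV]; exact div_le_self hT0.le (one_le_pow₀ (by norm_num))
  -- the functions
  have hf1 := hD.heatd τ1 hτ1
  have hs1 : ∀ s, FT τ1 s = 0 → |s.re| ≤ B := fun s hs => hD.strip τ1 s hτ1 hs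
  have hf2 := hD.heatd τ2 hτ2
  have hst2 : ∀ s, FT τ2 s = 0 → |s.re| ≤ B := fun s hs => hD.strip τ2 s hτ2 hs
  have hdl : ∀ τ' : ℝ, τ' ≤ min δb 1 / Om T ^ 2 → τ' ≤ 1 / Om T ^ 2 := fun τ' h =>
    h.trans (div_le_div_of_nonneg_right (min_le_right _ _) hOm2.le)
  obtain ⟨M, hM⟩ : ∃ M : ℝ, M = C8 * Real.log T := ⟨_, rfl⟩
  have hM0 : 0 ≤ M := by rw [hM]; positivity
  have hnn1 : ∀ t : ℝ, 0 ≤ t → t ≤ T + 2 → (nn (FT τ1) t 1 : ℝ) ≤ M := fun t h1 h2 => by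
    rw [hM]; exact hnn T τ1 t hTb hτ1 (hdl _ hτ1') h1 h2
  obtain ⟨x, hx⟩ : ∃ x : ℝ, x = α / Real.log T := ⟨_, rfl⟩
  have hx2 : (α + ε) / Real.log T = x + ε / Real.log T := by rw [hx]; ring
  -- step 1
  have e1 := dyadN (a := fun u v => ((ZS (FT τ1) (fun w => (u < w.im ∧ w.im ≤ v) ∧ NP (FT τ1) x w)).ncard : ℝ))
    (b := fun u v => ((ZS (FT τ2) (fun w => (u < w.im ∧ w.im ≤ v) ∧ NP (FT τ2) (x + ε / Real.log T) w)).ncard : ℝ))
    (e := ε1 * Om T) hT0 (fun u => by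
      have h1 : ZS (FT τ1) (fun w => (u < w.im ∧ w.im ≤ u) ∧ NP (FT τ1) x w) = ∅ := by
        ext p
        simp only [Set.mem_empty_iff_false, iff_false]
        rintro ⟨-, h3, -⟩
        linarith [h3.1, h3.2]
      show ((ZS (FT τ1) (fun w => (u < w.im ∧ w.im ≤ u) ∧ NP (FT τ1) x w)).ncard : ℝ) ≤ 0
      rw [h1, Set.ncard_empty, Nat.cast_zero])
    (fun u => Nat.cast_nonneg _)
    (fun u v w _ _ => ZP_sl hf1 hs1 _ u v w)
    (fun u v w huv hvw => ZP_sg hf2 hst2 _ huv hvw) n (fun U hU1 hU2 => by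
      rw [← hV] at hU1
      have hUs : Real.sqrt T ≤ U := hVl.trans hU1
      have hU0 : 0 < U := by linarith
      have hUT : U ≤ T := by linarith
      have hlu : Real.log T ≤ 2 * Real.log U := by
        have h1 : Real.log (Real.sqrt T) ≤ Real.log U := Real.log_le_log hs0 hUs
        rw [Real.log_sqrt hT0.le] at h1
        linarith
      have hOU : Om T ≤ 2 * Om U := by rw [hOm]; unfold Om; linarith
      have hOU0 : 0 < Om U := by linarith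
      have hOUT : Om U ≤ Om T := by
        unfold Om
        exact div_le_div_of_nonneg_right (Real.log_le_log hU0 hUT) (by norm_num)
      have hτU : ∀ τ' : ℝ, τ' ≤ min δb 1 / Om T ^ 2 → τ' ≤ δb / Om U ^ 2 := fun τ' h => by
        refine h.trans ?_
        apply div_le_div₀ hδb.le (min_le_left _ _) (by positivity)
        exact pow_le_pow_left₀ hOU0.le hOUT 2
      have hεc : ε1 / Om U ≤ ε / Real.log T := by
        rw [div_le_div_iff₀ hOU0 hL0]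
        have h1 : Real.log T ≤ 4 * Om U := by rw [hOm] at hOU; linarith
        calc ε1 * Real.log T ≤ ε1 * (4 * Om U) := mul_le_mul_of_nonneg_left h1 hε10.le
          _ = 4 * ε1 * Om U := by ring
          _ ≤ ε * Om U := mul_le_mul_of_nonneg_right hε12 hOU0.le
      have hOU2 : Om U ≤ Real.log T := by rw [hOm] at hOUT; linarith
      have hA1 : x ≤ A / Om U := by
        rw [hx]
        exact div_le_div₀ hA hαA hOU0 hOU2
      have hx1 : 0 ≤ x := by rw [hx]; positivity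
      have h1 := hbl U τ1 τ2 x (hsU.trans hUs) hτ1 hτ2 h12 (hτU _ hτ1') (hτU _ hτ2') hx1 hA1
      refine h1.trans ?_
      have hsub : ZS (FT τ2) (fun z => (U < z.im ∧ z.im ≤ 2 * U) ∧ NP (FT τ2) (x + ε1 / Om U) z) ⊆
          ZS (FT τ2) (fun z => (U < z.im ∧ z.im ≤ 2 * U) ∧ NP (FT τ2) (x + ε / Real.log T) z) := by
        rintro p ⟨h1, h2, h3⟩
        exact ⟨h1, h2, NP_mono (by linarith) h3⟩
      have h2 : ((ZS (FT τ2) (fun z => (U < z.im ∧ z.im ≤ 2 * U) ∧ NP (FT τ2) (x + ε1 / Om U) z)).ncard : ℝ) ≤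
          ((ZS (FT τ2) (fun z => (U < z.im ∧ z.im ≤ 2 * U) ∧ NP (FT τ2) (x + ε / Real.log T) z)).ncard : ℝ) := by
        exact_mod_cast Set.ncard_le_ncard hsub (ZP_f hf2 hst2 _ _ _)
      refine add_le_add h2 ?_
      calc ε1 * U * Om U ≤ ε1 * U * Om T := mul_le_mul_of_nonneg_left hOUT (by positivity)
        _ = ε1 * Om T * U := by ring)
  rw [← hV] at e1
  -- step 2
  have e2 := ZP_rem hf1 hs1 (NP (FT τ1) x) hV0.le hM0 (fun t h1 h2 => hnn1 t h1 (by linarith))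
  -- step 3
  have e3 : ((CN (FT τ1) T α).ncard : ℝ) ≤
      ((ZS (FT τ1) (fun w => (V < w.im ∧ w.im ≤ T) ∧ NP (FT τ1) x w)).ncard : ℝ) +
      ((ZS (FT τ1) (fun w => (0 < w.im ∧ w.im ≤ V) ∧ NP (FT τ1) x w)).ncard : ℝ) := by
    unfold CN
    rw [← hx]
    exact ZP_sl hf1 hs1 _ 0 V T
  -- step 4
  have e4 : ((ZS (FT τ2) (fun w => (V < w.im ∧ w.im ≤ T) ∧ NP (FT τ2) (x + ε / Real.log T) w)).ncard : ℝ) ≤
      ((CN (FT τ2) T (α + ε)).ncard : ℝ) := by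
    unfold CN
    rw [hx2]
    have hsub : ZS (FT τ2) (fun w => (V < w.im ∧ w.im ≤ T) ∧ NP (FT τ2) (x + ε / Real.log T) w) ⊆
        ZS (FT τ2) (fun z => (0 < z.im ∧ z.im ≤ T) ∧ NP (FT τ2) (x + ε / Real.log T) z) := by
      rintro p ⟨h1, h2, h3⟩
      exact ⟨h1, ⟨hV0.trans h2.1, h2.2⟩, h3⟩
    exact_mod_cast Set.ncard_le_ncard hsub (ZP_f hf2 hst2 _ _ _)
  -- numbers
  have e5 := hls T hTc
  rw [← hM, pow_one] at e5
  have e6 : (V + 1) * M ≤ M * (8 * Real.sqrt T) := by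
    have h1 : V + 1 ≤ 8 * Real.sqrt T := by linarith
    have h2 := mul_le_mul_of_nonneg_right h1 hM0
    linarith
  have e7 : ε1 * Om T * T * (1 - 1 / 2 ^ n) ≤ ε / 4 * (T * Real.log T) := by
    have h1 : (0 : ℝ) < 1 / 2 ^ n := by positivity
    have h2 : 0 ≤ ε1 * Om T * T := by positivity
    have h3 : ε1 * Om T * T * (1 - 1 / 2 ^ n) ≤ ε1 * Om T * T * 1 :=
      mul_le_mul_of_nonneg_left (by linarith) h2
    have h4 : ε1 * Om T * T * 1 = 4 * ε1 / 8 * (T * Real.log T) := by rw [hOm]; ring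
    have h5 : 4 * ε1 / 8 * (T * Real.log T) ≤ ε / 4 * (T * Real.log T) :=
      mul_le_mul_of_nonneg_right (by linarith) (by positivity)
    linarith
  have e8 : ε / 2 * T ≤ ε / 2 * (T * Real.log T) :=
    mul_le_mul_of_nonneg_left (le_mul_of_one_le_right hT0.le hL1) (by positivity)
  have e9 : 0 ≤ ε * (T * Real.log T) := by positivity
  linarith

end Pool.Agent.R838.IS
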