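import Pool.Agent.R838.IS.Is3
import Pool.Agent.R838.ST.Zln
import Pool.Agent.H24R2.JP.Zeros

set_option autoImplicit false

/-!
# Isolated simple zeros of zeta and of the de Bruijn-Newman family
-/

namespace Pool.Agent.R838.IS

open Complex Filter Topology MeasureTheory Set
open Pool.Agent.H24R2.JP (XX HH Om)
open Pool.Agent.H986R2.DBN (XT Ht)
open Pool.Agent.R838.CR
open Pool.Agent.R838.ST

theorem zero_XX (w : ℂ) : XX w = 0 ↔
    riemannZeta (1 / 2 + w) = 0 ∧ 0 < (1 / 2 + w).re ∧ (1 / 2 + w).re < 1 := by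
  have key : ∀ w : ℂ, XX w = 0 → riemannZeta (1 / 2 + w) = 0 ∧ (1 / 2 + w).re < 1 := by
    intro w h
    obtain ⟨h1, h2, h3⟩ := Pool.Agent.H24R2.JP.Zer.completed_zero w h
    have h4 : riemannZeta (1 / 2 + w) = 0 := by
      rw [riemannZeta_def_of_ne_zero h1, h3, zero_div]
    refine ⟨h4, ?_⟩
    by_contra hcon
    push Not at hcon
    exact riemannZeta_ne_zero_of_one_le_re hcon h4
  constructor
  · intro h
    obtain ⟨h1, h2⟩ := key w h
    have h3 : XX (-w) = 0 := by rw [Pool.Agent.H24R2.JP.Zer.XX_even]; exact h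
    obtain ⟨-, h4⟩ := key (-w) h3
    refine ⟨h1, ?_, h2⟩
    simp at h4 ⊢
    linarith
  · rintro ⟨h1, h2, h3⟩
    have h4 : (1 / 2 + w : ℂ) ≠ 0 := by
      intro h
      rw [h] at h2
      simp at h2
    have h5 : (1 - (1 / 2 + w) : ℂ) ≠ 0 := by
      intro h
      have h6 : (1 / 2 + w : ℂ) = 1 := by linear_combination -h
      rw [h6] at h3
      simp at h3
    rw [Pool.Agent.H24R2.JP.Zer.XX_eq w h4 h5]
    rw [riemannZeta_def_of_ne_zero h4, div_eq_zero_iff] at h1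
    rcases h1 with h1 | h1
    · rw [h1, mul_zero]
    · exact absurd h1 (Gammaℝ_ne_zero_of_re_pos h2)

/-- simple zeros of zeta on the critical line with ordinate in `(0, T]` and no other nontrivial zero in the box of
half height `α / log T` and half width `β / log T` -/
def zetaI (T α β : ℝ) : Set ℂ :=
  {s | s.re = 1 / 2 ∧ (0 < s.im ∧ s.im ≤ T) ∧ analyticOrderNatAt riemannZeta s = 1 ∧
    ∀ w : ℂ, riemannZeta w = 0 → 0 < w.re → w.re < 1 → w ≠ s →
      α ≤ |w.im - s.im| * Real.log T ∨ β ≤ |w.re - 1 / 2| * Real.log T}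

/-- the same for `H` -/
def heatI (H : ℂ → ℂ) (T α β : ℝ) : Set ℂ :=
  {z | z.im = 0 ∧ (0 < z.re / 2 ∧ z.re / 2 ≤ T) ∧ analyticOrderNatAt H z = 1 ∧
    ∀ w : ℂ, H w = 0 → w ≠ z →
      α ≤ |w.re / 2 - z.re / 2| * Real.log T ∨ β ≤ |w.im / 2| * Real.log T}

lemma NI_iff {f : ℂ → ℂ} {T α β : ℝ} (hT : 1 < T) (p : ℂ × ℕ) : p ∈ NI f T α β ↔
    p.2 = 0 ∧ (0 < p.1.im ∧ p.1.im ≤ T) ∧ p.1.re = 0 ∧ analyticOrderNatAt f p.1 = 1 ∧
    ∀ w : ℂ, f w = 0 → w ≠ p.1 → α ≤ |w.im - p.1.im| * Real.log T ∨ β ≤ |w.re| * Real.log T := by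
  have hL : 0 < Real.log T := Real.log_pos hT
  constructor
  · rintro ⟨h1, h2, h3, h4, h5⟩
    have h6 : p.2 < analyticOrderNatAt f p.1 := h1
    rw [h4] at h6
    refine ⟨by omega, h2, h3, h4, fun w hw hwp => ?_⟩
    rcases h5 w hw hwp with h | h
    · left; rw [div_le_iff₀ hL] at h; exact h
    · right; rw [div_le_iff₀ hL] at h; exact h
  · rintro ⟨h1, h2, h3, h4, h5⟩
    refine ⟨?_, h2, h3, h4, fun w hw hwp => ?_⟩
    · show p.2 < analyticOrderNatAt f p.1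
      rw [h1, h4]; exact one_pos
    · rcases h5 w hw hwp with h | h
      · left; rw [div_le_iff₀ hL]; exact h
      · right; rw [div_le_iff₀ hL]; exact h

lemma NI_inj {f : ℂ → ℂ} {T α β : ℝ} (hT : 1 < T) (e e' : ℂ → ℂ) (he : ∀ z, e' (e z) = z) :
    Set.InjOn (fun p : ℂ × ℕ => e p.1) (NI f T α β) := by
  intro p hp q hq hpq
  rw [NI_iff hT] at hp hq
  have h1 : e p.1 = e q.1 := hpq
  have h2 := congrArg e' h1
  rw [he, he] at h2
  exact Prod.ext h2 (by rw [hp.1, hq.1])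

theorem zetaI_card {T : ℝ} (hT : 1 < T) (α β : ℝ) : (zetaI T α β).ncard = (NI XX T α β).ncard := by
  have h : zetaI T α β = (fun p : ℂ × ℕ => 1 / 2 + p.1) '' NI XX T α β := by
    ext s
    constructor
    · rintro ⟨h1, h2, h3, h4⟩
      have e : 1 / 2 + (s - 1 / 2) = s := by ring
      refine ⟨(s - 1 / 2, 0), ?_, e⟩
      rw [NI_iff hT]
      have him : (s - 1 / 2).im = s.im := by simp
      refine ⟨rfl, ?_, ?_, ?_, ?_⟩
      · show 0 < (s - 1 / 2).im ∧ (s - 1 / 2).im ≤ T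
        rw [him]; exact h2
      · show (s - 1 / 2).re = 0
        simp [h1]
      · show analyticOrderNatAt XX (s - 1 / 2) = 1
        rw [order_XX (by rw [him]; exact h2.1), e]
        exact h3
      · intro w hw hws
        obtain ⟨h5, h6, h7⟩ := (zero_XX w).1 hw
        have h8 := h4 (1 / 2 + w) h5 h6 h7 (fun h9 => hws (by
          show w = s - 1 / 2
          rw [← h9]; ring))
        show α ≤ |w.im - (s - 1 / 2).im| * Real.log T ∨ β ≤ |w.re| * Real.log T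
        rw [him]
        simpa using h8
    · rintro ⟨p, hp, rfl⟩
      rw [NI_iff hT] at hp
      obtain ⟨-, h2, h3, h4, h5⟩ := hp
      have him : (1 / 2 + p.1).im = p.1.im := by simp
      show (1 / 2 + p.1).re = 1 / 2 ∧ (0 < (1 / 2 + p.1).im ∧ (1 / 2 + p.1).im ≤ T) ∧
        analyticOrderNatAt riemannZeta (1 / 2 + p.1) = 1 ∧ ∀ w : ℂ, riemannZeta w = 0 → 0 < w.re → w.re < 1 →
        w ≠ 1 / 2 + p.1 → α ≤ |w.im - (1 / 2 + p.1).im| * Real.log T ∨ β ≤ |w.re - 1 / 2| * Real.log T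
      rw [him]
      refine ⟨by simp [h3], h2, ?_, ?_⟩
      · rw [← order_XX h2.1]; exact h4
      · intro w hw hw1 hw2 hwp
        have e : 1 / 2 + (w - 1 / 2) = w := by ring
        have h6 : XX (w - 1 / 2) = 0 := (zero_XX _).2 (by rw [e]; exact ⟨hw, hw1, hw2⟩)
        have h7 := h5 (w - 1 / 2) h6 (fun h => hwp (by rw [← h, e]))
        simpa using h7
  rw [h, Set.InjOn.ncard_image (NI_inj hT (fun z => 1 / 2 + z) (fun z => z - 1 / 2) (fun z => by ring))]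

theorem heatI_card {t : ℝ} (ht : 0 ≤ t) {T : ℝ} (hT : 1 < T) (α β : ℝ) :
    (heatI (Ht t) T α β).ncard = (NI (XT (t / 4)) T α β).ncard := by
  have e1 : ∀ z : ℂ, I / 2 * (-(2 * I) * z) = z := fun z => by
    have : I / 2 * (-(2 * I) * z) = -(I * I) * z := by ring
    rw [this, I_mul_I]; ring
  have e2 : ∀ z : ℂ, -(2 * I) * (I / 2 * z) = z := fun z => by
    have : -(2 * I) * (I / 2 * z) = -(I * I) * z := by ring
    rw [this, I_mul_I]; ring
  have hre : ∀ z : ℂ, (I / 2 * z).re = -(z.im / 2) := fun z => Pool.Agent.W186.SD.CntH.half_re z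
  have him : ∀ z : ℂ, (I / 2 * z).im = z.re / 2 := fun z => Pool.Agent.W186.SD.CntH.half_im z
  have hz : ∀ w : ℂ, Ht t w = 0 ↔ XT (t / 4) (I / 2 * w) = 0 := fun w => by
    rw [Pool.Agent.H986R2.DBN.ClassHAux.Ht_eq, div_eq_zero_iff]
    constructor
    · rintro (h | h)
      · exact h
      · norm_num at h
    · exact fun h => Or.inl h
  have h : heatI (Ht t) T α β = (fun p : ℂ × ℕ => -(2 * I) * p.1) '' NI (XT (t / 4)) T α β := by
    ext s
    constructor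
    · rintro ⟨h1, h2, h3, h4⟩
      refine ⟨(I / 2 * s, 0), ?_, e2 s⟩
      rw [NI_iff hT]
      refine ⟨rfl, ?_, ?_, ?_, ?_⟩
      · show 0 < (I / 2 * s).im ∧ (I / 2 * s).im ≤ T
        rw [him]; exact h2
      · show (I / 2 * s).re = 0
        rw [hre, h1]; norm_num
      · show analyticOrderNatAt (XT (t / 4)) (I / 2 * s) = 1
        rw [← Pool.Agent.W186.SD.CntH.order_eq ht]
        exact h3
      · intro w hw hws
        have h5 : Ht t (-(2 * I) * w) = 0 := (hz _).2 (by rw [e1]; exact hw)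
        have h6 := h4 _ h5 (fun h9 => hws (by
          show w = I / 2 * s
          rw [← h9, e1]))
        show α ≤ |w.im - (I / 2 * s).im| * Real.log T ∨ β ≤ |w.re| * Real.log T
        have h7 := him (-(2 * I) * w)
        have h8 := hre (-(2 * I) * w)
        rw [e1] at h7 h8
        rw [him, h7, h8, abs_neg]
        exact h6
    · rintro ⟨p, hp, rfl⟩
      rw [NI_iff hT] at hp
      obtain ⟨-, h2, h3, h4, h5⟩ := hp
      have h7 := him (-(2 * I) * p.1)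
      have h8 := hre (-(2 * I) * p.1)
      rw [e1] at h7 h8
      have h9 : (-(2 * I) * p.1).im = 0 := by rw [h3] at h8; linarith
      show (-(2 * I) * p.1).im = 0 ∧ (0 < (-(2 * I) * p.1).re / 2 ∧ (-(2 * I) * p.1).re / 2 ≤ T) ∧
        analyticOrderNatAt (Ht t) (-(2 * I) * p.1) = 1 ∧ ∀ w : ℂ, Ht t w = 0 → w ≠ -(2 * I) * p.1 →
        α ≤ |w.re / 2 - (-(2 * I) * p.1).re / 2| * Real.log T ∨ β ≤ |w.im / 2| * Real.log T
      rw [← h7]
      refine ⟨h9, h2, ?_, ?_⟩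
      · rw [Pool.Agent.W186.SD.CntH.order_eq ht, e1]; exact h4
      · intro w hw hwp
        have h10 := h5 (I / 2 * w) ((hz w).1 hw) (fun h => hwp (by rw [← h, e2]))
        rw [him, hre, abs_neg] at h10
        exact h10
  rw [h, Set.InjOn.ncard_image (NI_inj hT (fun z => -(2 * I) * z) (fun z => I / 2 * z) e1)]

theorem XT_sym (τ : ℝ) (z : ℂ) (_ : 0 ≤ τ) (h : XT τ z = 0) : XT τ (-((starRingEnd ℂ) z)) = 0 := by
  rw [Pool.Agent.H986R2.DBN.KerAux.XT_neg, Pool.Agent.H986R2.DBN.KerAux.XT_conj, h, map_zero]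

/-- The comparison. -/
theorem cmpI (A : ℝ) (hA : 0 ≤ A) (ε : ℝ) (hε : 0 < ε) : ∃ δ T0 : ℝ, 0 < δ ∧ 2 ≤ T0 ∧
    ∀ T t α β : ℝ, T0 ≤ T → 0 ≤ t → t ≤ δ / Real.log T ^ 2 → ε ≤ α → α ≤ A → ε ≤ β →
    ((zetaI T α β).ncard : ℝ) ≤ ((heatI (Ht t) T (α - ε) (β - ε)).ncard : ℝ) + ε * (T * Real.log T) ∧
    ((heatI (Ht t) T α β).ncard : ℝ) ≤ ((zetaI T (α - ε) (β - ε)).ncard : ℝ) + ε * (T * Real.log T) := by
  obtain ⟨δ, T0, hδ, hT0, h⟩ := fullI stb_xi unit0_xi Pool.Agent.W333.SDNGN.ngn Pool.Agent.W186.SD.HH.aw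
    Pool.Agent.W186.SD.HH.cnt Pool.Agent.W337.SD.cov XT_sym A hA ε hε
  refine ⟨δ, T0, hδ, hT0, ?_⟩
  intro T t α β hT ht ht2 hα hαA hβ
  have hT1 : 1 < T := by linarith
  have hL : 0 < Real.log T := Real.log_pos (by linarith)
  have hOm : Om T = Real.log T / 2 := rfl
  have h1 : t / 4 ≤ δ / Om T ^ 2 := by
    rw [hOm, div_pow, div_div_eq_mul_div]
    have h2 : t / 4 ≤ t := by linarith
    refine h2.trans (ht2.trans ?_)
    apply div_le_div_of_nonneg_right _ (by positivity)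
    linarith
  have h2 : (0 : ℝ) ≤ δ / Om T ^ 2 := by positivity
  have h3 := h T 0 (t / 4) α β hT le_rfl (by linarith) (Or.inl rfl) h2 h1 hα hαA hβ
  have h4 := h T (t / 4) 0 α β hT (by linarith) le_rfl (Or.inr rfl) h1 h2 hα hαA hβ
  rw [stb_xi.zero] at h3 h4
  rw [← zetaI_card hT1, ← heatI_card ht hT1] at h3
  rw [← zetaI_card hT1, ← heatI_card ht hT1] at h4
  exact ⟨h3, h4⟩

end Pool.Agent.R838.IS
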