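import Pool.Agent.R838.IS.In2
import Pool.Agent.R838.IS.Is4

set_option autoImplicit false

/-!
# Close zeros of zeta and of the de Bruijn-Newman family
-/

namespace Pool.Agent.R838.IS

open Complex Filter Topology MeasureTheory Set
open Pool.Agent.H24R2.JP (XX HH Om)
open Pool.Agent.H986R2.DBN (XT Ht)
open Pool.Agent.R838.CR
open Pool.Agent.R838.ST

/-- zeros with ordinate in `(T, 2T]` and another zero whose ordinate differs by at most `α / log T` -/
def CD (f : ℂ → ℂ) (T α : ℝ) : Set (ℂ × ℕ) :=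
  ZS f (fun z => (T < z.im ∧ z.im ≤ 2 * T) ∧ NP f (α / Real.log T) z)

/-- zeros of zeta with ordinate in `(T, 2T]` which are multiple or have a neighbour at distance at most `lam` times
the mean spacing -/
def closeZ (T lam : ℝ) : Set (ℂ × ℕ) :=
  {p | p ∈ ZetaZ ∧ (T < p.1.im ∧ p.1.im ≤ 2 * T) ∧ (1 < analyticOrderNatAt riemannZeta p.1 ∨
    ∃ w : ℂ, w ≠ p.1 ∧ riemannZeta w = 0 ∧ 0 < w.re ∧ w.re < 1 ∧ 0 < w.im ∧
      |w.im - p.1.im| * Real.log T ≤ 2 * Real.pi * lam)}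

/-- the same for `H` -/
def closeH (H : ℂ → ℂ) (T lam : ℝ) : Set (ℂ × ℕ) :=
  {p | p ∈ Zi H ∧ (T < p.1.re / 2 ∧ p.1.re / 2 ≤ 2 * T) ∧ (1 < analyticOrderNatAt H p.1 ∨
    ∃ w : ℂ, w ≠ p.1 ∧ H w = 0 ∧ 0 < w.re / 2 ∧
      |w.re / 2 - p.1.re / 2| * Real.log T ≤ 2 * Real.pi * lam)}

theorem closeZ_card {T : ℝ} (hT : 1 < T) (lam : ℝ) :
    (closeZ T lam).ncard = (CD XX T (2 * Real.pi * lam)).ncard := by
  have hL : 0 < Real.log T := Real.log_pos hT
  refine ncard_tr (fun z => z - 1 / 2) (fun z => z + 1 / 2) (fun z => by ring) (fun z => by ring) (fun p => ?_)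
  have h1 : (p.1 - 1 / 2).im = p.1.im := by simp
  have e : 1 / 2 + (p.1 - 1 / 2) = p.1 := by ring
  constructor
  · rintro ⟨h3, h4, h5⟩
    have h0 : 0 < p.1.im := by linarith [h4.1]
    have ho := order_XX (z := p.1 - 1 / 2) (by rw [h1]; exact h0)
    rw [e] at ho
    refine ⟨(zetaZ_iff h0).1 h3, ?_, ?_⟩
    · show T < (p.1 - 1 / 2).im ∧ (p.1 - 1 / 2).im ≤ 2 * T
      rw [h1]; exact h4
    · show NP XX (2 * Real.pi * lam / Real.log T) (p.1 - 1 / 2)
      rcases h5 with h5 | ⟨w, h5, h6, h7, h8, h9, h10⟩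
      · left
        rw [ho]; exact h5
      · right
        have e2 : 1 / 2 + (w - 1 / 2) = w := by ring
        refine ⟨w - 1 / 2, fun h => h5 (by simpa using h), (zero_XX _).2 (by rw [e2]; exact ⟨h6, h7, h8⟩),
          by simpa using h9, ?_⟩
        rw [h1, le_div_iff₀ hL]
        have : (w - 1 / 2).im = w.im := by simp
        rw [this]; exact h10
  · rintro ⟨h3, h4, h5⟩
    have h4' : T < (p.1 - 1 / 2).im ∧ (p.1 - 1 / 2).im ≤ 2 * T := h4
    rw [h1] at h4'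
    have h0 : 0 < p.1.im := by linarith [h4'.1]
    have ho := order_XX (z := p.1 - 1 / 2) (by rw [h1]; exact h0)
    rw [e] at ho
    refine ⟨(zetaZ_iff h0).2 h3, h4', ?_⟩
    have h5' : NP XX (2 * Real.pi * lam / Real.log T) (p.1 - 1 / 2) := h5
    rcases h5' with h5 | ⟨w, h5, h6, h7, h8⟩
    · left
      rw [ho] at h5; exact h5
    · right
      obtain ⟨a1, a2, a3⟩ := (zero_XX w).1 h6
      refine ⟨1 / 2 + w, fun h => h5 (by rw [← h]; ring), a1, a2, a3, by simpa using h7, ?_⟩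
      rw [h1, le_div_iff₀ hL] at h8
      have : (1 / 2 + w).im = w.im := by simp
      rw [this]; exact h8

theorem closeH_card {t : ℝ} (ht : 0 ≤ t) {T : ℝ} (hT : 1 < T) (lam : ℝ) :
    (closeH (Ht t) T lam).ncard = (CD (XT (t / 4)) T (2 * Real.pi * lam)).ncard := by
  have hL : 0 < Real.log T := Real.log_pos hT
  have e1 : ∀ z : ℂ, I / 2 * (-(2 * I) * z) = z := fun z => by
    have : I / 2 * (-(2 * I) * z) = -(I * I) * z := by ring
    rw [this, I_mul_I]; ring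
  have e2 : ∀ z : ℂ, -(2 * I) * (I / 2 * z) = z := fun z => by
    have : -(2 * I) * (I / 2 * z) = -(I * I) * z := by ring
    rw [this, I_mul_I]; ring
  have him : ∀ z : ℂ, (I / 2 * z).im = z.re / 2 := fun z => Pool.Agent.W186.SD.CntH.half_im z
  have hz : ∀ w : ℂ, Ht t w = 0 ↔ XT (t / 4) (I / 2 * w) = 0 := fun w => by
    rw [Pool.Agent.H986R2.DBN.ClassHAux.Ht_eq, div_eq_zero_iff]
    constructor
    · rintro (h | h)
      · exact h
      · norm_num at h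
    · exact fun h => Or.inl h
  refine ncard_tr (fun z => I / 2 * z) (fun z => -(2 * I) * z) e2 e1 (fun p => ?_)
  have h0 : p ∈ Zi (Ht t) ↔ ((I / 2 * p.1, p.2) : ℂ × ℕ) ∈ Zi (XT (t / 4)) := by
    show p.2 < analyticOrderNatAt (Ht t) p.1 ↔ p.2 < analyticOrderNatAt (XT (t / 4)) (I / 2 * p.1)
    rw [Pool.Agent.W186.SD.CntH.order_eq ht]
  have h1 := him p.1
  have ho := Pool.Agent.W186.SD.CntH.order_eq ht p.1
  constructor
  · rintro ⟨h3, h4, h5⟩
    refine ⟨h0.1 h3, ?_, ?_⟩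
    · show T < (I / 2 * p.1).im ∧ (I / 2 * p.1).im ≤ 2 * T
      rw [h1]; exact h4
    · show NP (XT (t / 4)) (2 * Real.pi * lam / Real.log T) (I / 2 * p.1)
      rcases h5 with h5 | ⟨w, h5, h6, h7, h8⟩
      · left
        rw [← ho]; exact h5
      · right
        refine ⟨I / 2 * w, fun h => h5 ?_, (hz w).1 h6, by rw [him]; exact h7, ?_⟩
        · rw [← e2 w, h, e2]
        · rw [him, him, le_div_iff₀ hL]; exact h8
  · rintro ⟨h3, h4, h5⟩
    have h4' : T < (I / 2 * p.1).im ∧ (I / 2 * p.1).im ≤ 2 * T := h4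
    rw [h1] at h4'
    refine ⟨h0.2 h3, h4', ?_⟩
    have h5' : NP (XT (t / 4)) (2 * Real.pi * lam / Real.log T) (I / 2 * p.1) := h5
    rcases h5' with h5 | ⟨w, h5, h6, h7, h8⟩
    · left
      rw [← ho] at h5; exact h5
    · right
      have h9 := him (-(2 * I) * w)
      rw [e1] at h9
      refine ⟨-(2 * I) * w, fun h => h5 (by rw [← h, e1]), (hz _).2 (by rw [e1]; exact h6), by rw [← h9]; exact h7, ?_⟩
      rw [← h9, ← h1]
      rw [le_div_iff₀ hL] at h8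
      exact h8

lemma CD_f {f : ℂ → ℂ} {B : ℝ} (hf : Differentiable ℂ f) (hs : ∀ s, f s = 0 → |s.re| ≤ B) (T α : ℝ) :
    (CD f T α).Finite := ZP_f hf hs _ _ _

lemma CD_mono {f : ℂ → ℂ} {B : ℝ} (hf : Differentiable ℂ f) (hs : ∀ s, f s = 0 → |s.re| ≤ B) {T α α' : ℝ}
    (hT : 1 < T) (h : α ≤ α') : ((CD f T α).ncard : ℝ) ≤ ((CD f T α').ncard : ℝ) := by
  have hL : 0 < Real.log T := Real.log_pos hT
  have hsub : CD f T α ⊆ CD f T α' := by
    rintro p ⟨h1, h2, h3⟩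
    exact ⟨h1, h2, NP_mono (div_le_div_of_nonneg_right h hL.le) h3⟩
  exact_mod_cast Set.ncard_le_ncard hsub (CD_f hf hs _ _)

/-- The comparison. -/
theorem cmpD (A : ℝ) (hA : 0 ≤ A) (ε : ℝ) (hε : 0 < ε) : ∃ δ T0 : ℝ, 0 < δ ∧ 2 ≤ T0 ∧
    ∀ T t lam : ℝ, T0 ≤ T → 0 ≤ t → t ≤ δ / Real.log T ^ 2 → 0 ≤ lam → lam ≤ A →
    ((closeZ T lam).ncard : ℝ) ≤ ((closeH (Ht t) T (lam + ε)).ncard : ℝ) + ε * (T * Real.log T) ∧
    ((closeH (Ht t) T lam).ncard : ℝ) ≤ ((closeZ T (lam + ε)).ncard : ℝ) + ε * (T * Real.log T) := by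
  obtain ⟨ε1, hε1⟩ : ∃ ε1 : ℝ, ε1 = min ε 1 := ⟨_, rfl⟩
  have hε10 : 0 < ε1 := by rw [hε1]; exact lt_min (by positivity) one_pos
  have hε11 : ε1 ≤ 1 := by rw [hε1]; exact min_le_right _ _
  have hε12 : ε1 ≤ ε := by rw [hε1]; exact min_le_left _ _
  have hpi := Real.pi_gt_three
  obtain ⟨δ, T0, hδ, hT0, h⟩ := blockN stb_xi unit0_xi Pool.Agent.W333.SDNGN.ngn Pool.Agent.W186.SD.HH.aw
    Pool.Agent.W186.SD.HH.cnt Pool.Agent.W337.SD.cov (Real.pi * A) (by positivity) ε1 hε10 hε11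
  refine ⟨δ, T0, hδ, hT0, ?_⟩
  intro T t lam hT ht ht2 hl0 hlA
  have hT1 : 1 < T := by linarith
  have hT0' : 0 < T := by linarith
  have hL : 0 < Real.log T := Real.log_pos (by linarith)
  have hOm : Om T = Real.log T / 2 := rfl
  have h1 : t / 4 ≤ δ / Om T ^ 2 := by
    rw [hOm, div_pow, div_div_eq_mul_div]
    have h2 : t / 4 ≤ t := by linarith
    refine h2.trans (ht2.trans ?_)
    apply div_le_div_of_nonneg_right _ (by positivity)
    linarith
  have h2 : (0 : ℝ) ≤ δ / Om T ^ 2 := by positivity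
  have hx0 : 0 ≤ 2 * Real.pi * lam / Real.log T := by positivity
  have hxA : 2 * Real.pi * lam / Real.log T ≤ Real.pi * A / Om T := by
    rw [hOm, div_div_eq_mul_div]
    apply div_le_div_of_nonneg_right _ hL.le
    have := mul_le_mul_of_nonneg_left hlA Real.pi_pos.le
    linarith
  have h3 := h T 0 (t / 4) _ hT le_rfl (by linarith) (Or.inl rfl) h2 h1 hx0 hxA
  have h4 := h T (t / 4) 0 _ hT (by linarith) le_rfl (Or.inr rfl) h1 h2 hx0 hxA
  have hstep : 2 * Real.pi * lam / Real.log T + ε1 / Om T ≤ 2 * Real.pi * (lam + ε) / Real.log T := by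
    rw [hOm, div_div_eq_mul_div, ← add_div]
    apply div_le_div_of_nonneg_right _ hL.le
    have h5 : 3 * ε ≤ Real.pi * ε := mul_le_mul_of_nonneg_right hpi.le hε.le
    have h6 : 2 * Real.pi * (lam + ε) = 2 * Real.pi * lam + 2 * (Real.pi * ε) := by ring
    rw [h6]
    linarith
  have herr : ε1 * T * Om T ≤ ε * (T * Real.log T) := by
    rw [hOm]
    have h5 : ε1 * (T * Real.log T) ≤ ε * (T * Real.log T) := mul_le_mul_of_nonneg_right hε12 (by positivity)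
    have h6 : 0 ≤ ε1 * (T * Real.log T) := by positivity
    have h7 : ε1 * T * (Real.log T / 2) = ε1 * (T * Real.log T) / 2 := by ring
    rw [h7]; linarith
  have hmon : ∀ τ : ℝ, 0 ≤ τ → ((ZS (XT τ) (fun z => (T < z.im ∧ z.im ≤ 2 * T) ∧
      NP (XT τ) (2 * Real.pi * lam / Real.log T + ε1 / Om T) z)).ncard : ℝ) ≤
      ((CD (XT τ) T (2 * Real.pi * (lam + ε))).ncard : ℝ) := by
    intro τ hτ
    have hsub : ZS (XT τ) (fun z => (T < z.im ∧ z.im ≤ 2 * T) ∧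
      NP (XT τ) (2 * Real.pi * lam / Real.log T + ε1 / Om T) z) ⊆ CD (XT τ) T (2 * Real.pi * (lam + ε)) := by
      rintro p ⟨a1, a2, a3⟩
      exact ⟨a1, a2, NP_mono hstep a3⟩
    exact_mod_cast Set.ncard_le_ncard hsub (CD_f (stb_xi.heatd τ hτ) (fun s hs => stb_xi.strip τ s hτ hs) _ _)
  have h5 := hmon (t / 4) (by linarith)
  have h6 := hmon 0 le_rfl
  rw [stb_xi.zero] at h3 h4 h6
  rw [closeZ_card hT1, closeZ_card hT1, closeH_card ht hT1, closeH_card ht hT1]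
  constructor
  · exact h3.trans (add_le_add h5 herr)
  · exact h4.trans (add_le_add h6 herr)

end Pool.Agent.R838.IS
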