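import Pool.Agent.R838.IS.Is4
import Pool.Agent.R838.ST.Cry

set_option autoImplicit false

/-!
# Isolated zeros for larger times
-/

namespace Pool.Agent.R838.IS

open Complex Filter Topology MeasureTheory Set
open Pool.Agent.H24R2.JP (XX HH Om)
open Pool.Agent.H986R2.DBN (XT Ht)
open Pool.Agent.R838.CR
open Pool.Agent.R838.ST

lemma irr_blk {B : ℝ} {F : ℂ → ℂ} {FT : ℝ → ℂ → ℂ} (hD : STB B F FT) {ε τ U c C : ℝ} (hτ : 0 ≤ τ)
    (h : ∀ S : Finset ℂ, (∀ s ∈ S, irrH FT ε τ s ∧ U < s.im ∧ s.im ≤ 2 * U) →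
      ∑ s ∈ S, (analyticOrderNatAt (FT τ) s : ℝ) ≤ C * U * Real.log U * Real.exp (-(c * τ * Real.log U ^ 2))) :
    ((ZS (FT τ) (fun z => (U < z.im ∧ z.im ≤ 2 * U) ∧ ¬ regH FT ε τ z)).ncard : ℝ) ≤
      C * U * Real.log U * Real.exp (-(c * τ * Real.log U ^ 2)) := by
  classical
  have hf := hD.heatd τ hτ
  have hst : ∀ s, FT τ s = 0 → |s.re| ≤ B := fun s hs => hD.strip τ s hτ hs
  have hfin : {s | FT τ s = 0 ∧ (U < s.im ∧ s.im ≤ 2 * U) ∧ ¬ regH FT ε τ s}.Finite :=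
    (zfin hf hst U (2 * U)).subset (fun s hs => ⟨hs.1, hs.2.1.1.le, hs.2.1.2⟩)
  have hm : ∀ s, s ∈ hfin.toFinset ↔ FT τ s = 0 ∧ (U < s.im ∧ s.im ≤ 2 * U) ∧ ¬ regH FT ε τ s := fun s => by
    rw [Set.Finite.mem_toFinset]; rfl
  have e : ZS (FT τ) (fun z => (U < z.im ∧ z.im ≤ 2 * U) ∧ ¬ regH FT ε τ z) =
      {p : ℂ × ℕ | p ∈ Zi (FT τ) ∧ p.1 ∈ hfin.toFinset} := by
    ext p
    constructor
    · rintro ⟨h1, h2⟩
      exact ⟨h1, (hm _).2 ⟨Zi_zero hf h1, h2⟩⟩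
    · rintro ⟨h1, h2⟩
      exact ⟨h1, ((hm _).1 h2).2⟩
  rw [e, (zi_card (FT τ) hfin.toFinset).2]
  have h1 := h hfin.toFinset (fun s hs => by
    obtain ⟨h2, h3, h4⟩ := (hm s).1 hs
    exact ⟨⟨h2, h4⟩, h3⟩)
  push_cast
  exact h1

theorem irrB {B : ℝ} {F : ℂ → ℂ} {FT : ℝ → ℂ → ℂ} (hD : STB B F FT) (h0 : UNIT0 F) (ε η A : ℝ)
    (hε : 0 < ε) (hη : 0 < η) (hA : 0 < A) :
    ∃ K T0 : ℝ, 0 < K ∧ 2 ≤ T0 ∧ ∀ T τ : ℝ, T0 ≤ T → K ≤ τ * Real.log T ^ 2 → τ * Real.log T ≤ A →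
    ((ZS (FT τ) (fun z => (0 < z.im ∧ z.im ≤ T) ∧ ¬ regH FT ε τ z)).ncard : ℝ) ≤ η * (T * Real.log T) := by
  classical
  obtain ⟨c, C, hc, hC, hirr⟩ := fin_irr hD.ins ε A hε
  obtain ⟨C8, T8, hC8, hT8, hnn⟩ := nn_allX hD h0 A hA
  -- the number of blocks
  obtain ⟨n, hn⟩ : ∃ n : ℕ, 4 * C8 / η < 2 ^ n := pow_unbounded_of_one_lt _ (by norm_num)
  have h2n : (0 : ℝ) < 2 ^ n := by positivity
  rw [div_lt_iff₀ hη] at hn
  obtain ⟨L0, hL0⟩ : ∃ L0 : ℝ, L0 = 2 * (n * Real.log 2) + 8 * A + 4 := ⟨_, rfl⟩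
  have hl2 : 0 < Real.log 2 := Real.log_pos (by norm_num)
  have hnl : 0 ≤ n * Real.log 2 := by positivity
  refine ⟨4 * (|Real.log (η / (4 * C))| + 1) / c, max (max T8 (4 * C8 / η)) (max (2 * 2 ^ n) (Real.exp L0)),
    by positivity, hT8.trans ((le_max_left _ _).trans (le_max_left _ _)), ?_⟩
  intro T τ hT hK hτA
  simp only [max_le_iff] at hT
  obtain ⟨⟨hTa, hTb⟩, hTc, hTd⟩ := hT
  have hT2 : 2 ≤ T := hT8.trans hTa
  have hT0 : 0 < T := by linarith
  have hL : L0 ≤ Real.log T := by rw [Real.le_log_iff_exp_le hT0]; exact hTd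
  have hL4 : 8 * A + 4 ≤ Real.log T := by linarith
  have hLp : 0 < Real.log T := by linarith
  have hτ0 : 0 < τ := by
    by_contra hcon
    push Not at hcon
    have h1 : τ * Real.log T ^ 2 ≤ 0 := mul_nonpos_of_nonpos_of_nonneg hcon (by positivity)
    have h2 : 0 < 4 * (|Real.log (η / (4 * C))| + 1) / c := by positivity
    linarith
  have hτ8 : τ ≤ 1 / 8 := by
    by_contra hcon
    push Not at hcon
    have h3 : 1 / 8 * (8 * A + 4) ≤ τ * Real.log T := mul_le_mul hcon.le hL4 (by positivity) hτ0.le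
    linarith
  have hf := hD.heatd τ hτ0.le
  have hst : ∀ s, FT τ s = 0 → |s.re| ≤ B := fun s hs => hD.strip τ s hτ0.le hs
  obtain ⟨V, hV⟩ : ∃ V : ℝ, V = T / 2 ^ n := ⟨_, rfl⟩
  have hV0 : 0 < V := by rw [hV]; positivity
  have hV2 : 2 ≤ V := by rw [hV, le_div_iff₀ h2n]; exact hTc
  have hVT : V ≤ T := by
    rw [hV]; exact div_le_self hT0.le (one_le_pow₀ (by norm_num))
  have hlogV : Real.log V = Real.log T - n * Real.log 2 := by
    rw [hV, Real.log_div hT0.ne' h2n.ne', Real.log_pow]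
  obtain ⟨P, hP⟩ : ∃ P : ℂ → Prop, P = fun z => ¬ regH FT ε τ z := ⟨_, rfl⟩
  -- low part
  have e1 := ZP_rem hf hst P hV0.le (M := C8 * Real.log T) (by positivity)
    (fun t h1 h2 => hnn T τ t hTa hτ0.le hτA h1 (by linarith))
  -- one block
  have hblock : ∀ U : ℝ, V ≤ U → 2 * U ≤ T →
      ((ZS (FT τ) (fun z => (U < z.im ∧ z.im ≤ 2 * U) ∧ P z)).ncard : ℝ) ≤ η / 4 * Real.log T * U := by
    intro U hU1 hU2
    have hU0 : 0 < U := by linarith
    have hlU : Real.log T - n * Real.log 2 ≤ Real.log U := by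
      rw [← hlogV]; exact Real.log_le_log hV0 hU1
    have hlUT : Real.log U ≤ Real.log T := Real.log_le_log hU0 (by linarith)
    have hlU2 : Real.log T / 2 ≤ Real.log U := by linarith
    have h1 := irr_blk hD hτ0.le (fun S hS => hirr U τ (by linarith) hτ0 hτ8 (by
      have := mul_le_mul_of_nonneg_left hlUT hτ0.le
      linarith) S hS)
    rw [hP]
    refine h1.trans ?_
    have h3 : c * τ * Real.log U ^ 2 ≥ |Real.log (η / (4 * C))| := by
      have h4 : (Real.log T / 2) ^ 2 ≤ Real.log U ^ 2 := pow_le_pow_left₀ (by positivity) hlU2 2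
      have h5 : c * τ * (Real.log T / 2) ^ 2 ≤ c * τ * Real.log U ^ 2 := mul_le_mul_of_nonneg_left h4 (by positivity)
      rw [div_le_iff₀ hc] at hK
      have h6 : c * τ * (Real.log T / 2) ^ 2 = τ * Real.log T ^ 2 * c / 4 := by ring
      linarith
    have h4 : C * Real.exp (-(c * τ * Real.log U ^ 2)) ≤ η / 4 := by
      have h5 : Real.exp (-(c * τ * Real.log U ^ 2)) ≤ η / (4 * C) := by
        rw [← Real.le_log_iff_exp_le (by positivity)]
        have := neg_abs_le (Real.log (η / (4 * C)))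
        linarith
      calc C * Real.exp (-(c * τ * Real.log U ^ 2)) ≤ C * (η / (4 * C)) := mul_le_mul_of_nonneg_left h5 hC.le
        _ = η / 4 := by field_simp
    have h5 : 0 ≤ Real.log U := by linarith
    calc C * U * Real.log U * Real.exp (-(c * τ * Real.log U ^ 2)) =
          C * Real.exp (-(c * τ * Real.log U ^ 2)) * (U * Real.log U) := by ring
      _ ≤ η / 4 * (U * Real.log U) := mul_le_mul_of_nonneg_right h4 (by positivity)
      _ ≤ η / 4 * (U * Real.log T) := by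
          apply mul_le_mul_of_nonneg_left _ (by positivity)
          exact mul_le_mul_of_nonneg_left hlUT hU0.le
      _ = η / 4 * Real.log T * U := by ring
  have e2 := dyadN (a := fun u v => ((ZS (FT τ) (fun z => (u < z.im ∧ z.im ≤ v) ∧ P z)).ncard : ℝ))
    (b := fun _ _ => (0 : ℝ)) (e := η / 4 * Real.log T) hT0 (fun x => by
      have h1 : ZS (FT τ) (fun z => (x < z.im ∧ z.im ≤ x) ∧ P z) = ∅ := by
        ext p
        simp only [Set.mem_empty_iff_false, iff_false]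
        rintro ⟨-, h3, -⟩
        linarith [h3.1, h3.2]
      show ((ZS (FT τ) (fun z => (x < z.im ∧ z.im ≤ x) ∧ P z)).ncard : ℝ) ≤ 0
      rw [h1, Set.ncard_empty, Nat.cast_zero])
    (fun x => le_rfl)
    (fun x y z _ _ => ZP_sl hf hst P x y z)
    (fun x y z _ _ => by norm_num) n (fun U hU1 hU2 => by
      rw [← hV] at hU1
      show ((ZS (FT τ) (fun z => (U < z.im ∧ z.im ≤ 2 * U) ∧ P z)).ncard : ℝ) ≤ 0 + η / 4 * Real.log T * U
      rw [zero_add]
      exact hblock U hU1 hU2)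
  rw [← hV] at e2
  have e3 := ZP_sl hf hst P 0 V T
  have e4 : η / 4 * Real.log T * T * (1 - 1 / 2 ^ n) ≤ η / 4 * Real.log T * T := by
    have h1 : (0 : ℝ) < 1 / 2 ^ n := by positivity
    have h2 : 0 ≤ η / 4 * Real.log T * T := by positivity
    have h3 : η / 4 * Real.log T * T * (1 - 1 / 2 ^ n) ≤ η / 4 * Real.log T * T * 1 :=
      mul_le_mul_of_nonneg_left (by linarith) h2
    linarith
  have e5 : (V + 1) * (C8 * Real.log T) ≤ η / 2 * (T * Real.log T) := by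
    have h1 : V * C8 ≤ η / 4 * T := by
      rw [hV, div_mul_eq_mul_div, div_le_iff₀ h2n]
      have h2 := mul_le_mul_of_nonneg_left hn.le (show 0 ≤ T / 4 by positivity)
      have e6 : T / 4 * (4 * C8) = T * C8 := by ring
      have e7 : T / 4 * (2 ^ n * η) = η / 4 * T * 2 ^ n := by ring
      rw [e6, e7] at h2
      exact h2
    have h3 : C8 ≤ η / 4 * T := by
      rw [div_le_iff₀ hη] at hTb
      linarith
    have h4 : (V + 1) * C8 ≤ η / 2 * T := by linarith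
    calc (V + 1) * (C8 * Real.log T) = (V + 1) * C8 * Real.log T := by ring
      _ ≤ η / 2 * T * Real.log T := mul_le_mul_of_nonneg_right h4 hLp.le
      _ = _ := by ring
  have e6 : 0 ≤ η * (T * Real.log T) := by positivity
  have e7 : ((ZS (FT τ) (fun z => (0 < z.im ∧ z.im ≤ T) ∧ ¬ regH FT ε τ z)).ncard : ℝ) =
      ((ZS (FT τ) (fun z => (0 < z.im ∧ z.im ≤ T) ∧ P z)).ncard : ℝ) := by rw [hP]
  rw [e7]
  linarith

lemma ord_one {f : ℂ → ℂ} (hf : Differentiable ℂ f) {s : ℂ} (hs : f s = 0) (hd : deriv f s ≠ 0) :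
    analyticOrderNatAt f s = 1 := by
  have h1 := (hf.analyticAt s).analyticOrderAt_deriv_add_one
  have h2 : analyticOrderAt (deriv f) s = 0 := ((hf.analyticAt s).deriv).analyticOrderAt_eq_zero.2 hd
  have h3 : (fun z => f z - f s) = f := by funext z; rw [hs, sub_zero]
  rw [h2, h3, zero_add] at h1
  unfold analyticOrderNatAt
  rw [← h1]
  rfl

lemma reg_gap {FT : ℝ → ℂ → ℂ} {ε τ L : ℝ} (hε : ε ≤ 1) {s : ℂ} (h : regH FT ε τ s) (hL : 0 < L)
    (hs : Real.log s.im ≤ L) : s.re = 0 ∧ deriv (FT τ) s ≠ 0 ∧ ∃ g : ℝ, 1 / L < g ∧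
      ∀ z : ℂ, FT τ z = 0 → s.im ≤ z.im → z.im < s.im + g → z = s := by
  obtain ⟨h1, h2, g, hg, hg1, -, -, hg3⟩ := h
  refine ⟨h1, h2, g, ?_, ?_⟩
  · have hpi := Real.pi_gt_three
    have h3 := (abs_le.1 hg1).1
    have h4 : 2 ≤ g * Om s.im := by linarith
    have h5 : g * Om s.im ≤ g * (L / 2) := by
      apply mul_le_mul_of_nonneg_left _ hg.le
      unfold Om
      linarith
    rw [div_lt_iff₀ hL]
    linarith
  · intro z hz hz1 hz2
    rcases hg3 z hz hz1 hz2.le with h3 | h3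
    · exact h3
    · exfalso
      rw [h3] at hz2
      have h4 : (s + g * I).im = s.im + g := by simp
      rw [h4] at hz2
      exact lt_irrefl _ hz2

theorem isoC {f : ℂ → ℂ} {FT : ℝ → ℂ → ℂ} {B ε τ T : ℝ} (hfe : FT τ = f) (hf : Differentiable ℂ f)
    (hs : ∀ s, f s = 0 → |s.re| ≤ B) (hε : ε ≤ 1) (hT : Real.exp 1 ≤ T) :
    ((ZS f (fun z => 0 < z.im ∧ z.im ≤ T)).ncard : ℝ) ≤ ((NI f T 1 1).ncard : ℝ) +
      2 * ((ZS f (fun z => (0 < z.im ∧ z.im ≤ T) ∧ ¬ regH FT ε τ z)).ncard : ℝ) + (nn f 0 1 : ℝ) := by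
  classical
  have hT0 : 0 < T := lt_of_lt_of_le (Real.exp_pos 1) hT
  have hL : 1 ≤ Real.log T := by rw [Real.le_log_iff_exp_le hT0]; exact hT
  have hL0 : 0 < Real.log T := by linarith
  have hiL : 1 / Real.log T ≤ 1 := by rw [div_le_one hL0]; exact hL
  have hT1 : 1 < T := by
    have := Real.add_one_le_exp (1 : ℝ)
    linarith
  obtain ⟨Ir, hIr⟩ : ∃ Ir : Set (ℂ × ℕ), Ir = ZS f (fun z => (0 < z.im ∧ z.im ≤ T) ∧ ¬ regH FT ε τ z) := ⟨_, rfl⟩
  obtain ⟨Lo, hLo⟩ : ∃ Lo : Set (ℂ × ℕ), Lo = ZS f (fun z => |z.im - 0| ≤ 1) := ⟨_, rfl⟩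
  obtain ⟨Al, hAl⟩ : ∃ Al : Set (ℂ × ℕ), Al = ZS f (fun z => 0 < z.im ∧ z.im ≤ T) := ⟨_, rfl⟩
  obtain ⟨Re, hRe⟩ : ∃ Re : Set (ℂ × ℕ), Re = Al \ (NI f T 1 1 ∪ Ir ∪ Lo) := ⟨_, rfl⟩
  have hAf : Al.Finite := by
    rw [hAl]
    exact (ZS_le hf hs (P := fun z => 0 < z.im ∧ z.im ≤ T) (Q := fun y => 0 < y ∧ y ≤ T) (u := 0) (v := T)
      (fun z hz => hz) (fun y hy => ⟨hy.1.le, hy.2⟩)).1
  have hIf : Ir.Finite := by rw [hIr]; exact ZP_f hf hs _ _ _
  obtain ⟨hLf, hLn⟩ := ZS_nn hf hs 0 1 (P := fun z => |z.im - 0| ≤ 1) (fun z hz => hz)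
  rw [← hLo] at hLf hLn
  have hNf : (NI f T 1 1).Finite := ZP_f hf hs _ _ _
  have hRf : Re.Finite := by rw [hRe]; exact hAf.subset diff_subset
  -- the partner
  have hw : ∀ p : ℂ × ℕ, ∃ w : ℂ, p ∈ Re → f w = 0 ∧ (0 < w.im ∧ w.im ≤ T) ∧ ¬ regH FT ε τ w ∧
      w.im < p.1.im ∧ p.1.im < w.im + 1 / Real.log T := by
    intro p
    by_cases hp : p ∈ Re
    · have hp' := hp
      rw [hRe] at hp'
      obtain ⟨h1, h2⟩ := hp'
      rw [hAl] at h1
      obtain ⟨h1a, h1b⟩ := h1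
      have hf0 : f p.1 = 0 := Zi_zero hf h1a
      have hreg : regH FT ε τ p.1 := by
        by_contra hcon
        apply h2
        left; right
        rw [hIr]
        exact ⟨h1a, h1b, hcon⟩
      have hlo : 1 < p.1.im := by
        by_contra hcon
        push Not at hcon
        apply h2
        right
        rw [hLo]
        refine ⟨h1a, ?_⟩
        show |p.1.im - 0| ≤ 1
        rw [sub_zero, abs_of_pos h1b.1]
        exact hcon
      obtain ⟨r1, r2, g, r3, r4⟩ := reg_gap hε hreg hL0 (Real.log_le_log h1b.1 h1b.2)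
      rw [hfe] at r2 r4
      have ho := ord_one hf hf0 r2
      have h3 : ∃ w : ℂ, f w = 0 ∧ w ≠ p.1 ∧ |w.im - p.1.im| * Real.log T < 1 := by
        by_contra hcon
        push Not at hcon
        apply h2
        left; left
        rw [NI_iff hT1]
        have h4 : p.2 < analyticOrderNatAt f p.1 := h1a
        rw [ho] at h4
        exact ⟨by omega, h1b, r1, ho, fun w hw1 hw2 => Or.inl (hcon w hw1 hw2)⟩
      obtain ⟨w, hw1, hw2, hw3⟩ := h3
      rw [← lt_div_iff₀ hL0] at hw3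
      have hw4 := abs_lt.1 hw3
      have hw5 : w.im < p.1.im := by
        by_contra hcon
        push Not at hcon
        exact hw2 (r4 w hw1 hcon (by linarith [hw4.2]))
      have hw6 : 0 < w.im := by linarith [hw4.1]
      have hw7 : w.im ≤ T := by linarith [h1b.2]
      refine ⟨w, fun _ => ⟨hw1, ⟨hw6, hw7⟩, ?_, hw5, by linarith [hw4.1]⟩⟩
      intro hreg2
      obtain ⟨-, -, g', r5, r6⟩ := reg_gap hε hreg2 hL0 (Real.log_le_log hw6 hw7)
      rw [hfe] at r6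
      exact hw2 (r6 p.1 hf0 hw5.le (by linarith [hw4.1])).symm
    · exact ⟨0, fun h => absurd h hp⟩
  choose w hw using hw
  have hmaps : ∀ p ∈ Re, ((w p, 0) : ℂ × ℕ) ∈ Ir := by
    intro p hp
    obtain ⟨h1, h2, h3, -⟩ := hw p hp
    rw [hIr]
    exact ⟨ord_pos hf hs h1, h2, h3⟩
  have hinj : Set.InjOn (fun p => ((w p, 0) : ℂ × ℕ)) Re := by
    have key : ∀ p ∈ Re, ∀ q ∈ Re, w p = w q → p.1.im ≤ q.1.im → p = q := by
      intro p hp q hq hpq hle
      obtain ⟨p1, p2, p3, p4, p5⟩ := hw p hp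
      obtain ⟨q1, q2, q3, q4, q5⟩ := hw q hq
      have hp' := hp
      have hq' := hq
      rw [hRe] at hp' hq'
      obtain ⟨h1, h2⟩ := hp'
      obtain ⟨h3, h4⟩ := hq'
      rw [hAl] at h1 h3
      have hregp : regH FT ε τ p.1 := by
        by_contra hcon
        apply h2
        left; right
        rw [hIr]
        exact ⟨h1.1, h1.2, hcon⟩
      obtain ⟨r1, r2, g, r3, r4⟩ := reg_gap hε hregp hL0 (Real.log_le_log h1.2.1 h1.2.2)
      rw [hfe] at r2 r4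
      have h5 : q.1 = p.1 := by
        refine r4 q.1 (Zi_zero hf h3.1) hle ?_
        rw [hpq] at p4
        linarith
      have h6 : p.2 < analyticOrderNatAt f p.1 := h1.1
      have h7 : q.2 < analyticOrderNatAt f q.1 := h3.1
      rw [h5] at h7
      rw [ord_one hf (Zi_zero hf h1.1) r2] at h6 h7
      exact Prod.ext h5.symm (by omega)
    intro p hp q hq hpq
    have h1 : w p = w q := congrArg Prod.fst hpq
    rcases le_total p.1.im q.1.im with h2 | h2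
    · exact key p hp q hq h1 h2
    · exact (key q hq p hp h1.symm h2).symm
  have hR : Re.ncard ≤ Ir.ncard := Set.ncard_le_ncard_of_injOn _ hmaps hinj hIf
  have hsub : Al ⊆ (NI f T 1 1 ∪ Ir ∪ Lo) ∪ Re := by
    intro p hp
    by_cases h : p ∈ NI f T 1 1 ∪ Ir ∪ Lo
    · exact Or.inl h
    · right; rw [hRe]; exact ⟨hp, h⟩
  have h1 := (Set.ncard_le_ncard hsub (((hNf.union hIf).union hLf).union hRf)).trans
    ((Set.ncard_union_le _ _).trans (Nat.add_le_add_right ((Set.ncard_union_le _ _).trans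
      (Nat.add_le_add_right (Set.ncard_union_le _ _) _)) _))
  have h2 : Al.ncard ≤ (NI f T 1 1).ncard + 2 * Ir.ncard + nn f 0 1 := by omega
  rw [← hAl, ← hIr]
  exact_mod_cast h2

end Pool.Agent.R838.IS
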