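import Pool.Agent.R838.IS.In4
import Pool.Agent.R838.IS.Is5

set_option autoImplicit false

/-!
# Close zeros: positive proportions, and large times
-/

namespace Pool.Agent.R838.IS

open Complex Filter Topology MeasureTheory Set
open Pool.Agent.H24R2.JP (XX HH Om)
open Pool.Agent.H986R2.DBN (XT Ht)
open Pool.Agent.R838.CR
open Pool.Agent.R838.ST

/-- A positive proportion of the zeros have neighbours at distance less than `L`. -/
def PP (L : ℝ) (J : ℝ → ℝ → ℝ) : Prop := ∃ lam c : ℝ, lam < L ∧ 0 < c ∧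
  ∀ᶠ T : ℝ in atTop, c * (T * Real.log T) ≤ J T lam

lemma pp_tr {L : ℝ} (hL : 0 < L) {J1 J2 : ℝ → ℝ → ℝ}
    (hJ : ∀ ε lam : ℝ, 0 < ε → 0 ≤ lam → lam ≤ L →
      ∀ᶠ T in atTop, J1 T lam ≤ J2 T (lam + ε) + ε * (T * Real.log T))
    (hm : ∀ lam lam' : ℝ, lam ≤ lam' → ∀ᶠ T in atTop, J1 T lam ≤ J1 T lam') (h : PP L J1) : PP L J2 := by
  obtain ⟨lam, c, h1, hc, h2⟩ := h
  obtain ⟨l1, hl1⟩ : ∃ l1 : ℝ, l1 = max lam 0 := ⟨_, rfl⟩
  have h3 : 0 ≤ l1 := by rw [hl1]; exact le_max_right _ _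
  have h4 : lam ≤ l1 := by rw [hl1]; exact le_max_left _ _
  have h5 : l1 < L := by rw [hl1]; exact max_lt h1 hL
  obtain ⟨ε, hε⟩ : ∃ ε : ℝ, ε = min ((L - l1) / 2) (c / 2) := ⟨_, rfl⟩
  have hε0 : 0 < ε := by rw [hε]; exact lt_min (by linarith) (by linarith)
  have hε1 : ε ≤ (L - l1) / 2 := by rw [hε]; exact min_le_left _ _
  have hε2 : ε ≤ c / 2 := by rw [hε]; exact min_le_right _ _
  refine ⟨l1 + ε, c / 2, by linarith, by positivity, ?_⟩
  filter_upwards [h2, hJ ε l1 hε0 h3 h5.le, hm lam l1 h4, eventually_ge_atTop (1 : ℝ)] with T a1 a2 a3 hT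
  have hW : 0 ≤ T * Real.log T := mul_nonneg (by linarith) (Real.log_nonneg hT)
  have := mul_le_mul_of_nonneg_right hε2 hW
  linarith

noncomputable def Cz (T lam : ℝ) : ℝ := ((closeZ T lam).ncard : ℝ)
noncomputable def Ch (t : ℝ → ℝ) (T lam : ℝ) : ℝ := ((closeH (Ht (t T)) T lam).ncard : ℝ)

lemma XT_pr {t : ℝ} (ht : 0 ≤ t) : Differentiable ℂ (XT (t / 4)) ∧ ∀ s, XT (t / 4) s = 0 → |s.re| ≤ 1 / 2 :=
  ⟨stb_xi.heatd _ (by linarith), fun s hs => stb_xi.strip _ s (by linarith) hs⟩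

lemma XX_pr : Differentiable ℂ XX ∧ ∀ s, XX s = 0 → |s.re| ≤ 1 / 2 := by
  have h := XT_pr (t := 0) le_rfl
  rw [show (0 : ℝ) / 4 = 0 by norm_num, stb_xi.zero] at h
  exact h

lemma closeZ_mono {T lam lam' : ℝ} (hT : 1 < T) (h : lam ≤ lam') : Cz T lam ≤ Cz T lam' := by
  unfold Cz
  rw [closeZ_card hT, closeZ_card hT]
  exact CD_mono XX_pr.1 XX_pr.2 hT (mul_le_mul_of_nonneg_left h (by positivity))

lemma closeH_mono {t : ℝ → ℝ} {T lam lam' : ℝ} (ht : 0 ≤ t T) (hT : 1 < T) (h : lam ≤ lam') :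
    Ch t T lam ≤ Ch t T lam' := by
  unfold Ch
  rw [closeH_card ht hT, closeH_card ht hT]
  exact CD_mono (XT_pr ht).1 (XT_pr ht).2 hT (mul_le_mul_of_nonneg_left h (by positivity))

lemma ev_le2 {t : ℝ → ℝ} (ht2 : Tendsto (fun T => t T * Real.log T ^ 2) atTop (𝓝 0)) {δ : ℝ} (hδ : 0 < δ) :
    ∀ᶠ T : ℝ in atTop, t T ≤ δ / Real.log T ^ 2 := by
  filter_upwards [ht2.eventually_lt_const hδ, eventually_gt_atTop (1 : ℝ)] with T h1 h2
  have hL : 0 < Real.log T := Real.log_pos h2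
  rw [le_div_iff₀ (by positivity)]
  exact h1.le

theorem pp_equiv {t : ℝ → ℝ} (ht : ∀ T, 0 ≤ t T)
    (ht2 : Tendsto (fun T => t T * Real.log T ^ 2) atTop (𝓝 0)) {L : ℝ} (hL : 0 < L) : PP L Cz ↔ PP L (Ch t) := by
  constructor
  · refine pp_tr hL (fun ε lam hε hl hlL => ?_) (fun lam lam' h => ?_)
    · obtain ⟨δ, T0, hδ, hT0, h⟩ := cmpD L hL.le ε hε
      filter_upwards [eventually_ge_atTop T0, ev_le2 ht2 hδ] with T h1 h2
      exact (h T (t T) lam h1 (ht T) h2 hl hlL).1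
    · filter_upwards [eventually_gt_atTop (1 : ℝ)] with T hT
      exact closeZ_mono hT h
  · refine pp_tr hL (fun ε lam hε hl hlL => ?_) (fun lam lam' h => ?_)
    · obtain ⟨δ, T0, hδ, hT0, h⟩ := cmpD L hL.le ε hε
      filter_upwards [eventually_ge_atTop T0, ev_le2 ht2 hδ] with T h1 h2
      exact (h T (t T) lam h1 (ht T) h2 hl hlL).2
    · filter_upwards [eventually_gt_atTop (1 : ℝ)] with T hT
      exact closeH_mono (ht T) hT h

lemma reg_gap2 {FT : ℝ → ℂ → ℂ} {ε τ L x : ℝ} {s : ℂ} (h : regH FT ε τ s) (hL : 0 < L)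
    (hs : Real.log s.im ≤ L) (hx : x * L < 2 * (Real.pi - ε)) : s.re = 0 ∧ deriv (FT τ) s ≠ 0 ∧ ∃ g : ℝ, x < g ∧
      ∀ z : ℂ, FT τ z = 0 → s.im ≤ z.im → z.im < s.im + g → z = s := by
  obtain ⟨h1, h2, g, hg, hg1, -, -, hg3⟩ := h
  refine ⟨h1, h2, g, ?_, ?_⟩
  · have h3 := (abs_le.1 hg1).1
    have h4 : Real.pi - ε ≤ g * Om s.im := by linarith
    have h5 : g * Om s.im ≤ g * (L / 2) := by
      apply mul_le_mul_of_nonneg_left _ hg.le
      unfold Om
      linarith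
    have h6 : x * L < g * L := by linarith
    exact lt_of_mul_lt_mul_right h6 hL.le
  · intro z hz hz1 hz2
    rcases hg3 z hz hz1 hz2.le with h3 | h3
    · exact h3
    · exfalso
      rw [h3] at hz2
      have h4 : (s + g * I).im = s.im + g := by simp
      rw [h4] at hz2
      exact lt_irrefl _ hz2

/-- Zeros with close neighbours are next to irregular zeros. -/
theorem closeC {f : ℂ → ℂ} {FT : ℝ → ℂ → ℂ} {B ε τ T x L : ℝ} (hfe : FT τ = f) (hf : Differentiable ℂ f)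
    (hs : ∀ s, f s = 0 → |s.re| ≤ B) (hT : 0 < T) (hL : 0 < L) (hLT : Real.log (3 * T) ≤ L)
    (hx : x * L < 2 * (Real.pi - ε)) :
    ((ZS f (fun z => (T < z.im ∧ z.im ≤ 2 * T) ∧ NP f x z)).ncard : ℝ) ≤
      2 * ((ZS f (fun z => (0 < z.im ∧ z.im ≤ 3 * T) ∧ ¬ regH FT ε τ z)).ncard : ℝ) := by
  classical
  obtain ⟨Ir, hIr⟩ : ∃ Ir : Set (ℂ × ℕ), Ir = ZS f (fun z => (0 < z.im ∧ z.im ≤ 3 * T) ∧ ¬ regH FT ε τ z) :=
    ⟨_, rfl⟩
  obtain ⟨Al, hAl⟩ : ∃ Al : Set (ℂ × ℕ), Al = ZS f (fun z => (T < z.im ∧ z.im ≤ 2 * T) ∧ NP f x z) := ⟨_, rfl⟩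
  obtain ⟨Re, hRe⟩ : ∃ Re : Set (ℂ × ℕ), Re = Al \ Ir := ⟨_, rfl⟩
  have hAf : Al.Finite := by rw [hAl]; exact ZP_f hf hs _ _ _
  have hIf : Ir.Finite := by rw [hIr]; exact ZP_f hf hs _ _ _
  have hRf : Re.Finite := by rw [hRe]; exact hAf.subset diff_subset
  have hReg : ∀ p ∈ Re, (T < p.1.im ∧ p.1.im ≤ 2 * T) ∧ f p.1 = 0 ∧ NP f x p.1 ∧ regH FT ε τ p.1 ∧
      p.2 < analyticOrderNatAt f p.1 := by
    intro p hp
    rw [hRe] at hp
    obtain ⟨h1, h2⟩ := hp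
    rw [hAl] at h1
    obtain ⟨h3, h4, h5⟩ := h1
    have h4' : T < p.1.im ∧ p.1.im ≤ 2 * T := h4
    refine ⟨h4', Zi_zero hf h3, h5, ?_, h3⟩
    by_contra hcon
    apply h2
    rw [hIr]
    exact ⟨h3, ⟨by linarith [h4'.1], by linarith [h4'.2]⟩, hcon⟩
  -- the partner
  have hw : ∀ p : ℂ × ℕ, ∃ w : ℂ, p ∈ Re → f w = 0 ∧ (0 < w.im ∧ w.im ≤ 3 * T) ∧ ¬ regH FT ε τ w ∧
      w.im < p.1.im ∧ p.1.im ≤ w.im + x := by
    intro p
    by_cases hp : p ∈ Re
    · obtain ⟨h1, hf0, h2, hreg, -⟩ := hReg p hp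
      have hp0 : 0 < p.1.im := by linarith [h1.1]
      obtain ⟨r1, r2, g, r3, r4⟩ := reg_gap2 hreg hL
        ((Real.log_le_log hp0 (by linarith [h1.2])).trans hLT) hx
      rw [hfe] at r2 r4
      have ho := ord_one hf hf0 r2
      rcases h2 with h2 | ⟨w, hw1, hw2, hw3, hw4⟩
      · omega
      have hw5 := abs_le.1 hw4
      have hw6 : w.im < p.1.im := by
        by_contra hcon
        push Not at hcon
        exact hw1 (r4 w hw2 hcon (by linarith [hw5.2]))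
      have hw7 : w.im ≤ 3 * T := by linarith [h1.2]
      refine ⟨w, fun _ => ⟨hw2, ⟨hw3, hw7⟩, ?_, hw6, by linarith [hw5.1]⟩⟩
      intro hreg2
      obtain ⟨-, -, g', r5, r6⟩ := reg_gap2 hreg2 hL
        ((Real.log_le_log hw3 hw7).trans hLT) hx
      rw [hfe] at r6
      exact hw1 (r6 p.1 hf0 hw6.le (by linarith [hw5.1])).symm
    · exact ⟨0, fun h => absurd h hp⟩
  choose w hw using hw
  have hmaps : ∀ p ∈ Re, ((w p, 0) : ℂ × ℕ) ∈ Ir := by
    intro p hp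
    obtain ⟨h1, h2, h3, -⟩ := hw p hp
    rw [hIr]
    exact ⟨ord_pos hf hs h1, h2, h3⟩
  have hinj : Set.InjOn (fun p => ((w p, 0) : ℂ × ℕ)) Re := by
    have key : ∀ p ∈ Re, ∀ q ∈ Re, w p = w q → p.1.im ≤ q.1.im → p = q := by
      intro p hp q hq hpq hle
      obtain ⟨p1, p2, p3, p4, p5⟩ := hw p hp
      obtain ⟨q1, q2, q3, q4, q5⟩ := hw q hq
      obtain ⟨a1, a2, a3, a4, a5⟩ := hReg p hp
      obtain ⟨b1, b2, b3, b4, b5⟩ := hReg q hq
      have hp0 : 0 < p.1.im := by linarith [a1.1]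
      obtain ⟨r1, r2, g, r3, r4⟩ := reg_gap2 a4 hL
        ((Real.log_le_log hp0 (by linarith [a1.2])).trans hLT) hx
      rw [hfe] at r2 r4
      have h5 : q.1 = p.1 := by
        refine r4 q.1 b2 hle ?_
        rw [hpq] at p4
        linarith
      rw [h5] at b5
      rw [ord_one hf a2 r2] at a5 b5
      exact Prod.ext h5.symm (by omega)
    intro p hp q hq hpq
    have h1 : w p = w q := congrArg Prod.fst hpq
    rcases le_total p.1.im q.1.im with h2 | h2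
    · exact key p hp q hq h1 h2
    · exact (key q hq p hp h1.symm h2).symm
  have hR : Re.ncard ≤ Ir.ncard := Set.ncard_le_ncard_of_injOn _ hmaps hinj hIf
  have hsub : Al ⊆ Ir ∪ Re := by
    intro p hp
    by_cases h : p ∈ Ir
    · exact Or.inl h
    · right; rw [hRe]; exact ⟨hp, h⟩
  have h1 := (Set.ncard_le_ncard hsub (hIf.union hRf)).trans (Set.ncard_union_le _ _)
  rw [← hAl, ← hIr]
  have h2 : Al.ncard ≤ 2 * Ir.ncard := by omega
  exact_mod_cast h2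

theorem close_large {t : ℝ → ℝ} {A : ℝ} (hA : ∀ᶠ T : ℝ in atTop, t T * Real.log T ≤ A)
    (ht : Tendsto (fun T => t T * Real.log T ^ 2) atTop atTop) {lam : ℝ} (hlam : lam < 1) {η : ℝ} (hη : 0 < η) :
    ∀ᶠ T : ℝ in atTop, Ch t T lam ≤ η * (T * Real.log T) := by
  obtain ⟨l1, hl1⟩ : ∃ l1 : ℝ, l1 = max lam 0 := ⟨_, rfl⟩
  have g3 : 0 ≤ l1 := by rw [hl1]; exact le_max_right _ _
  have g4 : lam ≤ l1 := by rw [hl1]; exact le_max_left _ _
  have g5 : l1 < 1 := by rw [hl1]; exact max_lt hlam one_pos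
  have hpi := Real.pi_gt_three
  obtain ⟨ε, hε⟩ : ∃ ε : ℝ, ε = Real.pi * (1 - l1) / 2 := ⟨_, rfl⟩
  have hε0 : 0 < ε := by
    rw [hε]
    have : 0 < 1 - l1 := by linarith
    positivity
  obtain ⟨K, T0, hK, hT0, h⟩ := irrB stb_xi unit0_xi ε (η / 16) (2 * (|A| + 1)) hε0 (by positivity) (by positivity)
  filter_upwards [hA, ht.eventually_ge_atTop (4 * K), eventually_ge_atTop T0,
    eventually_ge_atTop (3 : ℝ), eventually_ge_atTop (Real.exp (8 / (1 - l1)))] with T h1 h2 h3 h4 h5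
  have hT0' : 0 < T := by linarith
  have h1l : 0 < 1 - l1 := by linarith
  have hL8 : 8 / (1 - l1) ≤ Real.log T := by rw [Real.le_log_iff_exp_le hT0']; exact h5
  rw [div_le_iff₀ h1l] at hL8
  have hL : 0 < Real.log T := Real.log_pos (by linarith)
  have ht0 : 0 ≤ t T := by
    by_contra hcon
    push Not at hcon
    have h7 : t T * Real.log T ^ 2 ≤ 0 := mul_nonpos_of_nonpos_of_nonneg hcon.le (by positivity)
    linarith
  have hAA := le_abs_self A
  have hlog3 : Real.log (3 * T) ≤ 2 * Real.log T := by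
    rw [Real.log_mul (by norm_num) hT0'.ne']
    have := Real.log_le_log (by norm_num : (0 : ℝ) < 3) h4
    linarith
  have hlog3' : Real.log T ≤ Real.log (3 * T) := Real.log_le_log hT0' (by linarith)
  have hlog3'' : Real.log (3 * T) ≤ Real.log T + 2 := by
    rw [Real.log_mul (by norm_num) hT0'.ne']
    have : Real.log 3 ≤ 2 := by
      have := Real.log_le_sub_one_of_pos (by norm_num : (0 : ℝ) < 3)
      linarith
    linarith
  have hb1 : t T / 4 * Real.log (3 * T) ≤ 2 * (|A| + 1) := by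
    have h6 : t T / 4 * Real.log (3 * T) ≤ t T / 4 * (2 * Real.log T) :=
      mul_le_mul_of_nonneg_left hlog3 (by linarith)
    have h7 : 0 ≤ t T * Real.log T := by positivity
    have e : t T / 4 * (2 * Real.log T) = t T * Real.log T / 2 := by ring
    rw [e] at h6
    linarith
  have hb2 : K ≤ t T / 4 * Real.log (3 * T) ^ 2 := by
    have h6 : t T / 4 * Real.log T ^ 2 ≤ t T / 4 * Real.log (3 * T) ^ 2 :=
      mul_le_mul_of_nonneg_left (pow_le_pow_left₀ hL.le hlog3' 2) (by linarith)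
    have e : t T / 4 * Real.log T ^ 2 = t T * Real.log T ^ 2 / 4 := by ring
    rw [e] at h6; linarith
  have h7 := h (3 * T) (t T / 4) (by linarith) hb2 hb1
  have hx : 2 * Real.pi * l1 / Real.log T * Real.log (3 * T) < 2 * (Real.pi - ε) := by
    rw [div_mul_eq_mul_div, div_lt_iff₀ hL, hε]
    have h8 : 2 * Real.pi * l1 * Real.log (3 * T) ≤ 2 * Real.pi * l1 * (Real.log T + 2) :=
      mul_le_mul_of_nonneg_left hlog3'' (by positivity)
    have h9 : 2 * (Real.pi - Real.pi * (1 - l1) / 2) * Real.log T =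
        2 * Real.pi * l1 * Real.log T + Real.pi * ((1 - l1) * Real.log T) := by ring
    rw [h9]
    have h10 : 2 * Real.pi * l1 * (Real.log T + 2) = 2 * Real.pi * l1 * Real.log T + Real.pi * (4 * l1) := by ring
    rw [h10] at h8
    have h11 : Real.pi * (4 * l1) < Real.pi * ((1 - l1) * Real.log T) := by
      apply mul_lt_mul_of_pos_left _ Real.pi_pos
      linarith
    linarith
  have h9 := closeC (f := XT (t T / 4)) (FT := XT) (B := 1 / 2) (ε := ε) (τ := t T / 4) (T := T)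
    (L := Real.log (3 * T)) rfl (XT_pr ht0).1 (XT_pr ht0).2 hT0' (by linarith) le_rfl hx
  have h10 : Ch t T l1 = ((ZS (XT (t T / 4)) (fun z => (T < z.im ∧ z.im ≤ 2 * T) ∧
      NP (XT (t T / 4)) (2 * Real.pi * l1 / Real.log T) z)).ncard : ℝ) := by
    unfold Ch
    rw [closeH_card ht0 (by linarith)]
    rfl
  have h11 := closeH_mono (t := t) ht0 (by linarith : 1 < T) g4
  rw [h10] at h11
  have h12 : η / 16 * (3 * T * Real.log (3 * T)) ≤ η / 16 * (6 * (T * Real.log T)) := by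
    apply mul_le_mul_of_nonneg_left _ (by positivity)
    have := mul_le_mul_of_nonneg_left hlog3 (by positivity : 0 ≤ 3 * T)
    linarith
  have h13 : 0 ≤ η * (T * Real.log T) := by positivity
  linarith

end Pool.Agent.R838.IS
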