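import Pool.Agent.R838.IS.Is5
import Pool.Agent.H344R2.Scale

set_option autoImplicit false

/-!
# Proportion of isolated zeros, essential simplicity
-/

namespace Pool.Agent.R838.IS

open Complex Filter Topology MeasureTheory Set
open Pool.Agent.H24R2.JP (XX HH Om)
open Pool.Agent.H986R2.DBN (XT Ht)
open Pool.Agent.R838.CR
open Pool.Agent.R838.ST

/-- zeros of zeta with ordinate in `(0, T]`, with multiplicity -/
def zetaA (T : ℝ) : Set (ℂ × ℕ) := {p | p ∈ ZetaZ ∧ (0 < p.1.im ∧ p.1.im ≤ T)}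

/-- zeros of `H` with `Re z / 2` in `(0, T]`, with multiplicity -/
def heatA (H : ℂ → ℂ) (T : ℝ) : Set (ℂ × ℕ) := {p | p ∈ Zi H ∧ (0 < p.1.re / 2 ∧ p.1.re / 2 ≤ T)}

lemma farZ_zero {T σ : ℝ} (hT : 1 ≤ T) (hσ : σ ≤ 0) : farZ T σ = zetaA T := by
  have hL : 0 ≤ Real.log T := Real.log_nonneg hT
  ext p
  constructor
  · rintro ⟨h1, h2, h3⟩
    exact ⟨h1, h2⟩
  · rintro ⟨h1, h2⟩
    exact ⟨h1, h2, hσ.trans (by positivity)⟩

lemma farH_zero {H : ℂ → ℂ} {T σ : ℝ} (hT : 1 ≤ T) (hσ : σ ≤ 0) : farH H T σ = heatA H T := by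
  have hL : 0 ≤ Real.log T := Real.log_nonneg hT
  ext p
  constructor
  · rintro ⟨h1, h2, h3⟩
    exact ⟨h1, h2⟩
  · rintro ⟨h1, h2⟩
    exact ⟨h1, h2, hσ.trans (by positivity)⟩

theorem cmpA (ε : ℝ) (hε : 0 < ε) : ∃ δ T0 : ℝ, 0 < δ ∧ 2 ≤ T0 ∧
    ∀ T t : ℝ, T0 ≤ T → 0 ≤ t → t ≤ δ / Real.log T ^ 2 →
    ((zetaA T).ncard : ℝ) ≤ ((heatA (Ht t) T).ncard : ℝ) + ε * (T * Real.log T) ∧
    ((heatA (Ht t) T).ncard : ℝ) ≤ ((zetaA T).ncard : ℝ) + ε * (T * Real.log T) := by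
  obtain ⟨δ, T0, hδ, hT0, h⟩ := cmpZ ε hε
  refine ⟨δ, T0, hδ, hT0, fun T t hT ht ht2 => ?_⟩
  obtain ⟨h1, h2⟩ := h T t hT ht ht2 0
  have hT1 : 1 ≤ T := by linarith
  rw [farZ_zero hT1 le_rfl, farH_zero hT1 (by linarith)] at h1
  rw [farH_zero hT1 le_rfl, farZ_zero hT1 (by linarith)] at h2
  exact ⟨h1, h2⟩

lemma zetaA_NN (T : ℝ) : (zetaA T).Finite ∧ (zetaA T).ncard = H370.NN riemannZeta 0 T := by
  classical
  have hfin := H370.zeta_zeros_finite T
  have e : zetaA T = {p : ℂ × ℕ | p ∈ Zi riemannZeta ∧ p.1 ∈ hfin.toFinset} := by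
    ext p
    constructor
    · rintro ⟨⟨h1, h2, h3⟩, h4, h5⟩
      refine ⟨h3, ?_⟩
      rw [Set.Finite.mem_toFinset]
      refine ⟨h1, h2, h4, h5, ?_⟩
      have hne : p.1 ≠ 1 := by
        intro h
        rw [h] at h2
        norm_num at h2
      by_contra hcon
      have h6 : AnalyticAt ℂ riemannZeta p.1 := by
        refine DifferentiableOn.analyticAt (s := {(1 : ℂ)}ᶜ) ?_ (isOpen_compl_singleton.mem_nhds hne)
        intro w hw
        exact (differentiableAt_riemannZeta hw).differentiableWithinAt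
      have h7 := h6.analyticOrderAt_eq_zero.2 hcon
      have h8 : analyticOrderNatAt riemannZeta p.1 = 0 := by
        unfold analyticOrderNatAt
        rw [h7]; rfl
      omega
    · rintro ⟨h1, h2⟩
      rw [Set.Finite.mem_toFinset] at h2
      obtain ⟨h3, h4, h5, h6, h7⟩ := h2
      exact ⟨⟨h3, h4, h1⟩, h5, h6⟩
  obtain ⟨h1, h2⟩ := zi_card riemannZeta hfin.toFinset
  rw [e]
  refine ⟨h1, ?_⟩
  rw [h2]
  unfold H370.NN H370.mult
  rw [finsum_mem_eq_finite_toFinset_sum _ hfin]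

theorem N_low : ∃ T0 : ℝ, 2 ≤ T0 ∧ ∀ T : ℝ, T0 ≤ T → T * Real.log T / 16 ≤ ((zetaA T).ncard : ℝ) := by
  obtain ⟨C, T1, hC, hT1, h⟩ := H370.nn_asymp H370.good_zeta
  refine ⟨max (2 * T1) (Real.exp (1000 * (C + 1))), by
    have := le_max_left (2 * T1) (Real.exp (1000 * (C + 1)))
    linarith, fun T hT => ?_⟩
  have hTa : 2 * T1 ≤ T := (le_max_left _ _).trans hT
  have hTb : Real.exp (1000 * (C + 1)) ≤ T := (le_max_right _ _).trans hT
  have hT0 : 0 < T := by linarith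
  have hL : 1000 * (C + 1) ≤ Real.log T := by rw [Real.le_log_iff_exp_le hT0]; exact hTb
  have h1 := h (T / 2) (by linarith) (T / 2) T le_rfl (by linarith) (by linarith) (by linarith)
  have h2 := (abs_le.1 h1).1
  have h3 : H370.NN riemannZeta (T / 2) T ≤ H370.NN riemannZeta 0 T := by
    unfold H370.NN
    have hf0 := H370.zeta_zeros_finite T
    have hsub : H370.zset riemannZeta (T / 2) T ⊆ H370.zset riemannZeta 0 T := by
      rintro s ⟨a1, a2, a3, a4, a5⟩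
      exact ⟨a1, a2, by linarith, a4, a5⟩
    rw [finsum_mem_eq_finite_toFinset_sum _ hf0, finsum_mem_eq_finite_toFinset_sum _ (hf0.subset hsub)]
    apply Finset.sum_le_sum_of_subset
    intro s hs
    rw [Set.Finite.mem_toFinset] at hs ⊢
    exact hsub hs
  have h4 : (H370.NN riemannZeta (T / 2) T : ℝ) ≤ (H370.NN riemannZeta 0 T : ℝ) := by exact_mod_cast h3
  rw [(zetaA_NN T).2]
  have h5 : Real.log (T / 2) = Real.log T - Real.log 2 := Real.log_div hT0.ne' (by norm_num)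
  have h6 : Real.log 2 ≤ 1 := by
    have := Real.log_two_lt_d9
    linarith
  have hpi := Real.pi_lt_d2
  have hpi0 := Real.pi_pos
  have h7 : T / 2 * Real.log (T / 2) / (2 * Real.pi) ≥ T / 2 * (Real.log T - 1) / 6.3 := by
    rw [ge_iff_le, h5]
    apply div_le_div₀
    · have : 0 ≤ Real.log T - Real.log 2 := by linarith
      positivity
    · apply mul_le_mul_of_nonneg_left _ (by linarith)
      linarith
    · positivity
    · linarith
  have h8 : T * (1000 * (C + 1)) ≤ T * Real.log T := mul_le_mul_of_nonneg_left hL hT0.le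
  have h9 : 0 < T * C := by positivity
  have h10 : T / 2 * (Real.log T - 1) / 6.3 = T * Real.log T / 12.6 - T / 12.6 := by ring
  rw [h10] at h7
  have e1 : T * (1000 * (C + 1)) = 1000 * (T * C) + 1000 * T := by ring
  rw [e1] at h8
  have e2 : C * (T / 2) = T * C / 2 := by ring
  rw [e2] at h2
  generalize T / 2 * Real.log (T / 2) / (2 * Real.pi) = A at h2 h7
  generalize T * Real.log T = X at h7 h8 ⊢
  generalize T * C = D at h2 h8 h9
  generalize (H370.NN riemannZeta (T / 2) T : ℝ) = N1 at h2 h4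
  generalize (H370.NN riemannZeta 0 T : ℝ) = N2 at h4 ⊢
  clear h10 h1 h3 hL hT hTa hTb h hT1 hC e1 e2 h5 h6 hpi hpi0
  norm_num at h7
  linarith

theorem prop_zeta : ∃ κ : ℝ, 0 < κ ∧ κ ≤ 1 / 100 ∧ ∀ r : ℝ, 0 ≤ r → r ≤ 1 / 3 → ∃ (C0 T0 : ℝ), ∀ T : ℝ, T0 ≤ T →
    (1 - (H370.cMTinv - 1 - κ) / H344.KK r ^ 2) * ((zetaA T).ncard : ℝ) ≤
      ((zetaI T (2 * Real.pi * r) (4 * Real.pi / 5)).ncard : ℝ) + C0 := by
  obtain ⟨κ, hκ0, -, H⟩ := H370.yhyp_triples
  have hk0 : 0 < min (1 / 100) (κ / 2) := by positivity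
  have hk1 : min (1 / 100) (κ / 2) ≤ 1 / 100 := min_le_left _ _
  have hk2 : 2 * min (1 / 100) (κ / 2) ≤ κ := by
    have := min_le_right (1 / 100) (κ / 2)
    linarith
  refine ⟨min (1 / 100) (κ / 2) / 2, by positivity, by linarith, fun r hr0 hr => ?_⟩
  obtain ⟨X0, hX0⟩ := H344.box_zero H370.good_zeta H370.zeta_zeros_finite hk0 hk1 hk2 H hr0 hr
  refine ⟨((H370.zset riemannZeta 0 3).ncard : ℝ), max X0 3, fun T hT => ?_⟩
  have hTa : X0 ≤ T := (le_max_left _ _).trans hT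
  have hTb : 3 ≤ T := (le_max_right _ _).trans hT
  rw [(zetaA_NN T).2]
  refine (hX0 T hTa).trans ?_
  have hL : 0 < Real.log T := Real.log_pos (by linarith)
  have hsub : {s : ℂ | s ∈ H370.zset riemannZeta 0 T ∧ H344.Qbox riemannZeta r s} ⊆
      zetaI T (2 * Real.pi * r) (4 * Real.pi / 5) ∪ H370.zset riemannZeta 0 3 := by
    rintro s ⟨⟨a1, a2, a3, a4, a5⟩, b1, b2, b3⟩
    rcases le_or_gt s.im 3 with h3 | h3
    · right
      exact ⟨a1, a2, a3, h3, a5⟩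
    · left
      refine ⟨b1, ⟨a3, a4⟩, b2, fun w hw hw1 hw2 hws => ?_⟩
      have hl : 0 < Real.log s.im := Real.log_pos (by linarith)
      have hlT : Real.log s.im ≤ Real.log T := Real.log_le_log a3 a4
      rcases le_or_gt |w.im - s.im| (2 * Real.pi * r / Real.log s.im) with h4 | h4
      · right
        have h5 := b3 w hw hw1 hw2 hws h4
        rw [div_lt_iff₀ hl] at h5
        exact h5.le.trans (mul_le_mul_of_nonneg_left hlT (abs_nonneg _))
      · left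
        rw [div_lt_iff₀ hl] at h4
        exact h4.le.trans (mul_le_mul_of_nonneg_left hlT (abs_nonneg _))
  have hfI : (zetaI T (2 * Real.pi * r) (4 * Real.pi / 5)).Finite := by
    refine (H370.zeta_zeros_finite T).subset ?_
    rintro s ⟨h1, h2, h3, -⟩
    refine ⟨by rw [h1]; norm_num, by rw [h1]; norm_num, h2.1, h2.2, ?_⟩
    have hne : s ≠ 1 := by
      intro h
      rw [h] at h1
      norm_num at h1
    by_contra hcon
    have h6 : AnalyticAt ℂ riemannZeta s := by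
      refine DifferentiableOn.analyticAt (s := {(1 : ℂ)}ᶜ) ?_ (isOpen_compl_singleton.mem_nhds hne)
      intro w hw
      exact (differentiableAt_riemannZeta hw).differentiableWithinAt
    have h7 := h6.analyticOrderAt_eq_zero.2 hcon
    have h8 : analyticOrderNatAt riemannZeta s = 0 := by
      unfold analyticOrderNatAt
      rw [h7]; rfl
    omega
  have h1 := (Set.ncard_le_ncard hsub (hfI.union (H370.zeta_zeros_finite 3))).trans (Set.ncard_union_le _ _)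
  unfold H344.PQ
  exact_mod_cast h1

/-- Almost all zeros are simple, on the line, and isolated at the scale of the mean spacing. -/
def ESS (Z : ℝ → ℝ) (J : ℝ → ℝ → ℝ) : Prop := ∀ η : ℝ, 0 < η → ∃ σ : ℝ, 0 < σ ∧
  ∀ᶠ T : ℝ in atTop, Z T ≤ J T σ + η * (T * Real.log T)

lemma ess_tr {Z1 Z2 : ℝ → ℝ} {J1 J2 : ℝ → ℝ → ℝ} (hZ : ∀ ε : ℝ, 0 < ε → ∀ᶠ T in atTop, Z2 T ≤ Z1 T + ε * (T * Real.log T))
    (hJ : ∀ ε σ : ℝ, 0 < ε → ε ≤ σ → σ ≤ 1 → ∀ᶠ T in atTop, J1 T σ ≤ J2 T (σ - ε) + ε * (T * Real.log T))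
    (hm : ∀ σ σ' : ℝ, σ' ≤ σ → ∀ᶠ T in atTop, J1 T σ ≤ J1 T σ') (h : ESS Z1 J1) : ESS Z2 J2 := by
  intro η hη
  obtain ⟨σ, hσ, h1⟩ := h (η / 4) (by positivity)
  obtain ⟨σ1, hσ1⟩ : ∃ σ1 : ℝ, σ1 = min σ 1 := ⟨_, rfl⟩
  have hσ10 : 0 < σ1 := by rw [hσ1]; exact lt_min hσ one_pos
  have hσ11 : σ1 ≤ 1 := by rw [hσ1]; exact min_le_right _ _
  have hσ1σ : σ1 ≤ σ := by rw [hσ1]; exact min_le_left _ _
  obtain ⟨ε, hε⟩ : ∃ ε : ℝ, ε = min (σ1 / 2) (η / 4) := ⟨_, rfl⟩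
  have hε0 : 0 < ε := by rw [hε]; positivity
  have hε1 : ε ≤ σ1 / 2 := by rw [hε]; exact min_le_left _ _
  have hε2 : ε ≤ η / 4 := by rw [hε]; exact min_le_right _ _
  refine ⟨σ1 - ε, by linarith, ?_⟩
  filter_upwards [h1, hZ (η / 4) (by positivity), hJ ε σ1 hε0 (by linarith) hσ11, hm σ σ1 hσ1σ,
    eventually_ge_atTop (1 : ℝ)] with T a1 a2 a3 a4 hT
  have hW : 0 ≤ T * Real.log T := mul_nonneg (by linarith) (Real.log_nonneg hT)
  have := mul_le_mul_of_nonneg_right hε2 hW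
  have hηW : 0 ≤ η * (T * Real.log T) := mul_nonneg hη.le hW
  linarith

end Pool.Agent.R838.IS
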