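import Pool.Agent.R838.IS.In5
import Pool.Agent.R838.IS.Is6
import Pool.Agent.R838.ST.Ful
import Pool.Agent.H382R2.Final0

set_option autoImplicit false

/-!
# Close zeros and consecutive ordinates
-/

namespace Pool.Agent.R838.IS

open Complex Filter Topology MeasureTheory Set
open Pool.Agent.H24R2.JP (XX HH Om)
open Pool.Agent.H986R2.DBN (XT Ht)
open Pool.Agent.R838.CR
open Pool.Agent.R838.ST

/-- two zeros at distance at most `x` give consecutive ordinates at distance at most `x` -/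
theorem cons_of_close {s : ℂ} {x : ℝ} (h1 : riemannZeta s = 0) (h2 : 0 < s.re) (h3 : s.re < 1) (h4 : 0 < s.im)
    (hx : 0 ≤ x) (h : 1 < analyticOrderNatAt riemannZeta s ∨
      ∃ w : ℂ, w ≠ s ∧ riemannZeta w = 0 ∧ 0 < w.re ∧ w.re < 1 ∧ 0 < w.im ∧ |w.im - s.im| ≤ x) :
    ∃ n : ℕ, 1 ≤ n ∧ s.im - x ≤ SG.ord n ∧ SG.ord (n + 1) ≤ s.im + x ∧ SG.ord (n + 1) - SG.ord n ≤ x := by
  rcases h with h | ⟨w, g1, g2, g3, g4, g5, g6⟩
  · obtain ⟨n, hn, a1, a2⟩ := SG.consecutive_of_jump h4 (fun t ht => by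
      have j := SG.jump_one h1 h2 h3 h4 t ht
      have h' : 1 < SG.zmult s := h
      omega)
    exact ⟨n, hn, by linarith, by linarith, by linarith⟩
  · have g7 := abs_le.1 g6
    rcases lt_trichotomy w.im s.im with h5 | h5 | h5
    · obtain ⟨n, hn, a1, a2⟩ := SG.consecutive_of_lt g2 g3 g4 g5 h1 h2 h3 h5
      exact ⟨n, hn, by linarith [g7.1], by linarith, by linarith [g7.1]⟩
    · obtain ⟨n, hn, a1, a2⟩ := SG.consecutive_of_jump h4
        (fun t ht => SG.jump_two h1 h2 h3 h4 g2 g3 g4 h5 (Ne.symm g1) t ht)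
      exact ⟨n, hn, by linarith, by linarith, by linarith⟩
    · obtain ⟨n, hn, a1, a2⟩ := SG.consecutive_of_lt h1 h2 h3 h4 g2 g3 g4 h5
      exact ⟨n, hn, by linarith, by linarith [g7.2], by linarith [g7.2]⟩

/-- A positive proportion of close pairs gives small gaps in every dyadic interval. -/
theorem pp_q1 {L : ℝ} (hL : 0 < L) (h : PP L Cz) : ∃ δ T0 : ℝ, 0 < δ ∧ ∀ T : ℝ, T0 ≤ T →
    ∃ n : ℕ, 1 ≤ n ∧ T ≤ SG.ord n ∧ SG.ord n ≤ SG.ord (n + 1) ∧ SG.ord (n + 1) ≤ 2 * T ∧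
      SG.ord (n + 1) - SG.ord n < (L - δ) * (2 * Real.pi / Real.log T) := by
  obtain ⟨lam, c, h1, hc, h2⟩ := h
  obtain ⟨l1, hl1⟩ : ∃ l1 : ℝ, l1 = max lam 0 := ⟨_, rfl⟩
  have g3 : 0 ≤ l1 := by rw [hl1]; exact le_max_right _ _
  have g4 : lam ≤ l1 := by rw [hl1]; exact le_max_left _ _
  have g5 : l1 < L := by rw [hl1]; exact max_lt h1 hL
  obtain ⟨C, T8, hC, hT8, hnn⟩ := nn_all stb_xi unit0_xi
  rw [eventually_atTop] at h2
  obtain ⟨T1, h2⟩ := h2
  refine ⟨(L - l1) / 2, max (max T1 T8) (max (max 3 (4 * C / c + 1)) (Real.exp (2 * Real.pi * L))), by linarith,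
    fun T hT => ?_⟩
  simp only [max_le_iff] at hT
  obtain ⟨⟨hT1, hT8'⟩, ⟨hT3, hTC⟩, hTe⟩ := hT
  have hT0 : 0 < T := by linarith
  have hlog : 0 < Real.log T := Real.log_pos (by linarith)
  have hlogL : 2 * Real.pi * L ≤ Real.log T := by rw [Real.le_log_iff_exp_le hT0]; exact hTe
  obtain ⟨x, hx⟩ : ∃ x : ℝ, x = 2 * Real.pi * l1 / Real.log T := ⟨_, rfl⟩
  have hx0 : 0 ≤ x := by rw [hx]; positivity
  have hx1 : x ≤ 1 := by
    rw [hx, div_le_one hlog]
    have := mul_le_mul_of_nonneg_left g5.le (by positivity : 0 ≤ 2 * Real.pi)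
    linarith
  have hx2 : x < (L - (L - l1) / 2) * (2 * Real.pi / Real.log T) := by
    have e1 : x = l1 * (2 * Real.pi / Real.log T) := by rw [hx]; ring
    rw [e1]
    exact mul_lt_mul_of_pos_right (by linarith) (by positivity)
  have a1 := (h2 T hT1).trans (closeZ_mono (by linarith : 1 < T) g4)
  have a2 : Cz T l1 = ((ZS XX (fun z => (T < z.im ∧ z.im ≤ 2 * T) ∧ NP XX x z)).ncard : ℝ) := by
    unfold Cz
    rw [closeZ_card (by linarith), hx]
    rfl
  have a3 := bdryG XX_pr.1 XX_pr.2 (NP XX x) (U := T + 1) (V := 2 * T - 1) (ρ := 1)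
  have e1 : T + 1 - 1 = T := by ring
  have e2 : 2 * T - 1 + 1 = 2 * T := by ring
  rw [e1, e2, ← a2] at a3
  have hz : (0 : ℝ) ≤ 1 / Om (2 * T) ^ 2 := by positivity
  have b1 := hnn (2 * T) 0 (T + 1) (by linarith) le_rfl hz (by linarith) (by linarith)
  have b2 := hnn (2 * T) 0 (2 * T - 1) (by linarith) le_rfl hz (by linarith) (by linarith)
  rw [stb_xi.zero] at b1 b2
  have b3 : Real.log (2 * T) ≤ 2 * Real.log T := by
    rw [Real.log_mul (by norm_num) hT0.ne']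
    have := Real.log_le_log (by norm_num : (0 : ℝ) < 2) (by linarith : (2 : ℝ) ≤ T)
    linarith
  have b4 : C * Real.log (2 * T) ≤ C * (2 * Real.log T) := mul_le_mul_of_nonneg_left b3 hC.le
  have b5 : 4 * C * Real.log T < c * (T * Real.log T) := by
    have h5 : 4 * C < c * T := by
      have h6 : 4 * C / c < T := by linarith
      rw [div_lt_iff₀ hc] at h6
      linarith
    calc 4 * C * Real.log T < c * T * Real.log T := mul_lt_mul_of_pos_right h5 hlog
      _ = _ := by ring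
  have b6 : 0 < ((ZS XX (fun z => (T + 1 < z.im ∧ z.im ≤ 2 * T - 1) ∧ NP XX x z)).ncard : ℝ) := by linarith
  have b7 : (ZS XX (fun z => (T + 1 < z.im ∧ z.im ≤ 2 * T - 1) ∧ NP XX x z)).ncard ≠ 0 := by
    intro h
    rw [h] at b6
    simp at b6
  obtain ⟨p, hp1, hp2, hp3⟩ := Set.nonempty_of_ncard_ne_zero b7
  have hp2' : T + 1 < p.1.im ∧ p.1.im ≤ 2 * T - 1 := hp2
  have hp0 : 0 < p.1.im := by linarith [hp2'.1]
  obtain ⟨s1, s2, s3⟩ := (zero_XX p.1).1 (Zi_zero XX_pr.1 hp1)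
  have him : ∀ w : ℂ, (1 / 2 + w).im = w.im := fun w => by simp
  have hs := cons_of_close (x := x) s1 s2 s3 (by rw [him]; exact hp0) hx0 (by
    rcases hp3 with h | ⟨w, g1, g2, g3, g4⟩
    · left
      rw [← order_XX hp0]; exact h
    · right
      obtain ⟨w1, w2, w3⟩ := (zero_XX w).1 g2
      refine ⟨1 / 2 + w, fun h => g1 (add_left_cancel h), w1, w2, w3, by rw [him]; exact g3, ?_⟩
      rw [him, him]; exact g4)
  obtain ⟨n, hn, c1, c2, c3⟩ := hs
  rw [him] at c1 c2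
  exact ⟨n, hn, by linarith [hp2'.1], SG.ord_mono hn (by omega), by linarith [hp2'.2], by linarith⟩

lemma NZ_left (γ : ℝ) : ∃ t : ℝ, t < γ ∧ ∀ s ∈ SG.ZS γ, t < s.im → s.im = γ := by
  classical
  obtain ⟨F, hF⟩ : ∃ F : Finset ℂ, F = (SG.ZS_finite γ).toFinset.filter (fun s => s.im < γ) := ⟨_, rfl⟩
  by_cases hne : F.Nonempty
  · obtain ⟨s0, hs0, hmax⟩ := F.exists_max_image (fun s => s.im) hne
    rw [hF, Finset.mem_filter] at hs0
    refine ⟨s0.im, hs0.2, fun s hs hst => ?_⟩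
    by_contra hcon
    have h1 : s.im < γ := lt_of_le_of_ne hs.2.2.2.2 hcon
    have h2 := hmax s (by rw [hF, Finset.mem_filter, Set.Finite.mem_toFinset]; exact ⟨hs, h1⟩)
    linarith
  · refine ⟨γ - 1, by linarith, fun s hs hst => ?_⟩
    by_contra hcon
    have h1 : s.im < γ := lt_of_le_of_ne hs.2.2.2.2 hcon
    exact hne ⟨s, by rw [hF, Finset.mem_filter, Set.Finite.mem_toFinset]; exact ⟨hs, h1⟩⟩

lemma NZ_diff {t γ : ℝ} (h : t ≤ γ) :
    SG.NZ γ = SG.NZ t + ∑ s ∈ (SG.ZS_finite γ).toFinset.filter (fun s => t < s.im), SG.zmult s := by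
  classical
  rw [SG.NZ_eq, SG.NZ_eq]
  have h1 : (SG.ZS_finite t).toFinset = (SG.ZS_finite γ).toFinset.filter (fun s => ¬ t < s.im) := by
    ext s
    rw [Finset.mem_filter, Set.Finite.mem_toFinset, Set.Finite.mem_toFinset]
    constructor
    · rintro ⟨a1, a2, a3, a4, a5⟩
      exact ⟨⟨a1, a2, a3, a4, a5.trans h⟩, not_lt.2 a5⟩
    · rintro ⟨⟨a1, a2, a3, a4, a5⟩, a6⟩
      exact ⟨a1, a2, a3, a4, not_lt.1 a6⟩
  rw [h1, add_comm]
  exact (Finset.sum_filter_add_sum_filter_not _ _ _).symm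

lemma closeZ_fin (T lam : ℝ) (hT : 0 ≤ T) : (closeZ T lam).Finite := by
  refine (zetaA_NN (2 * T)).1.subset ?_
  rintro p ⟨h1, h2, -⟩
  exact ⟨h1, by linarith [h2.1], h2.2⟩

/-- The fibres. -/
lemma fibre {T c : ℝ} (hT : 1 < T) (hc : 0 ≤ c) {n0 : ℕ} (hn0 : 1 ≤ n0) (h1 : T + 1 ≤ SG.ord n0)
    (h2 : SG.ord (n0 + 1) ≤ 2 * T) (h3 : SG.ord (n0 + 1) - SG.ord n0 < c * (2 * Real.pi / Real.log T))
    (A : Finset ℕ) (hA : ∀ n ∈ A, 1 ≤ n ∧ SG.ord n = SG.ord n0) :
    A.card ≤ ((closeZ_fin T c (by linarith)).toFinset.filter (fun p => p.1.im = SG.ord n0)).card := by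
  classical
  have hlog : 0 < Real.log T := Real.log_pos hT
  obtain ⟨γ, hγ⟩ : ∃ γ : ℝ, γ = SG.ord n0 := ⟨_, rfl⟩
  obtain ⟨t, ht, hts⟩ := NZ_left γ
  obtain ⟨F, hF⟩ : ∃ F : Finset ℂ, F = (SG.ZS_finite γ).toFinset.filter (fun s => t < s.im) := ⟨_, rfl⟩
  have hd := NZ_diff ht.le
  rw [← hF] at hd
  have hFm : ∀ s ∈ F, s ∈ SG.ZS γ ∧ s.im = γ := by
    intro s hs
    rw [hF, Finset.mem_filter, Set.Finite.mem_toFinset] at hs
    exact ⟨hs.1, hts s hs.1 hs.2⟩
  rw [← hγ] at h1 h3 hA ⊢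
  have hγ0 : 0 < γ := by linarith
  have hord : ∀ n : ℕ, 1 ≤ n → SG.ord n = γ → SG.NZ t < n ∧ n ≤ SG.NZ γ := by
    intro n hn hne
    constructor
    · by_contra hcon
      push Not at hcon
      have h4 := (SG.ord_le_iff hn t).2 hcon
      linarith
    · rw [← hne]; exact SG.le_NZ_ord hn
  have h4 : A.card ≤ ∑ s ∈ F, SG.zmult s := by
    have h5 : A ⊆ Finset.Ioc (SG.NZ t) (SG.NZ γ) := by
      intro n hn
      rw [Finset.mem_Ioc]
      exact hord n (hA n hn).1 (hA n hn).2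
    have h6 := Finset.card_le_card h5
    rw [Nat.card_Ioc] at h6
    omega
  refine h4.trans ?_
  have hn0' := hord n0 hn0 hγ.symm
  have hγ' : γ ≤ SG.ord (n0 + 1) := by rw [hγ]; exact SG.ord_mono hn0 (by omega)
  -- all the zeros at the ordinate are close to others
  have hcl : ∀ s ∈ F, 1 < analyticOrderNatAt riemannZeta s ∨
    ∃ w : ℂ, w ≠ s ∧ riemannZeta w = 0 ∧ 0 < w.re ∧ w.re < 1 ∧ 0 < w.im ∧
      |w.im - s.im| * Real.log T ≤ 2 * Real.pi * c := by
    intro s hs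
    by_contra hcon
    push Not at hcon
    obtain ⟨q1, q2⟩ := hcon
    obtain ⟨s1, s2⟩ := hFm s hs
    have hF1 : ∀ w ∈ F, w = s := by
      intro w hw
      by_contra hws
      obtain ⟨w1, w2⟩ := hFm w hw
      have := q2 w hws w1.1 w1.2.1 w1.2.2.1 w1.2.2.2.1
      rw [w2, s2, sub_self, abs_zero, zero_mul] at this
      have h5 : 0 ≤ 2 * Real.pi * c := by positivity
      linarith
    have hF2 : F = {s} := by
      ext w
      rw [Finset.mem_singleton]
      exact ⟨hF1 w, fun h => h ▸ hs⟩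
    have hz1 : SG.zmult s ≤ 1 := q1
    rw [hF2, Finset.sum_singleton] at hd
    have hn1 : SG.NZ γ = n0 := by omega
    have h5 : γ ≠ SG.ord (n0 + 1) := by
      intro h
      have := (hord (n0 + 1) (by omega) h.symm).2
      omega
    have h6 : γ < SG.ord (n0 + 1) := lt_of_le_of_ne hγ' h5
    have h7 := NZ_diff h6.le
    have h8 := SG.le_NZ_ord (by omega : 1 ≤ n0 + 1)
    have h9 : ∑ w ∈ (SG.ZS_finite (SG.ord (n0 + 1))).toFinset.filter (fun w => γ < w.im), SG.zmult w ≠ 0 := by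
      omega
    obtain ⟨w, hw, -⟩ := Finset.exists_ne_zero_of_sum_ne_zero h9
    rw [Finset.mem_filter, Set.Finite.mem_toFinset] at hw
    obtain ⟨⟨w1, w2, w3, w4, w5⟩, w6⟩ := hw
    have h10 := q2 w (by
      intro h
      rw [h, s2] at w6
      exact lt_irrefl _ w6) w1 w2 w3 w4
    rw [s2, abs_of_pos (by linarith)] at h10
    have h11 : (w.im - γ) * Real.log T ≤ (SG.ord (n0 + 1) - γ) * Real.log T :=
      mul_le_mul_of_nonneg_right (by linarith) hlog.le
    have h12 : (SG.ord (n0 + 1) - γ) * Real.log T < c * (2 * Real.pi / Real.log T) * Real.log T :=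
      mul_lt_mul_of_pos_right h3 hlog
    have h13 : c * (2 * Real.pi / Real.log T) * Real.log T = 2 * Real.pi * c := by
      field_simp
    linarith
  have hcard : ∑ s ∈ F, SG.zmult s = (F.sigma (fun s => Finset.range (SG.zmult s))).card := by
    rw [Finset.card_sigma]
    simp
  rw [hcard]
  refine Finset.card_le_card_of_injOn (fun q => ((q.1, q.2) : ℂ × ℕ)) ?_ ?_
  · intro q hq
    rw [Finset.mem_coe, Finset.mem_sigma, Finset.mem_range] at hq
    obtain ⟨s1, s2⟩ := hFm q.1 hq.1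
    rw [Finset.mem_coe, Finset.mem_filter, Set.Finite.mem_toFinset]
    refine ⟨⟨⟨s1.2.1, s1.2.2.1, hq.2⟩, ?_, hcl q.1 hq.1⟩, s2⟩
    show T < q.1.im ∧ q.1.im ≤ 2 * T
    rw [s2]
    constructor <;> linarith
  · rintro ⟨a, i⟩ _ ⟨b, j⟩ _ h
    simp only [Prod.mk.injEq] at h
    obtain ⟨h1, h2⟩ := h
    subst h1
    subst h2
    rfl

theorem idx_le {T c : ℝ} (hT : 1 < T) (hc : 0 ≤ c) {S : Set ℕ} (hS : S.Finite)
    (h : ∀ n ∈ S, 1 ≤ n ∧ T + 1 ≤ SG.ord n ∧ SG.ord (n + 1) ≤ 2 * T ∧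
      SG.ord (n + 1) - SG.ord n < c * (2 * Real.pi / Real.log T)) : (S.ncard : ℝ) ≤ Cz T c := by
  classical
  unfold Cz
  have hB := closeZ_fin T c (by linarith)
  rw [Set.ncard_eq_toFinset_card S hS, Set.ncard_eq_toFinset_card _ hB]
  have h1 := Finset.card_eq_sum_card_image SG.ord hS.toFinset
  have h2 : ∀ γ ∈ hS.toFinset.image SG.ord, (hS.toFinset.filter (fun n => SG.ord n = γ)).card ≤
      ((hB.toFinset.filter (fun p => p.1.im ∈ hS.toFinset.image SG.ord)).filter (fun p => p.1.im = γ)).card := by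
    intro γ hγ
    obtain ⟨n0, hn0, hne⟩ := Finset.mem_image.1 hγ
    rw [Set.Finite.mem_toFinset] at hn0
    obtain ⟨q1, q2, q3, q4⟩ := h n0 hn0
    have h3 := fibre hT hc q1 q2 q3 q4 (hS.toFinset.filter (fun n => SG.ord n = γ)) (fun n hn => by
      rw [Finset.mem_filter, Set.Finite.mem_toFinset] at hn
      exact ⟨(h n hn.1).1, hn.2.trans hne.symm⟩)
    refine h3.trans (Finset.card_le_card ?_)
    intro p hp
    rw [Finset.mem_filter] at hp
    rw [Finset.mem_filter, Finset.mem_filter]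
    refine ⟨⟨hp.1, ?_⟩, hp.2.trans hne⟩
    rw [hp.2, hne]; exact hγ
  have h3 := Finset.sum_le_sum h2
  rw [← h1] at h3
  have h4 : (hB.toFinset.filter (fun p => p.1.im ∈ hS.toFinset.image SG.ord)).card =
      ∑ γ ∈ hS.toFinset.image SG.ord, ((hB.toFinset.filter (fun p => p.1.im ∈ hS.toFinset.image SG.ord)).filter
        (fun p => p.1.im = γ)).card :=
    Finset.card_eq_sum_card_fiberwise (f := fun p : ℂ × ℕ => p.1.im) (fun p hp => by
      rw [Finset.mem_coe, Finset.mem_filter] at hp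
      exact hp.2)
  rw [← h4] at h3
  have h5 := h3.trans (Finset.card_le_card (Finset.filter_subset _ _))
  exact_mod_cast h5

end Pool.Agent.R838.IS
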