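import Pool.Agent.R838.IS.In6
import Pool.Agent.W192.PP.Fin2

set_option autoImplicit false

/-!
# Close zeros of the de Bruijn-Newman family
-/

namespace Pool.Agent.R838.IS

open Complex Filter Topology MeasureTheory Set
open Pool.Agent.H24R2.JP (XX HH Om)
open Pool.Agent.H986R2.DBN (XT Ht)
open Pool.Agent.R838.CR
open Pool.Agent.R838.ST

/-- The known proportion of small gaps. -/
theorem pos_Cz {c : ℝ} (hc : 2 / 3 < c) : ∃ κ T0 : ℝ, 0 < κ ∧ 2 ≤ T0 ∧ ∀ T : ℝ, T0 ≤ T →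
    κ * (T * Real.log T) ≤ Cz T c := by
  have hc0 : 0 < c := by linarith
  obtain ⟨θ, hθ⟩ : ∃ θ : ℝ, θ = max (1 / 2) ((2 / c - 1) / 2) := ⟨_, rfl⟩
  have h1 : 0 < θ := by rw [hθ]; exact lt_max_of_lt_left (by norm_num)
  have h2 : θ < 1 := by
    rw [hθ]
    refine max_lt (by norm_num) ?_
    have : 2 / c < 3 := by rw [div_lt_iff₀ hc0]; linarith
    linarith
  have h3 : 2 / (2 + θ) < c := by
    rw [div_lt_iff₀ (by linarith)]
    have h4 : (2 / c - 1) / 2 ≤ θ := by rw [hθ]; exact le_max_right _ _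
    have h5 := mul_le_mul_of_nonneg_left h4 hc0.le
    have h6 : c * ((2 / c - 1) / 2) = 1 - c / 2 := by field_simp
    rw [h6] at h5
    linarith
  obtain ⟨κ, T0, hκ, h⟩ := Pool.Agent.W192.PP.pos_prop θ c h1 h2.le h3
  have h4 := (tendsto_rpow_neg_atTop (y := 1 - θ) (by linarith)).eventually_le_const
    (show (0 : ℝ) < 1 / 2 by norm_num)
  rw [eventually_atTop] at h4
  obtain ⟨T1, h4⟩ := h4
  refine ⟨κ / 2, max (max T0 T1) 2, by positivity, le_max_right _ _, fun T hT => ?_⟩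
  simp only [max_le_iff] at hT
  obtain ⟨⟨hTa, hTb⟩, hT2⟩ := hT
  have hT0 : 0 < T := by linarith
  have hlog : 0 < Real.log T := Real.log_pos (by linarith)
  have h5 : T ^ θ ≤ T - 1 := by
    have h6 : T ^ θ = T * T ^ (-(1 - θ)) := by
      have e : θ = 1 + -(1 - θ) := by ring
      conv_lhs => rw [e]
      rw [Real.rpow_add hT0, Real.rpow_one]
    rw [h6]
    have h7 := mul_le_mul_of_nonneg_left (h4 T hTb) hT0.le
    linarith
  have h6 := h T (T + 1) (T - 1) hTa (by linarith) (by linarith) h5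
  have e : T + 1 + (T - 1) = 2 * T := by ring
  rw [e] at h6
  have hfin : {n : ℕ | 1 ≤ n ∧ T + 1 ≤ SG.ord n ∧ SG.ord (n + 1) ≤ 2 * T ∧
      SG.ord (n + 1) - SG.ord n < c * (2 * Real.pi / Real.log T)}.Finite := by
    refine (Pool.Agent.W192.PP.gaps_finite (fun _ => True) (2 * T)).subset ?_
    rintro n ⟨a1, a2, a3, a4⟩
    exact ⟨a1, trivial, a3⟩
  have h7 := idx_le (T := T) (c := c) (by linarith) hc0.le hfin (fun n hn => hn)
  refine le_trans ?_ (h6.trans h7)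
  have h8 : κ / 2 * (T * Real.log T) = κ * (T / 2) * Real.log T := by ring
  rw [h8]
  exact mul_le_mul_of_nonneg_right (mul_le_mul_of_nonneg_left (by linarith) hκ.le) hlog.le

theorem pos_Ch {c : ℝ} (hc : 2 / 3 < c) : ∃ κ δ T0 : ℝ, 0 < κ ∧ 0 < δ ∧ ∀ T t : ℝ, T0 ≤ T → 0 ≤ t →
    t ≤ δ / Real.log T ^ 2 → κ * (T * Real.log T) ≤ ((closeH (Ht t) T c).ncard : ℝ) := by
  obtain ⟨c1, hc1⟩ : ∃ c1 : ℝ, c1 = (c + 2 / 3) / 2 := ⟨_, rfl⟩
  obtain ⟨κ, T1, hκ, hT1, h1⟩ := pos_Cz (c := c1) (by rw [hc1]; linarith)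
  obtain ⟨ε, hε⟩ : ∃ ε : ℝ, ε = min (c - c1) (κ / 2) := ⟨_, rfl⟩
  have hε0 : 0 < ε := by rw [hε]; exact lt_min (by rw [hc1]; linarith) (by positivity)
  have hε1 : ε ≤ c - c1 := by rw [hε]; exact min_le_left _ _
  have hε2 : ε ≤ κ / 2 := by rw [hε]; exact min_le_right _ _
  have hc10 : 0 ≤ c1 := by rw [hc1]; linarith
  obtain ⟨δ, T0, hδ, hT0, h2⟩ := cmpD c1 hc10 ε hε0
  refine ⟨κ / 2, δ, max T0 T1, by positivity, hδ, fun T t hT ht ht2 => ?_⟩
  simp only [max_le_iff] at hT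
  obtain ⟨hTa, hTb⟩ := hT
  have h3 := (h2 T t c1 hTa ht ht2 hc10 le_rfl).1
  have h4 := h1 T hTb
  have h5 := closeH_mono (t := fun _ => t) (T := T) (lam := c1 + ε) (lam' := c) ht (by linarith) (by linarith)
  unfold Ch at h5
  unfold Cz at h4
  have hW : 0 ≤ T * Real.log T := mul_nonneg (by linarith) (Real.log_nonneg (by linarith))
  have h6 := mul_le_mul_of_nonneg_right hε2 hW
  have h7 : κ / 2 * (T * Real.log T) = κ * (T * Real.log T) / 2 := by ring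
  linarith

end Pool.Agent.R838.IS
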