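import Pool.Agent.R838.ST.Ln3

set_option autoImplicit false

/-!
# Isolated simple zeros on the line
-/

namespace Pool.Agent.R838.IS

open Complex Filter Topology MeasureTheory Set
open Pool.Agent.R838.ST
open Pool.Agent.R838.CR

/-- `z` is on the line, a simple zero, and no other zero lies in the box with centre `z`, half height `x` and half
width `y`. -/
def IP (f : ℂ → ℂ) (x y : ℝ) (z : ℂ) : Prop :=
  z.re = 0 ∧ analyticOrderNatAt f z = 1 ∧ ∀ w : ℂ, f w = 0 → w ≠ z → x ≤ |w.im - z.im| ∨ y ≤ |w.re|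

lemma IP_mono {f : ℂ → ℂ} {x y x' y' : ℝ} {z : ℂ} (hx : x' ≤ x) (hy : y' ≤ y) (h : IP f x y z) : IP f x' y' z :=
  ⟨h.1, h.2.1, fun w hw hwz => (h.2.2 w hw hwz).imp (fun h1 => hx.trans h1) (fun h1 => hy.trans h1)⟩

lemma IP_tr {f g : ℂ → ℂ} {B : ℝ} (hf : Differentiable ℂ f) (hg : Differentiable ℂ g)
    (hsg : ∀ s, g s = 0 → |s.re| ≤ B)
    (hsym : ∀ z, g z = 0 → g (-((starRingEnd ℂ) z)) = 0) {t h H ρ x y : ℝ} (hx : 2 * ρ < x)
    (hy : 2 * ρ < y) (hH : h + ρ + x ≤ H) (hρ : 0 ≤ ρ) (hψ : MT2 g f t H ρ) {p q : ℂ × ℕ} (hp : p ∈ Zi f)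
    (hpt : |p.1.im - t| ≤ h) (hq : q ∈ Zi g) (hpq : ‖q.1 - p.1‖ ≤ ρ) (hI : IP f x y p.1) :
    IP g (x - 2 * ρ) (y - 2 * ρ) q.1 := by
  obtain ⟨ψ, hψ1, hψ2⟩ := hψ
  obtain ⟨hI1, hI2, hI3⟩ := hI
  have hp2 : p.2 < analyticOrderNatAt f p.1 := hp
  have hwin : ∀ q' : ℂ × ℕ, |q'.1.im - p.1.im| < x - ρ → |q'.1.im - t| ≤ H := by
    intro q' h1
    have h2 := abs_sub_le q'.1.im p.1.im t
    linarith
  have hA : ∀ q' ∈ Zi g, |q'.1.im - p.1.im| < x - ρ → |q'.1.re| < y - ρ → ψ q' = p := by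
    intro q' hq' h1 h2
    obtain ⟨h3, h4⟩ := hψ1 q' hq' (hwin q' h1)
    have h5 := (Complex.abs_im_le_norm ((ψ q').1 - q'.1)).trans h4
    have h6 := (Complex.abs_re_le_norm ((ψ q').1 - q'.1)).trans h4
    rw [Complex.sub_im] at h5
    rw [Complex.sub_re] at h6
    have h7 : |(ψ q').1.im - p.1.im| < x := by
      have := abs_sub_le (ψ q').1.im q'.1.im p.1.im
      linarith
    have h8 : |(ψ q').1.re| < y := by
      have := abs_sub_abs_le_abs_sub (ψ q').1.re q'.1.re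
      linarith
    have h9 : (ψ q').1 = p.1 := by
      by_contra hne
      rcases hI3 _ (Zi_zero hf h3) hne with h | h
      · exact absurd h7 (not_lt.2 h)
      · exact absurd h8 (not_lt.2 h)
    have h10 : (ψ q').2 < analyticOrderNatAt f (ψ q').1 := h3
    rw [h9, hI2] at h10
    rw [hI2] at hp2
    exact Prod.ext h9 (by omega)
  have hq1 := (Complex.abs_im_le_norm (q.1 - p.1)).trans hpq
  have hq2 := (Complex.abs_re_le_norm (q.1 - p.1)).trans hpq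
  rw [Complex.sub_im] at hq1
  rw [Complex.sub_re, hI1, sub_zero] at hq2
  have hqi : |q.1.im - p.1.im| < x - ρ := by linarith
  have hqr : |q.1.re| < y - ρ := by linarith
  have hψq : ψ q = p := hA q hq hqi hqr
  have hqH := hwin q hqi
  have hgq : g q.1 = 0 := Zi_zero hg hq
  refine ⟨?_, ?_, ?_⟩
  · -- on the line
    have h1 : ((-((starRingEnd ℂ) q.1), 0) : ℂ × ℕ) ∈ Zi g := ord_pos hg hsg (hsym _ hgq)
    have h0 : ((q.1, 0) : ℂ × ℕ) ∈ Zi g := ord_pos hg hsg hgq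
    have e1 : (-((starRingEnd ℂ) q.1)).im = q.1.im := by simp
    have e2 : |(-((starRingEnd ℂ) q.1)).re| = |q.1.re| := by simp
    have h2 : ψ (-((starRingEnd ℂ) q.1), 0) = p := by
      refine hA _ h1 ?_ ?_
      · show |(-((starRingEnd ℂ) q.1)).im - p.1.im| < x - ρ
        rw [e1]; exact hqi
      · show |(-((starRingEnd ℂ) q.1)).re| < y - ρ
        rw [e2]; exact hqr
    have h3 : ψ (q.1, 0) = p := hA _ h0 hqi hqr
    have h4 := hψ2 ⟨h1, by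
      show |(-((starRingEnd ℂ) q.1)).im - t| ≤ H
      rw [e1]; exact hqH⟩ ⟨h0, hqH⟩ (h2.trans h3.symm)
    have h5 := congrArg (fun p : ℂ × ℕ => p.1.re) h4
    simp only [Complex.neg_re, Complex.conj_re] at h5
    linarith
  · -- simple
    have h1 : 0 < analyticOrderNatAt g q.1 := ord_pos hg hsg hgq
    by_contra hne
    have h2 : 1 < analyticOrderNatAt g q.1 := by omega
    have h3 : ((q.1, 1) : ℂ × ℕ) ∈ Zi g := h2
    have h0 : ((q.1, 0) : ℂ × ℕ) ∈ Zi g := h1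
    have h4 := hψ2 ⟨h3, hqH⟩ ⟨h0, hqH⟩ ((hA _ h3 hqi hqr).trans (hA _ h0 hqi hqr).symm)
    have h5 := congrArg Prod.snd h4
    simp at h5
  · intro w hw hwq
    by_contra hcon
    push Not at hcon
    obtain ⟨h1, h2⟩ := hcon
    have h0 : ((w, 0) : ℂ × ℕ) ∈ Zi g := ord_pos hg hsg hw
    have h3 : |w.im - p.1.im| < x - ρ := by
      have := abs_sub_le w.im q.1.im p.1.im
      linarith
    have h4 : ψ (w, 0) = p := hA _ h0 h3 (by
      show |w.re| < y - ρ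
      linarith)
    have h5 := hψ2 ⟨h0, hwin (w, 0) h3⟩ ⟨hq, hqH⟩ (h4.trans hψq.symm)
    exact hwq (congrArg Prod.fst h5)

/-- The comparison. -/
theorem glueI {f g : ℂ → ℂ} {B : ℝ} (hf : Differentiable ℂ f) (hsf : ∀ s, f s = 0 → |s.re| ≤ B)
    (hg : Differentiable ℂ g) (hsg : ∀ s, g s = 0 → |s.re| ≤ B)
    (hsym : ∀ z, g z = 0 → g (-((starRingEnd ℂ) z)) = 0)
    {h H ε ρ U V x y : ℝ} (hh : 0 ≤ h) (hε : 0 ≤ ε) (hx : 2 * ε < x) (hy : 2 * ε < y) (hH : h + ε + x ≤ H)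
    (G : Finset ℝ) (hSep : Sep G ρ)
    (hcov : ∀ x, U < x → x ≤ V → 2 * h / ρ - 1 ≤ ((G.filter fun t => |t - x| ≤ h).card : ℝ))
    (bad : ℝ → Prop) [DecidablePred bad]
    (hgood : ∀ t ∈ G, ¬ bad t → MT2 f g t h ε ∧ MT2 g f t H ε) :
    (2 * h / ρ - 1) * ((ZS f (fun z => (U < z.im ∧ z.im ≤ V) ∧ IP f x y z)).ncard : ℝ) ≤
      (2 * (h + ε) / ρ + 1) * ((ZS g (fun z => (U - ε < z.im ∧ z.im ≤ V + ε) ∧
        IP g (x - 2 * ε) (y - 2 * ε) z)).ncard : ℝ) +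
      ∑ t ∈ G with bad t, (nn f t h : ℝ) := by
  classical
  have hX := (ZS_le hf hsf (P := fun z => (U < z.im ∧ z.im ≤ V) ∧ IP f x y z) (Q := fun y => U < y ∧ y ≤ V)
    (u := U) (v := V) (fun z hz => hz.1) (fun y hy => ⟨hy.1.le, hy.2⟩)).1
  have hY := (ZS_le hg hsg (P := fun z => (U - ε < z.im ∧ z.im ≤ V + ε) ∧ IP g (x - 2 * ε) (y - 2 * ε) z)
    (Q := fun y => U - ε < y ∧ y ≤ V + ε) (u := U - ε) (v := V + ε) (fun z hz => hz.1)
    (fun y hy => ⟨hy.1.le, hy.2⟩)).1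
  obtain ⟨X, hXd⟩ : ∃ X : Finset (ℂ × ℕ), X = hX.toFinset := ⟨_, rfl⟩
  obtain ⟨Y, hYd⟩ : ∃ Y : Finset (ℂ × ℕ), Y = hY.toFinset := ⟨_, rfl⟩
  rw [Set.ncard_eq_toFinset_card _ hX, Set.ncard_eq_toFinset_card _ hY, ← hXd, ← hYd]
  have hXm : ∀ u, u ∈ X ↔ u ∈ ZS f (fun z => (U < z.im ∧ z.im ≤ V) ∧ IP f x y z) := fun u => by
    rw [hXd, Set.Finite.mem_toFinset]
  have hYm : ∀ u, u ∈ Y ↔ u ∈ ZS g (fun z => (U - ε < z.im ∧ z.im ≤ V + ε) ∧
      IP g (x - 2 * ε) (y - 2 * ε) z) := fun u => by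
    rw [hYd, Set.Finite.mem_toFinset]
  have h1 := dc_low G X (fun u => u.1.im) h (2 * h / ρ - 1) (fun u hu => by
    have := ((hXm u).1 hu).2.1
    exact hcov _ this.1 this.2)
  have h2 := dc_up G Y (fun u => u.1.im) (h + ε) (2 * (h + ε) / ρ + 1) (fun u _ => hSep _ _ (by linarith))
  have h3 : ∀ t ∈ G, ((X.filter fun u => |u.1.im - t| ≤ h).card : ℝ) ≤
      ((Y.filter fun u => |u.1.im - t| ≤ h + ε).card : ℝ) +
        (if bad t then (nn f t h : ℝ) else 0) := by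
    intro t ht
    by_cases hb : bad t
    · rw [if_pos hb]
      have h4 : (X.filter fun u => |u.1.im - t| ≤ h).card ≤ nn f t h := by
        obtain ⟨h5, h6⟩ := ZS_nn hf hsf t h (P := fun z => |z.im - t| ≤ h) (fun z hz => hz)
        rw [← Set.ncard_coe_finset]
        refine (Set.ncard_le_ncard ?_ h5).trans h6
        intro u hu
        rw [Finset.mem_coe, Finset.mem_filter, hXm] at hu
        exact ⟨hu.1.1, hu.2⟩
      have h5 : ((X.filter fun u => |u.1.im - t| ≤ h).card : ℝ) ≤ (nn f t h : ℝ) := by exact_mod_cast h4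
      have h6 : (0 : ℝ) ≤ ((Y.filter fun u => |u.1.im - t| ≤ h + ε).card : ℝ) := Nat.cast_nonneg _
      linarith
    · rw [if_neg hb, add_zero]
      obtain ⟨⟨φ, hφ, hφi⟩, hψ⟩ := hgood t ht hb
      have h4 : (X.filter fun u => |u.1.im - t| ≤ h).card ≤ (Y.filter fun u => |u.1.im - t| ≤ h + ε).card := by
        refine Finset.card_le_card_of_injOn φ ?_ ?_
        · intro u hu
          rw [Finset.mem_coe, Finset.mem_filter, hXm] at hu
          obtain ⟨⟨hx1, ⟨hx2, hx3⟩, hx4⟩, hx5⟩ := hu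
          obtain ⟨h5, h6⟩ := hφ u hx1 hx5
          have h7 := (Complex.abs_im_le_norm ((φ u).1 - u.1)).trans h6
          rw [Complex.sub_im] at h7
          have h7' := abs_le.1 h7
          rw [Finset.mem_coe, Finset.mem_filter, hYm]
          refine ⟨⟨h5, ⟨by linarith [h7'.1], by linarith [h7'.2]⟩, ?_⟩, ?_⟩
          · exact IP_tr hf hg hsg hsym hx hy hH hε hψ hx1 hx5 h5 h6 hx4
          · have h9 := abs_sub_le (φ u).1.im u.1.im t
            linarith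
        · intro u hu v hv huv
          rw [Finset.mem_coe, Finset.mem_filter, hXm] at hu hv
          exact hφi ⟨hu.1.1, hu.2⟩ ⟨hv.1.1, hv.2⟩ huv
      exact_mod_cast h4
  refine h1.trans ((Finset.sum_le_sum h3).trans ?_)
  rw [Finset.sum_add_distrib, Finset.sum_filter]
  exact add_le_add h2 le_rfl

section

variable {f : ℂ → ℂ} {B : ℝ} (hf : Differentiable ℂ f) (hs : ∀ s, f s = 0 → |s.re| ≤ B) (P : ℂ → Prop)

include hf hs

lemma ZP_f (u v : ℝ) : (ZS f (fun z => (u < z.im ∧ z.im ≤ v) ∧ P z)).Finite :=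
  (ZS_le hf hs (P := fun z => (u < z.im ∧ z.im ≤ v) ∧ P z) (Q := fun y => u < y ∧ y ≤ v)
    (u := u) (v := v) (fun z hz => hz.1) (fun y hy => ⟨hy.1.le, hy.2⟩)).1

lemma ZP_sl (x y z : ℝ) :
    ((ZS f (fun w => (x < w.im ∧ w.im ≤ z) ∧ P w)).ncard : ℝ) ≤
      ((ZS f (fun w => (y < w.im ∧ w.im ≤ z) ∧ P w)).ncard : ℝ) +
      ((ZS f (fun w => (x < w.im ∧ w.im ≤ y) ∧ P w)).ncard : ℝ) := by
  have hsub : ZS f (fun w => (x < w.im ∧ w.im ≤ z) ∧ P w) ⊆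
      ZS f (fun w => (y < w.im ∧ w.im ≤ z) ∧ P w) ∪ ZS f (fun w => (x < w.im ∧ w.im ≤ y) ∧ P w) := by
    rintro p ⟨h1, h2, h3⟩
    rcases le_or_gt p.1.im y with h4 | h4
    · right; exact ⟨h1, ⟨h2.1, h4⟩, h3⟩
    · left; exact ⟨h1, ⟨h4, h2.2⟩, h3⟩
  have h1 := (Set.ncard_le_ncard hsub ((ZP_f hf hs P y z).union (ZP_f hf hs P x y))).trans
    (Set.ncard_union_le _ _)
  exact_mod_cast h1

lemma ZP_sg {x y z : ℝ} (hxy : x ≤ y) (hyz : y ≤ z) :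
    ((ZS f (fun w => (y < w.im ∧ w.im ≤ z) ∧ P w)).ncard : ℝ) +
      ((ZS f (fun w => (x < w.im ∧ w.im ≤ y) ∧ P w)).ncard : ℝ) ≤
    ((ZS f (fun w => (x < w.im ∧ w.im ≤ z) ∧ P w)).ncard : ℝ) := by
  have hsub : ZS f (fun w => (y < w.im ∧ w.im ≤ z) ∧ P w) ∪
      ZS f (fun w => (x < w.im ∧ w.im ≤ y) ∧ P w) ⊆
      ZS f (fun w => (x < w.im ∧ w.im ≤ z) ∧ P w) := by
    rintro p (⟨h1, h2, h3⟩ | ⟨h1, h2, h3⟩)
    · exact ⟨h1, ⟨lt_of_le_of_lt hxy h2.1, h2.2⟩, h3⟩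
    · exact ⟨h1, ⟨h2.1, h2.2.trans hyz⟩, h3⟩
  have hdis : Disjoint (ZS f (fun w => (y < w.im ∧ w.im ≤ z) ∧ P w))
      (ZS f (fun w => (x < w.im ∧ w.im ≤ y) ∧ P w)) := by
    rw [Set.disjoint_left]
    rintro p ⟨-, h5, -⟩ ⟨-, h6, -⟩
    exact absurd h6.2 (not_le.2 h5.1)
  have h4 := Set.ncard_le_ncard hsub (ZP_f hf hs P x z)
  rw [Set.ncard_union_eq hdis (ZP_f hf hs P y z) (ZP_f hf hs P x y)] at h4
  exact_mod_cast h4

lemma ZP_rem {V M : ℝ} (hV : 0 ≤ V) (hM0 : 0 ≤ M)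
    (hM : ∀ t : ℝ, 0 ≤ t → t ≤ V + 1 → (nn f t 1 : ℝ) ≤ M) :
    ((ZS f (fun w => (0 < w.im ∧ w.im ≤ V) ∧ P w)).ncard : ℝ) ≤ (V + 1) * M := by
  have h1 := (ZS_le hf hs (P := fun z => (0 < z.im ∧ z.im ≤ V) ∧ P z) (Q := fun y => 0 < y ∧ y ≤ V)
    (u := 0) (v := V) (fun z hz => hz.1) (fun y hy => ⟨hy.1.le, hy.2⟩)).2
  have h2 := remd hf hs (k := 0) (α := fun i : Fin 0 => i.elim0) (β := fun i : Fin 0 => i.elim0) (H := 0) le_rfl
    (fun i => i.elim0) (fun i => i.elim0) (by norm_num) hV hM0 hM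
  have h3 : ((ZS f (fun w => (0 < w.im ∧ w.im ≤ V) ∧ P w)).ncard : ℝ) ≤
      ((Z0 f (fun y => 0 < y ∧ y ≤ V)).ncard : ℝ) := by
    exact_mod_cast h1
  have e : (V + 1) * M ^ (0 + 1) = (V + 1) * M := by rw [zero_add, pow_one]
  exact h3.trans (h2.trans e.le)

lemma bdryG {U V ρ : ℝ} :
    ((ZS f (fun z => (U - ρ < z.im ∧ z.im ≤ V + ρ) ∧ P z)).ncard : ℝ) ≤
      ((ZS f (fun z => (U < z.im ∧ z.im ≤ V) ∧ P z)).ncard : ℝ) + (nn f U ρ : ℝ) + (nn f V ρ : ℝ) := by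
  have hsub : ZS f (fun z => (U - ρ < z.im ∧ z.im ≤ V + ρ) ∧ P z) ⊆
      (ZS f (fun z => (U < z.im ∧ z.im ≤ V) ∧ P z) ∪ ZS f (fun z => |z.im - U| ≤ ρ)) ∪
        ZS f (fun z => |z.im - V| ≤ ρ) := by
    rintro p ⟨h1, h3, h4⟩
    rcases le_or_gt p.1.im U with h5 | h5
    · left; right
      refine ⟨h1, ?_⟩
      show |p.1.im - U| ≤ ρ
      rw [abs_le]
      constructor <;> linarith [h3.1]
    · rcases le_or_gt p.1.im V with h6 | h6
      · left; left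
        exact ⟨h1, ⟨h5, h6⟩, h4⟩
      · right
        refine ⟨h1, ?_⟩
        show |p.1.im - V| ≤ ρ
        rw [abs_le]
        constructor <;> linarith [h3.2]
  have hf1 := ZP_f hf hs P U V
  obtain ⟨hf2, g2⟩ := ZS_nn hf hs U ρ (P := fun z => |z.im - U| ≤ ρ) (fun z hz => hz)
  obtain ⟨hf3, g3⟩ := ZS_nn hf hs V ρ (P := fun z => |z.im - V| ≤ ρ) (fun z hz => hz)
  have h1 := (Set.ncard_le_ncard hsub ((hf1.union hf2).union hf3)).trans
    ((Set.ncard_union_le _ _).trans (Nat.add_le_add_right (Set.ncard_union_le _ _) _))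
  have h2 : (ZS f (fun z => (U - ρ < z.im ∧ z.im ≤ V + ρ) ∧ P z)).ncard ≤
      (ZS f (fun z => (U < z.im ∧ z.im ≤ V) ∧ P z)).ncard + nn f U ρ + nn f V ρ := by
    omega
  exact_mod_cast h2

end

end Pool.Agent.R838.IS
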