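import Pool.Agent.R838.IS.Is6

set_option autoImplicit false

/-!
# Proportion of isolated zeros and essential simplicity under the heat flow
-/

namespace Pool.Agent.R838.IS

open Complex Filter Topology MeasureTheory Set
open Pool.Agent.H24R2.JP (XX HH Om)
open Pool.Agent.H986R2.DBN (XT Ht)
open Pool.Agent.R838.CR
open Pool.Agent.R838.ST

lemma NI_mono {f : ℂ → ℂ} {B : ℝ} (hf : Differentiable ℂ f) (hs : ∀ s, f s = 0 → |s.re| ≤ B) {T α β α' β' : ℝ}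
    (hT : 1 < T) (hα : α' ≤ α) (hβ : β' ≤ β) : (NI f T α β).ncard ≤ (NI f T α' β').ncard := by
  have hL : 0 < Real.log T := Real.log_pos hT
  refine Set.ncard_le_ncard ?_ (ZP_f hf hs _ _ _)
  rintro p ⟨h1, h2, h3⟩
  exact ⟨h1, h2, IP_mono (div_le_div_of_nonneg_right hα hL.le) (div_le_div_of_nonneg_right hβ hL.le) h3⟩

lemma XT_prop {t : ℝ} (ht : 0 ≤ t) : Differentiable ℂ (XT (t / 4)) ∧ ∀ s, XT (t / 4) s = 0 → |s.re| ≤ 1 / 2 :=
  ⟨stb_xi.heatd _ (by linarith), fun s hs => stb_xi.strip _ s (by linarith) hs⟩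

lemma XX_prop : Differentiable ℂ XX ∧ ∀ s, XX s = 0 → |s.re| ≤ 1 / 2 :=
  ⟨stb_xi.diff, fun s hs => stb_xi.strip 0 s le_rfl (by rw [stb_xi.zero]; exact hs)⟩

lemma zetaI_mono {T α β α' β' : ℝ} (hT : 1 < T) (hα : α' ≤ α) (hβ : β' ≤ β) :
    (zetaI T α β).ncard ≤ (zetaI T α' β').ncard := by
  rw [zetaI_card hT, zetaI_card hT]
  exact NI_mono XX_prop.1 XX_prop.2 hT hα hβ

lemma heatI_mono {t : ℝ} (ht : 0 ≤ t) {T α β α' β' : ℝ} (hT : 1 < T) (hα : α' ≤ α) (hβ : β' ≤ β) :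
    (heatI (Ht t) T α β).ncard ≤ (heatI (Ht t) T α' β').ncard := by
  rw [heatI_card ht hT, heatI_card ht hT]
  exact NI_mono (XT_prop ht).1 (XT_prop ht).2 hT hα hβ

lemma heatA_card {t : ℝ} (ht : 0 ≤ t) {T : ℝ} (hT : 1 ≤ T) :
    (heatA (Ht t) T).ncard = (ZS (XT (t / 4)) (fun z => 0 < z.im ∧ z.im ≤ T)).ncard := by
  have hL : 0 ≤ Real.log T := Real.log_nonneg hT
  rw [← farH_zero hT le_rfl, farH_eq ht]
  congr 1
  ext p
  constructor
  · rintro ⟨h1, h2, h3⟩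
    exact ⟨h1, h2⟩
  · rintro ⟨h1, h2⟩
    exact ⟨h1, h2, by positivity⟩

/-- the numbers in the definition of essential simplicity -/
noncomputable def Zz (T : ℝ) : ℝ := ((zetaA T).ncard : ℝ)
noncomputable def Jz (T σ : ℝ) : ℝ := ((zetaI T σ σ).ncard : ℝ)
noncomputable def Zh (t : ℝ → ℝ) (T : ℝ) : ℝ := ((heatA (Ht (t T)) T).ncard : ℝ)
noncomputable def Jh (t : ℝ → ℝ) (T σ : ℝ) : ℝ := ((heatI (Ht (t T)) T σ σ).ncard : ℝ)

lemma ev_le {t : ℝ → ℝ} (ht2 : Tendsto (fun T => t T * Real.log T ^ 2) atTop (𝓝 0)) {δ : ℝ} (hδ : 0 < δ) :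
    ∀ᶠ T : ℝ in atTop, t T ≤ δ / Real.log T ^ 2 := by
  filter_upwards [ht2.eventually_lt_const hδ, eventually_gt_atTop (1 : ℝ)] with T h1 h2
  have hL : 0 < Real.log T := Real.log_pos h2
  rw [le_div_iff₀ (by positivity)]
  exact h1.le

theorem ess_equiv {t : ℝ → ℝ} (ht : ∀ T, 0 ≤ t T)
    (ht2 : Tendsto (fun T => t T * Real.log T ^ 2) atTop (𝓝 0)) :
    ESS Zz Jz ↔ ESS (Zh t) (Jh t) := by
  constructor
  · refine ess_tr (fun ε hε => ?_) (fun ε σ hε hεσ hσ => ?_) (fun σ σ' h => ?_)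
    · obtain ⟨δ, T0, hδ, -, h⟩ := cmpA ε hε
      filter_upwards [eventually_ge_atTop T0, ev_le ht2 hδ] with T h1 h2
      exact (h T (t T) h1 (ht T) h2).2
    · obtain ⟨δ, T0, hδ, -, h⟩ := cmpI 1 zero_le_one ε hε
      filter_upwards [eventually_ge_atTop T0, ev_le ht2 hδ] with T h1 h2
      exact (h T (t T) σ σ h1 (ht T) h2 hεσ hσ hεσ).1
    · filter_upwards [eventually_gt_atTop (1 : ℝ)] with T hT
      unfold Jz
      exact_mod_cast zetaI_mono hT h h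
  · refine ess_tr (fun ε hε => ?_) (fun ε σ hε hεσ hσ => ?_) (fun σ σ' h => ?_)
    · obtain ⟨δ, T0, hδ, -, h⟩ := cmpA ε hε
      filter_upwards [eventually_ge_atTop T0, ev_le ht2 hδ] with T h1 h2
      exact (h T (t T) h1 (ht T) h2).1
    · obtain ⟨δ, T0, hδ, -, h⟩ := cmpI 1 zero_le_one ε hε
      filter_upwards [eventually_ge_atTop T0, ev_le ht2 hδ] with T h1 h2
      exact (h T (t T) σ σ h1 (ht T) h2 hεσ hσ hεσ).2
    · filter_upwards [eventually_gt_atTop (1 : ℝ)] with T hT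
      unfold Jh
      exact_mod_cast heatI_mono (ht T) hT h h

theorem ess_large {t : ℝ → ℝ} {A : ℝ} (hA : ∀ᶠ T : ℝ in atTop, t T * Real.log T ≤ A)
    (ht : Tendsto (fun T => t T * Real.log T ^ 2) atTop atTop) : ESS (Zh t) (Jh t) := by
  intro η hη
  refine ⟨1, one_pos, ?_⟩
  obtain ⟨K, T0, hK, hT0, h⟩ := irrB stb_xi unit0_xi 1 (η / 4) (|A| + 1) one_pos (by positivity) (by positivity)
  obtain ⟨C8, T8, hC8, hT8, hnn⟩ := nn_allX stb_xi unit0_xi (|A| + 1) (by positivity)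
  filter_upwards [hA, ht.eventually_ge_atTop (4 * K), eventually_ge_atTop T0, eventually_ge_atTop T8,
    eventually_ge_atTop (Real.exp 1), eventually_ge_atTop (4 * C8 / η)] with T h1 h2 h3 h4 h5 h6
  have hT1 : 2 ≤ T := hT0.trans h3
  have hT0' : 0 < T := by linarith
  have hL : 1 ≤ Real.log T := by rw [Real.le_log_iff_exp_le hT0']; exact h5
  have ht0 : 0 ≤ t T := by
    by_contra hcon
    push Not at hcon
    have h7 : t T * Real.log T ^ 2 ≤ 0 := mul_nonpos_of_nonpos_of_nonneg hcon.le (by positivity)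
    linarith
  have hAA := le_abs_self A
  have hb1 : t T / 4 * Real.log T ≤ |A| + 1 := by
    have : 0 ≤ t T * Real.log T := by positivity
    have e : t T / 4 * Real.log T = t T * Real.log T / 4 := by ring
    rw [e]; linarith
  have hb2 : K ≤ t T / 4 * Real.log T ^ 2 := by
    have e : t T / 4 * Real.log T ^ 2 = t T * Real.log T ^ 2 / 4 := by ring
    rw [e]; linarith
  have h7 := h T (t T / 4) h3 hb2 hb1
  have h8 := hnn T (t T / 4) 0 h4 (by linarith) hb1 le_rfl (by linarith)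
  have h9 := isoC (f := XT (t T / 4)) (FT := XT) (B := 1 / 2) (ε := 1) (τ := t T / 4) (T := T) rfl (XT_prop ht0).1
    (XT_prop ht0).2 le_rfl h5
  show ((heatA (Ht (t T)) T).ncard : ℝ) ≤ ((heatI (Ht (t T)) T 1 1).ncard : ℝ) + η * (T * Real.log T)
  rw [heatA_card ht0 (by linarith), heatI_card ht0 (by linarith)]
  have h10 : C8 * Real.log T ≤ η / 4 * (T * Real.log T) := by
    rw [div_le_iff₀ hη] at h6
    have h11 : C8 ≤ η / 4 * T := by linarith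
    calc C8 * Real.log T ≤ η / 4 * T * Real.log T := mul_le_mul_of_nonneg_right h11 (by linarith)
      _ = _ := by ring
  have h11 : 0 ≤ η * (T * Real.log T) := by positivity
  linarith

/-- simple zeros on the critical line -/
def zetaS (T : ℝ) : Set ℂ :=
  {s | s.re = 1 / 2 ∧ (0 < s.im ∧ s.im ≤ T) ∧ analyticOrderNatAt riemannZeta s = 1}

lemma zetaS_le (T : ℝ) : (zetaS T).Finite ∧ (zetaS T).ncard ≤ (zetaA T).ncard := by
  have hm : ∀ s ∈ zetaS T, ((s, 0) : ℂ × ℕ) ∈ zetaA T := by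
    rintro s ⟨h1, h2, h3⟩
    refine ⟨⟨?_, ?_, ?_⟩, h2⟩
    · show 0 < s.re
      rw [h1]; norm_num
    · show s.re < 1
      rw [h1]; norm_num
    · show 0 < analyticOrderNatAt riemannZeta s
      rw [h3]; exact one_pos
  have hi : Set.InjOn (fun s : ℂ => ((s, 0) : ℂ × ℕ)) (zetaS T) := fun a _ b _ h => congrArg Prod.fst h
  exact ⟨Set.Finite.of_injOn hm hi (zetaA_NN T).1, Set.ncard_le_ncard_of_injOn _ hm hi (zetaA_NN T).1⟩

theorem ess_simple (h : ESS Zz Jz) :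
    Tendsto (fun T : ℝ => ((zetaS T).ncard : ℝ) / ((zetaA T).ncard : ℝ)) atTop (𝓝 1) := by
  obtain ⟨T1, hT1, hN⟩ := N_low
  rw [Metric.tendsto_atTop]
  intro ε hε
  obtain ⟨σ, hσ, h1⟩ := h (ε / 32) (by positivity)
  obtain ⟨T2, hT2⟩ := eventually_atTop.1 h1
  refine ⟨max (max T1 T2) 3, fun T hT => ?_⟩
  have hTa : T1 ≤ T := (le_max_left _ _).trans ((le_max_left _ _).trans hT)
  have hTb : T2 ≤ T := (le_max_right _ _).trans ((le_max_left _ _).trans hT)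
  have hTc : 3 ≤ T := (le_max_right _ _).trans hT
  have hL : 0 < Real.log T := Real.log_pos (by linarith)
  have h2 := hN T hTa
  have h3 : ((zetaA T).ncard : ℝ) ≤ ((zetaI T σ σ).ncard : ℝ) + ε / 32 * (T * Real.log T) := hT2 T hTb
  have h4 : ((zetaI T σ σ).ncard : ℝ) ≤ ((zetaS T).ncard : ℝ) := by
    have hsub : zetaI T σ σ ⊆ zetaS T := fun s hs => ⟨hs.1, hs.2.1, hs.2.2.1⟩
    exact_mod_cast Set.ncard_le_ncard hsub (zetaS_le T).1
  have h5 : ((zetaS T).ncard : ℝ) ≤ ((zetaA T).ncard : ℝ) := by exact_mod_cast (zetaS_le T).2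
  have hW : 0 < T * Real.log T := by positivity
  have hA : 0 < ((zetaA T).ncard : ℝ) := by linarith
  rw [Real.dist_eq, abs_lt]
  constructor
  · have h6 : 1 - ε < ((zetaS T).ncard : ℝ) / ((zetaA T).ncard : ℝ) := by
      rw [lt_div_iff₀ hA]
      have h7 : ε / 32 * (T * Real.log T) = ε / 2 * (T * Real.log T / 16) := by ring
      have h8 : ε / 2 * (T * Real.log T / 16) ≤ ε / 2 * ((zetaA T).ncard : ℝ) :=
        mul_le_mul_of_nonneg_left h2 (by positivity)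
      have h9 : 0 < ε * ((zetaA T).ncard : ℝ) := by positivity
      linarith
    linarith
  · have h6 : ((zetaS T).ncard : ℝ) / ((zetaA T).ncard : ℝ) ≤ 1 := by
      rw [div_le_one hA]; exact h5
    linarith

/-- real simple zeros of `H` -/
def heatS (H : ℂ → ℂ) (T : ℝ) : Set ℂ :=
  {z | z.im = 0 ∧ (0 < z.re / 2 ∧ z.re / 2 ≤ T) ∧ analyticOrderNatAt H z = 1}

lemma heatS_fin {t : ℝ} (ht : 0 ≤ t) {T : ℝ} (hT : 1 < T) : (heatS (Ht t) T).Finite := by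
  have hf := XT_prop ht
  have h1 := ZP_f hf.1 hf.2 (fun _ => True) 0 T
  have e1 : ∀ z : ℂ, -(2 * I) * (I / 2 * z) = z := fun z => by
    have : -(2 * I) * (I / 2 * z) = -(I * I) * z := by ring
    rw [this, I_mul_I]; ring
  refine Set.Finite.of_injOn (f := fun z : ℂ => ((I / 2 * z, 0) : ℂ × ℕ)) ?_ ?_ h1
  · rintro z ⟨h2, h3, h4⟩
    refine ⟨?_, ?_, trivial⟩
    · show 0 < analyticOrderNatAt (XT (t / 4)) (I / 2 * z)
      rw [← Pool.Agent.W186.SD.CntH.order_eq ht, h4]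
      exact one_pos
    · show 0 < (I / 2 * z).im ∧ (I / 2 * z).im ≤ T
      rw [Pool.Agent.W186.SD.CntH.half_im]
      exact h3
  · intro a _ b _ hab
    have h2 : I / 2 * a = I / 2 * b := congrArg Prod.fst hab
    rw [← e1 a, h2, e1]

theorem prop_heat : ∃ κ : ℝ, 0 < κ ∧ κ ≤ 1 / 100 ∧ ∀ r ε : ℝ, 0 < ε → ε ≤ 2 * Real.pi * r → r ≤ 1 / 3 →
    ∃ δ T0 : ℝ, 0 < δ ∧ 2 ≤ T0 ∧ ∀ T t : ℝ, T0 ≤ T → 0 ≤ t → t ≤ δ / Real.log T ^ 2 →
    (1 - (H370.cMTinv - 1 - κ) / H344.KK r ^ 2) * ((heatA (Ht t) T).ncard : ℝ) ≤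
      ((heatI (Ht t) T (2 * Real.pi * r - ε) (4 * Real.pi / 5 - ε)).ncard : ℝ) := by
  obtain ⟨κ, hκ, hκ1, hz⟩ := prop_zeta
  refine ⟨κ / 2, by positivity, by linarith, fun r ε hε hεr hr => ?_⟩
  have hpi := Real.pi_gt_three
  have hpi4 := Real.pi_le_four
  have hr0 : 0 < r := by
    by_contra hcon
    push Not at hcon
    have : 2 * Real.pi * r ≤ 0 := mul_nonpos_of_nonneg_of_nonpos (by positivity) hcon
    linarith
  obtain ⟨C0, T1, hz⟩ := hz r hr0.le hr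
  obtain ⟨T2, hT2, hN⟩ := N_low
  obtain ⟨ε1, hε1⟩ : ∃ ε1 : ℝ, ε1 = min ε (κ / 128) := ⟨_, rfl⟩
  have hε10 : 0 < ε1 := by rw [hε1]; positivity
  have hε11 : ε1 ≤ ε := by rw [hε1]; exact min_le_left _ _
  have hε12 : ε1 ≤ κ / 128 := by rw [hε1]; exact min_le_right _ _
  obtain ⟨δ1, T3, hδ1, hT3, hI⟩ := cmpI 4 (by norm_num) ε1 hε10
  obtain ⟨δ2, T4, hδ2, hT4, hAA⟩ := cmpA ε1 hε10
  refine ⟨min δ1 δ2, max (max T1 T2) (max (max T3 T4) (max 3 (128 * |C0| / κ + 1))), lt_min hδ1 hδ2,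
    hT2.trans ((le_max_right _ _).trans (le_max_left _ _)), fun T t hT ht htδ => ?_⟩
  simp only [max_le_iff] at hT
  obtain ⟨⟨hTa, hTb⟩, ⟨hTc, hTd⟩, hTe, hTf⟩ := hT
  have hL1 : 1 ≤ Real.log T := by
    rw [Real.le_log_iff_exp_le (by linarith)]
    have := Real.exp_one_lt_d9
    linarith
  have hL : 0 < Real.log T := by linarith
  have hL2 : 0 < Real.log T ^ 2 := by positivity
  have hrπ : 2 * Real.pi * r ≤ 4 := by
    have h1 : 2 * Real.pi * r ≤ 2 * Real.pi * (1 / 3) := mul_le_mul_of_nonneg_left hr (by positivity)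
    linarith
  have hε3 : ε1 ≤ 4 * Real.pi / 5 := by linarith
  have a1 := hz T hTa
  have a2 := hN T hTb
  have a3 := (hI T t (2 * Real.pi * r) (4 * Real.pi / 5) hTc ht
    (htδ.trans (div_le_div_of_nonneg_right (min_le_left _ _) hL2.le)) (by linarith) hrπ hε3).1
  have a4 := (hAA T t hTd ht (htδ.trans (div_le_div_of_nonneg_right (min_le_right _ _) hL2.le))).2
  have a5 : ((heatI (Ht t) T (2 * Real.pi * r - ε1) (4 * Real.pi / 5 - ε1)).ncard : ℝ) ≤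
      ((heatI (Ht t) T (2 * Real.pi * r - ε) (4 * Real.pi / 5 - ε)).ncard : ℝ) := by
    exact_mod_cast heatI_mono ht (by linarith) (by linarith) (by linarith)
  obtain ⟨N, hNd⟩ : ∃ N : ℝ, N = ((zetaA T).ncard : ℝ) := ⟨_, rfl⟩
  obtain ⟨M, hMd⟩ : ∃ M : ℝ, M = ((heatA (Ht t) T).ncard : ℝ) := ⟨_, rfl⟩
  obtain ⟨J, hJd⟩ : ∃ J : ℝ, J = ((heatI (Ht t) T (2 * Real.pi * r - ε) (4 * Real.pi / 5 - ε)).ncard : ℝ) := ⟨_, rfl⟩
  obtain ⟨W, hWd⟩ : ∃ W : ℝ, W = T * Real.log T := ⟨_, rfl⟩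
  obtain ⟨Q, hQd⟩ : ∃ Q : ℝ, Q = (H344.KK r ^ 2)⁻¹ := ⟨_, rfl⟩
  have hK1 := H344.KK_third hr0.le hr
  have hK2 := H344.KK_le_one r
  have hK20 : 0 < H344.KK r ^ 2 := by positivity
  have hQ1 : 1 ≤ Q := by
    rw [hQd]
    refine (one_le_inv₀ hK20).2 ?_
    exact pow_le_one₀ (by linarith) hK2
  have hc1 := H344.cMTinv_ge
  have hJ0 : 0 ≤ J := by rw [hJd]; exact Nat.cast_nonneg _
  have hM0 : 0 ≤ M := by rw [hMd]; exact Nat.cast_nonneg _
  have hN0 : 0 ≤ N := by rw [hNd]; exact Nat.cast_nonneg _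
  have hW0 : 0 < W := by rw [hWd]; positivity
  rw [div_eq_mul_inv, ← hQd] at a1
  rw [div_eq_mul_inv, ← hQd, ← hMd, ← hJd]
  rw [← hNd] at a1 a2 a4
  rw [← hMd, ← hWd] at a4
  rw [← hWd] at a2 a3
  rw [← hJd] at a5
  obtain ⟨c, hcd⟩ : ∃ c : ℝ, c = H370.cMTinv - 1 := ⟨_, rfl⟩
  rw [← hcd] at a1 ⊢
  have hc : 1 / 4 ≤ c := by rw [hcd]; linarith
  -- the constant
  have b1 : |C0| ≤ κ / 128 * W := by
    have h1 : 128 * |C0| / κ ≤ T := by linarith
    rw [div_le_iff₀ hκ] at h1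
    have h2 : T ≤ W := by rw [hWd]; exact le_mul_of_one_le_right (by linarith) hL1
    have h3 := mul_le_mul_of_nonneg_left h2 (show 0 ≤ κ / 128 by positivity)
    linarith
  have b2 := le_abs_self C0
  have b3 : ε1 * W ≤ κ / 128 * W := mul_le_mul_of_nonneg_right hε12 hW0.le
  have b4 : κ / 128 * W ≤ κ / 8 * N := by
    have h1 := mul_le_mul_of_nonneg_left a2 (show 0 ≤ κ / 8 by positivity)
    have e : κ / 8 * (W / 16) = κ / 128 * W := by ring
    rw [e] at h1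
    exact h1
  -- J is at least (θ + κ/4) N
  obtain ⟨θ, hθ⟩ : ∃ θ : ℝ, θ = 1 - (c - κ / 2) * Q := ⟨_, rfl⟩
  rw [← hθ]
  have b5 : (1 - (c - κ) * Q) * N = θ * N + κ / 2 * (Q * N) := by rw [hθ]; ring
  have b6 : N ≤ Q * N := le_mul_of_one_le_left hN0 hQ1
  have b7 : κ / 2 * N ≤ κ / 2 * (Q * N) := mul_le_mul_of_nonneg_left b6 (by positivity)
  have b8 : θ * N + κ / 4 * N ≤ J := by
    rw [b5] at a1
    linarith
  have b9 : M ≤ N + κ / 8 * N := by linarith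
  rcases le_or_gt θ 0 with h | h
  · exact (mul_nonpos_of_nonpos_of_nonneg h hM0).trans hJ0
  · have h1 : θ ≤ 1 := by
      rw [hθ]
      have : 0 ≤ (c - κ / 2) * Q := mul_nonneg (by linarith) (by linarith)
      linarith
    calc θ * M ≤ θ * (N + κ / 8 * N) := mul_le_mul_of_nonneg_left b9 h.le
      _ = θ * N + θ * (κ / 8 * N) := by ring
      _ ≤ θ * N + 1 * (κ / 8 * N) := by
          have := mul_le_mul_of_nonneg_right h1 (show 0 ≤ κ / 8 * N by positivity)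
          linarith
      _ ≤ J := by
          have : 0 ≤ κ / 8 * N := by positivity
          linarith

theorem prop_simple : ∃ κ δ T0 : ℝ, 0 < κ ∧ 0 < δ ∧ ∀ T t : ℝ, T0 ≤ T → 0 ≤ t → t ≤ δ / Real.log T ^ 2 →
    (2 - H370.cMTinv + κ) * ((heatA (Ht t) T).ncard : ℝ) ≤ ((heatS (Ht t) T).ncard : ℝ) := by
  obtain ⟨κ, hκ, hκ1, h⟩ := prop_heat
  have hpi := Real.pi_gt_three
  have hpi4 := Real.pi_le_four
  obtain ⟨δ, T0, hδ, hT0, h⟩ := h (κ / 10) (2 * Real.pi * (κ / 10)) (by positivity) le_rfl (by linarith)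
  refine ⟨κ / 2, δ, T0, by positivity, hδ, fun T t hT ht htδ => ?_⟩
  have h1 := h T t hT ht htδ
  have hc1 := H344.cMTinv_ge
  have hc2 := H344.cMTinv_le
  have hK := H344.KK_lower (κ / 10)
  have hK1 := H344.KK_third (r := κ / 10) (by positivity) (by linarith)
  have hK20 : 0 < H344.KK (κ / 10) ^ 2 := by positivity
  have hx : (2 * Real.pi * (κ / 10)) ^ 2 ≤ κ := by
    have h2 : 2 * Real.pi * (κ / 10) ≤ κ := by
      have := mul_le_mul_of_nonneg_right hpi4 (show 0 ≤ κ / 5 by positivity)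
      linarith
    have h3 : (2 * Real.pi * (κ / 10)) ^ 2 ≤ κ ^ 2 := pow_le_pow_left₀ (by positivity) h2 2
    have h4 : κ ^ 2 ≤ κ := by nlinarith
    exact h3.trans h4
  have hK2 : 1 - κ / 20 ≤ H344.KK (κ / 10) := by
    refine le_trans ?_ hK
    have h2 : (2 * Real.pi * (κ / 10)) ^ 2 / 2 * (H370.cMTinv - 5 / 4) ≤ κ / 2 * (1 / 10) := by
      apply mul_le_mul (by linarith) (by norm_num at hc2 ⊢; linarith) (by linarith) (by positivity)
    linarith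
  have hK3 : 1 - κ / 10 ≤ H344.KK (κ / 10) ^ 2 := by
    have h2 : (1 - κ / 20) ^ 2 ≤ H344.KK (κ / 10) ^ 2 := pow_le_pow_left₀ (by linarith) hK2 2
    have h3 : 0 ≤ (κ / 20) ^ 2 := sq_nonneg _
    linarith [show (1 - κ / 20) ^ 2 = 1 - κ / 10 + (κ / 20) ^ 2 by ring]
  have hfrac : (H370.cMTinv - 1 - κ) / H344.KK (κ / 10) ^ 2 ≤ H370.cMTinv - 1 - κ / 2 := by
    rw [div_le_iff₀ hK20]
    have h2 : 0 ≤ H370.cMTinv - 1 - κ / 2 := by linarith
    have h3 := mul_le_mul_of_nonneg_left hK3 h2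
    have h4 : (H370.cMTinv - 1 - κ / 2) * (κ / 10) ≤ 1 * (κ / 10) :=
      mul_le_mul_of_nonneg_right (by norm_num at hc2 ⊢; linarith) (by positivity)
    have e : (H370.cMTinv - 1 - κ / 2) * (1 - κ / 10) =
      (H370.cMTinv - 1 - κ / 2) - (H370.cMTinv - 1 - κ / 2) * (κ / 10) := by ring
    rw [e] at h3
    linarith
  have h2 : ((heatI (Ht t) T (2 * Real.pi * (κ / 10) - 2 * Real.pi * (κ / 10))
      (4 * Real.pi / 5 - 2 * Real.pi * (κ / 10))).ncard : ℝ) ≤ ((heatS (Ht t) T).ncard : ℝ) := by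
    have hsub : heatI (Ht t) T (2 * Real.pi * (κ / 10) - 2 * Real.pi * (κ / 10))
      (4 * Real.pi / 5 - 2 * Real.pi * (κ / 10)) ⊆ heatS (Ht t) T := fun s hs => ⟨hs.1, hs.2.1, hs.2.2.1⟩
    exact_mod_cast Set.ncard_le_ncard hsub (heatS_fin ht (by linarith))
  have h3 : (2 - H370.cMTinv + κ / 2) * ((heatA (Ht t) T).ncard : ℝ) ≤
      (1 - (H370.cMTinv - 1 - κ) / H344.KK (κ / 10) ^ 2) * ((heatA (Ht t) T).ncard : ℝ) :=
    mul_le_mul_of_nonneg_right (by linarith) (Nat.cast_nonneg _)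
  linarith

end Pool.Agent.R838.IS
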