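import Pool.Agent.R838.IS.Hdi
import Pool.Agent.R838.IS.Is5
import Pool.Agent.R838.CR.Hdyp

set_option autoImplicit false

/-!
# Isolated zeros, completed L-functions: change of coordinates
-/

namespace Pool.Agent.R838.IS

open Complex Filter Topology MeasureTheory Set
open Pool.Agent.H24R2.JP (Om)
open Pool.Agent.R838.CR
open Pool.Agent.R838.LD
open Pool.Agent.R838.ST
open Pool.Agent.Y671.GL
open Pool.Agent.W169.HF (heat)

theorem FT_symm {B : ℝ} {F : ℂ → ℂ} {FT : ℝ → ℂ → ℂ} {hh : ℝ → ℝ} (hd : HD B F FT hh) (τ : ℝ) (z : ℂ)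
    (hτ : 0 ≤ τ) (h : FT τ z = 0) : FT τ (-((starRingEnd ℂ) z)) = 0 := by
  have h1 := (hd.heat τ z hτ).2
  have h2 := (hd.heat τ (-((starRingEnd ℂ) z)) hτ).2
  rw [h2]
  rw [h] at h1
  have h3 : ∫ v : ℝ, ((Real.exp (-v ^ 2) : ℝ) : ℂ) * F (z + ((2 * Real.sqrt τ * v : ℝ) : ℂ)) = 0 := by
    rcases mul_eq_zero.1 h1.symm with h4 | h4
    · exfalso
      have : (1 / Real.sqrt Real.pi : ℝ) ≠ 0 := by positivity
      exact this (by exact_mod_cast h4)
    · exact h4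
  have h4 : ∫ v : ℝ, ((Real.exp (-v ^ 2) : ℝ) : ℂ) *
      F (-((starRingEnd ℂ) z) + ((2 * Real.sqrt τ * v : ℝ) : ℂ)) =
      (starRingEnd ℂ) (∫ v : ℝ, ((Real.exp (-v ^ 2) : ℝ) : ℂ) * F (z + ((2 * Real.sqrt τ * v : ℝ) : ℂ))) := by
    rw [← integral_conj, ← integral_neg_eq_self]
    congr 1
    funext v
    rw [map_mul, Complex.conj_ofReal, ← hd.symm]
    congr 2
    · rw [neg_sq]
    · simp only [map_add, Complex.conj_ofReal, neg_add_rev]
      push_cast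
      ring
  rw [h4, h3, map_zero, mul_zero]

lemma ord_aff {Y : ℂ → ℂ} (hY : Differentiable ℂ Y) {u : ℂ} (hu : u ≠ 0) (a : ℂ) {b : ℝ} (hb : 0 < b) (z : ℂ) :
    analyticOrderNatAt (fun z => u * Y (a + z / (b : ℂ))) z = analyticOrderNatAt Y (a + z / (b : ℂ)) := by
  have hbc : (b : ℂ) ≠ 0 := by exact_mod_cast hb.ne'
  have hg : AnalyticAt ℂ (fun w : ℂ => a + w / (b : ℂ)) z := by fun_prop
  have hg' : deriv (fun w : ℂ => a + w / (b : ℂ)) z ≠ 0 := by
    rw [deriv_const_add, deriv_div_const, deriv_id'']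
    exact div_ne_zero one_ne_zero hbc
  have hc : AnalyticAt ℂ (fun w : ℂ => Y (a + w / (b : ℂ))) z := (hY.comp (by fun_prop)).analyticAt z
  rw [Pool.Agent.Y671.LD.order_const_mul hu z hc]
  have h2 : analyticOrderAt (Y ∘ fun w => a + w / (b : ℂ)) z = analyticOrderAt Y (a + z / (b : ℂ)) :=
    analyticOrderAt_comp_of_deriv_ne_zero hg hg'
  unfold analyticOrderNatAt
  rw [← h2]
  rfl

/-- simple zeros on the line `Re s = a` with ordinate in `(0, T]` and no other zero in the box of half height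
`α / log T` and half width `β / log T` -/
def isoL (Y : ℂ → ℂ) (a T α β : ℝ) : Set ℂ :=
  {s | s.re = a ∧ (0 < s.im ∧ s.im ≤ T) ∧ analyticOrderNatAt Y s = 1 ∧
    ∀ w : ℂ, Y w = 0 → w ≠ s → α ≤ |w.im - s.im| * Real.log T ∨ β ≤ |w.re - a| * Real.log T}

/-- zeros with ordinate in `(0, T]`, with multiplicity -/
def allL (Y : ℂ → ℂ) (T : ℝ) : Set (ℂ × ℕ) := {p | p.2 < analyticOrderNatAt Y p.1 ∧ (0 < p.1.im ∧ p.1.im ≤ T)}

/-- those at a distance at least `σ / log T` from the line -/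
def farL (Y : ℂ → ℂ) (a T σ : ℝ) : Set (ℂ × ℕ) :=
  {p | p.2 < analyticOrderNatAt Y p.1 ∧ (0 < p.1.im ∧ p.1.im ≤ T) ∧ σ ≤ |p.1.re - a| * Real.log T}

section aff

variable {Y G : ℂ → ℂ} {u : ℂ} {a b : ℝ}

lemma aff_num {b T x v : ℝ} (hb : 0 < b) (hT : 0 < Real.log T) (hbT : 0 < Real.log (b * T)) :
    b * x * (Real.log (b * T) / Real.log T) ≤ v * Real.log (b * T) ↔ x ≤ v / b * Real.log T := by
  have h1 : b * x * (Real.log (b * T) / Real.log T) = (b * x / Real.log T) * Real.log (b * T) := by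
    field_simp
  rw [h1, mul_le_mul_iff_left₀ hbT, div_le_iff₀ hT, div_mul_eq_mul_div, le_div_iff₀ hb, mul_comm x b]

variable (hY : Differentiable ℂ Y) (hu : u ≠ 0) (hb : 1 ≤ b) (hG : G = fun z => u * Y ((a : ℂ) + z / (b : ℂ)))

include hY hu hb hG

theorem isoL_card {T : ℝ} (hT : 1 < T) (α β : ℝ) : (isoL Y a T α β).ncard =
    (NI G (b * T) (b * α * (Real.log (b * T) / Real.log T)) (b * β * (Real.log (b * T) / Real.log T))).ncard := by
  have hb0 : 0 < b := by linarith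
  have hbc : (b : ℂ) ≠ 0 := by exact_mod_cast hb0.ne'
  have hbT1 : 1 < b * T := by nlinarith
  have hL : 0 < Real.log T := Real.log_pos hT
  have hbL : 0 < Real.log (b * T) := Real.log_pos hbT1
  have ho : ∀ z, analyticOrderNatAt G z = analyticOrderNatAt Y ((a : ℂ) + z / (b : ℂ)) := fun z => by
    rw [hG]; exact ord_aff hY hu (a : ℂ) hb0 z
  have e1 : ∀ s : ℂ, (a : ℂ) + ((b : ℂ) * (s - a)) / (b : ℂ) = s := fun s => by
    rw [mul_div_cancel_left₀ _ hbc]; ring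
  have e2 : ∀ z : ℂ, (b : ℂ) * (((a : ℂ) + z / (b : ℂ)) - a) = z := fun z => by
    rw [add_sub_cancel_left, mul_div_cancel₀ _ hbc]
  have him : ∀ s : ℂ, ((b : ℂ) * (s - a)).im = b * s.im := fun s => by simp
  have hre : ∀ s : ℂ, ((b : ℂ) * (s - a)).re = b * (s.re - a) := fun s => by simp
  have hz : ∀ s : ℂ, Y s = 0 ↔ G ((b : ℂ) * (s - a)) = 0 := fun s => by
    rw [hG]
    show Y s = 0 ↔ u * Y ((a : ℂ) + ((b : ℂ) * (s - a)) / (b : ℂ)) = 0
    rw [e1, mul_eq_zero, or_iff_right hu]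
  have hbx : ∀ x : ℝ, |b * x| / b = |x| := fun x => by
    rw [abs_mul, abs_of_pos hb0, mul_div_cancel_left₀ _ hb0.ne']
  have h : isoL Y a T α β = (fun p : ℂ × ℕ => (a : ℂ) + p.1 / (b : ℂ)) '' NI G (b * T)
      (b * α * (Real.log (b * T) / Real.log T)) (b * β * (Real.log (b * T) / Real.log T)) := by
    ext s
    constructor
    · rintro ⟨h1, h2, h3, h4⟩
      refine ⟨((b : ℂ) * (s - a), 0), ?_, e1 s⟩
      rw [NI_iff hbT1]
      refine ⟨rfl, ?_, ?_, ?_, ?_⟩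
      · show 0 < ((b : ℂ) * (s - a)).im ∧ ((b : ℂ) * (s - a)).im ≤ b * T
        rw [him]
        exact ⟨by have := h2.1; positivity, mul_le_mul_of_nonneg_left h2.2 hb0.le⟩
      · show ((b : ℂ) * (s - a)).re = 0
        rw [hre, h1, sub_self, mul_zero]
      · show analyticOrderNatAt G ((b : ℂ) * (s - a)) = 1
        rw [ho, e1]
        exact h3
      · intro w hw hws
        have h5 : Y ((a : ℂ) + w / (b : ℂ)) = 0 := (hz _).2 (by rw [e2]; exact hw)
        have h6 := h4 _ h5 (fun h9 => hws (by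
          show w = (b : ℂ) * (s - a)
          rw [← h9, e2]))
        show b * α * (Real.log (b * T) / Real.log T) ≤ |w.im - ((b : ℂ) * (s - a)).im| * Real.log (b * T) ∨
          b * β * (Real.log (b * T) / Real.log T) ≤ |w.re| * Real.log (b * T)
        have h7 := him ((a : ℂ) + w / (b : ℂ))
        have h8 := hre ((a : ℂ) + w / (b : ℂ))
        rw [e2] at h7 h8
        rw [aff_num hb0 hL hbL, aff_num hb0 hL hbL, him, h7, h8, ← mul_sub, hbx, hbx]
        exact h6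
    · rintro ⟨p, hp, rfl⟩
      rw [NI_iff hbT1] at hp
      obtain ⟨-, h2, h3, h4, h5⟩ := hp
      have h7 := him ((a : ℂ) + p.1 / (b : ℂ))
      have h8 := hre ((a : ℂ) + p.1 / (b : ℂ))
      rw [e2] at h7 h8
      have h9 : ((a : ℂ) + p.1 / (b : ℂ)).re = a := by
        rw [h3] at h8
        rcases mul_eq_zero.1 h8.symm with h | h
        · exact absurd h hb0.ne'
        · linarith
      refine ⟨h9, ?_, ?_, ?_⟩
      · rw [h7] at h2
        exact ⟨pos_of_mul_pos_right h2.1 hb0.le, le_of_mul_le_mul_left h2.2 hb0⟩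
      · rw [← ho]; exact h4
      · intro w hw hwp
        have h10 := h5 ((b : ℂ) * (w - a)) ((hz w).1 hw) (fun h => hwp (by
          show w = (a : ℂ) + p.1 / (b : ℂ)
          rw [← h, e1]))
        rw [aff_num hb0 hL hbL, aff_num hb0 hL hbL, him, hre, h7, ← mul_sub, hbx, hbx] at h10
        exact h10
  rw [h, Set.InjOn.ncard_image (NI_inj hbT1 (fun z => (a : ℂ) + z / (b : ℂ)) (fun s => (b : ℂ) * (s - a)) e2)]

theorem allL_card (T : ℝ) : (allL Y T).ncard = (ZS G (fun z => 0 < z.im ∧ z.im ≤ b * T)).ncard := by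
  have hb0 : 0 < b := by linarith
  have hbc : (b : ℂ) ≠ 0 := by exact_mod_cast hb0.ne'
  have e1 : ∀ s : ℂ, (a : ℂ) + ((b : ℂ) * (s - a)) / (b : ℂ) = s := fun s => by
    rw [mul_div_cancel_left₀ _ hbc]; ring
  have e2 : ∀ z : ℂ, (b : ℂ) * (((a : ℂ) + z / (b : ℂ)) - a) = z := fun z => by
    rw [add_sub_cancel_left, mul_div_cancel₀ _ hbc]
  have him : ∀ s : ℂ, ((b : ℂ) * (s - a)).im = b * s.im := fun s => by simp
  have ho : ∀ z, analyticOrderNatAt G z = analyticOrderNatAt Y ((a : ℂ) + z / (b : ℂ)) := fun z => by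
    rw [hG]; exact ord_aff hY hu (a : ℂ) hb0 z
  refine ncard_tr (fun s => (b : ℂ) * (s - a)) (fun z => (a : ℂ) + z / (b : ℂ)) e1 e2 (fun p => ?_)
  show (p.2 < analyticOrderNatAt Y p.1 ∧ (0 < p.1.im ∧ p.1.im ≤ T)) ↔
    (p.2 < analyticOrderNatAt G ((b : ℂ) * (p.1 - a)) ∧ (0 < ((b : ℂ) * (p.1 - a)).im ∧
      ((b : ℂ) * (p.1 - a)).im ≤ b * T))
  rw [ho, e1, him, mul_pos_iff_of_pos_left hb0, mul_le_mul_iff_right₀ hb0]

theorem farL_card {T : ℝ} (hT : 1 < T) (σ : ℝ) : (farL Y a T σ).ncard =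
    (NL G (b * T) (b * σ * (Real.log (b * T) / Real.log T))).ncard := by
  have hb0 : 0 < b := by linarith
  have hbc : (b : ℂ) ≠ 0 := by exact_mod_cast hb0.ne'
  have hbT1 : 1 < b * T := by nlinarith
  have hL : 0 < Real.log T := Real.log_pos hT
  have hbL : 0 < Real.log (b * T) := Real.log_pos hbT1
  have e1 : ∀ s : ℂ, (a : ℂ) + ((b : ℂ) * (s - a)) / (b : ℂ) = s := fun s => by
    rw [mul_div_cancel_left₀ _ hbc]; ring
  have e2 : ∀ z : ℂ, (b : ℂ) * (((a : ℂ) + z / (b : ℂ)) - a) = z := fun z => by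
    rw [add_sub_cancel_left, mul_div_cancel₀ _ hbc]
  have him : ∀ s : ℂ, ((b : ℂ) * (s - a)).im = b * s.im := fun s => by simp
  have hre : ∀ s : ℂ, ((b : ℂ) * (s - a)).re = b * (s.re - a) := fun s => by simp
  have hbx : ∀ x : ℝ, |b * x| / b = |x| := fun x => by
    rw [abs_mul, abs_of_pos hb0, mul_div_cancel_left₀ _ hb0.ne']
  have ho : ∀ z, analyticOrderNatAt G z = analyticOrderNatAt Y ((a : ℂ) + z / (b : ℂ)) := fun z => by
    rw [hG]; exact ord_aff hY hu (a : ℂ) hb0 z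
  refine ncard_tr (fun s => (b : ℂ) * (s - a)) (fun z => (a : ℂ) + z / (b : ℂ)) e1 e2 (fun p => ?_)
  show (p.2 < analyticOrderNatAt Y p.1 ∧ (0 < p.1.im ∧ p.1.im ≤ T) ∧ σ ≤ |p.1.re - a| * Real.log T) ↔
    (p.2 < analyticOrderNatAt G ((b : ℂ) * (p.1 - a)) ∧ (0 < ((b : ℂ) * (p.1 - a)).im ∧
      ((b : ℂ) * (p.1 - a)).im ≤ b * T) ∧ b * σ * (Real.log (b * T) / Real.log T) ≤
      |((b : ℂ) * (p.1 - a)).re| * Real.log (b * T))
  rw [ho, e1, him, hre, mul_pos_iff_of_pos_left hb0, mul_le_mul_iff_right₀ hb0, aff_num hb0 hL hbL, hbx]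

end aff

end Pool.Agent.R838.IS
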