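import Pool.Agent.R838.IS.Is8
import Pool.Agent.R838.IS.Is7
import Pool.Agent.Y671.GL.Low

set_option autoImplicit false

/-!
# Isolated zeros and zeros far from the line, completed L-functions
-/

namespace Pool.Agent.R838.IS

open Complex Filter Topology MeasureTheory Set
open Pool.Agent.H24R2.JP (Om)
open Pool.Agent.R838.CR
open Pool.Agent.R838.LD
open Pool.Agent.R838.ST
open Pool.Agent.Y671.GL
open Pool.Agent.Y693.GL (GY)
open Pool.Agent.W169.HF (heat)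

/-- What is used. -/
structure HX (κ a : ℝ) (u : ℂ) (Λ F : ℂ → ℂ) (FT : ℝ → ℂ → ℂ) : Prop where
  kap : 1 / 2 ≤ κ
  une : u ≠ 0
  stb : STB κ F FT
  u0 : UNIT0 F
  sym : ∀ (τ : ℝ) (z : ℂ), 0 ≤ τ → FT τ z = 0 → FT τ (-((starRingEnd ℂ) z)) = 0
  eqn : ∀ t : ℝ, 0 ≤ t → FT ((2 * κ) ^ 2 * t) = fun z => u * heat t Λ ((a : ℂ) + z / ((2 * κ : ℝ) : ℂ))
  diff : ∀ t : ℝ, 0 ≤ t → Differentiable ℂ (heat t Λ)
  zero : heat 0 Λ = Λ

lemma heat_zero (Λ : ℂ → ℂ) : heat 0 Λ = Λ := by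
  funext s
  unfold heat
  have h1 : (fun v : ℝ => ((Real.exp (-v ^ 2) : ℝ) : ℂ) * Λ (s + ((2 * Real.sqrt 0 * v : ℝ) : ℂ))) =
      fun v : ℝ => ((Real.exp (-v ^ 2) : ℝ) : ℂ) * Λ s := by
    funext v
    rw [Real.sqrt_zero, mul_zero, zero_mul, Complex.ofReal_zero, add_zero]
  rw [h1, integral_mul_const, integral_complex_ofReal]
  have h2 : ∫ v : ℝ, Real.exp (-v ^ 2) = Real.sqrt Real.pi := by
    have := integral_gaussian 1
    simpa using this
  rw [h2, ← mul_assoc, ← Complex.ofReal_mul]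
  have h3 : 1 / Real.sqrt Real.pi * Real.sqrt Real.pi = 1 := by
    rw [one_div, inv_mul_cancel₀ (by positivity)]
  rw [h3, Complex.ofReal_one, one_mul]

theorem hx_of {κ a : ℝ} {u : ℂ} {Λ H Z : ℂ → ℂ} (hκ : 1 / 2 ≤ κ) (hu : u ≠ 0)
    (hG : GY κ H (fun z => u * Λ ((a : ℂ) + z)) Z)
    (hst : ∀ s : ℂ, (fun z => u * Λ ((a : ℂ) + z)) s = 0 → |s.re| ≤ 1 / 2)
    (hH : HugeX (fun z => u * Λ ((a : ℂ) + z))) : ∃ (F : ℂ → ℂ) (FT : ℝ → ℂ → ℂ), HX κ a u Λ F FT := by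
  obtain ⟨⟨F, hh, hd⟩, gd, -⟩ := hd_of κ H (fun z => u * Λ ((a : ℂ) + z)) Z hκ hG hst hH
  refine ⟨F, FTx (2 * κ) (fun z => u * Λ ((a : ℂ) + z)), hκ, hu, stb_hd hd, unit0_hd hd, FT_symm hd, ?_, ?_,
    heat_zero Λ⟩
  · intro t ht
    funext z
    have hb : (0 : ℝ) < 2 * κ := by linarith
    show heat ((2 * κ) ^ 2 * t / (2 * κ) ^ 2) (fun z => u * Λ ((a : ℂ) + z)) (z / ((2 * κ : ℝ) : ℂ)) = _
    rw [mul_div_cancel_left₀ _ (by positivity), heat_shift']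
  · intro t ht
    have h1 : Differentiable ℂ (fun s => u⁻¹ * heat t (fun z => u * Λ ((a : ℂ) + z)) (s - a)) :=
      ((gd t ht).comp (by fun_prop)).const_mul _
    have h2 : (fun s => u⁻¹ * heat t (fun z => u * Λ ((a : ℂ) + z)) (s - a)) = heat t Λ := by
      rw [heat_shift']
      funext s
      simp only [add_sub_cancel]
      rw [inv_mul_cancel_left₀ hu]
    rwa [h2] at h1

lemma NL_mono {f : ℂ → ℂ} {B : ℝ} (hf : Differentiable ℂ f) (hs : ∀ s, f s = 0 → |s.re| ≤ B) {T σ σ' : ℝ}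
    (h : σ' ≤ σ) : (NL f T σ).ncard ≤ (NL f T σ').ncard := by
  have hfin : (NL f T σ').Finite := by
    refine (ZS_le hf hs (P := fun z => 0 < z.im ∧ z.im ≤ T) (Q := fun y => 0 < y ∧ y ≤ T) (u := 0) (v := T)
      (fun z hz => hz) (fun y hy => ⟨hy.1.le, hy.2⟩)).1.subset ?_
    rintro p ⟨h1, h2, -⟩
    exact ⟨h1, h2⟩
  refine Set.ncard_le_ncard ?_ hfin
  rintro p ⟨h1, h2, h3⟩
  exact ⟨h1, h2, h.trans h3⟩

section

variable {κ a : ℝ} {u : ℂ} {Λ F : ℂ → ℂ} {FT : ℝ → ℂ → ℂ}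

/-- the quotient of the logarithms -/
lemma ratio_num {b T : ℝ} (hb : 1 ≤ b) (hT : 2 ≤ T) (hbT : b ≤ T) : 0 < Real.log T ∧
    1 ≤ Real.log (b * T) / Real.log T ∧ Real.log (b * T) / Real.log T ≤ 2 ∧ Real.log (b * T) ≤ 2 * Real.log T ∧
    Real.log T ≤ Real.log (b * T) := by
  have hL : 0 < Real.log T := Real.log_pos (by linarith)
  have h1 : Real.log (b * T) = Real.log b + Real.log T := Real.log_mul (by linarith) (by linarith)
  have h2 : 0 ≤ Real.log b := Real.log_nonneg hb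
  have h3 : Real.log b ≤ Real.log T := Real.log_le_log (by linarith) hbT
  refine ⟨hL, ?_, ?_, by linarith, by linarith⟩
  · rw [le_div_iff₀ hL]; linarith
  · rw [div_le_iff₀ hL]; linarith

theorem cmpLI (h : HX κ a u Λ F FT) (A : ℝ) (hA : 0 ≤ A) (ε : ℝ) (hε : 0 < ε) : ∃ δ T0 : ℝ, 0 < δ ∧ 2 ≤ T0 ∧
    ∀ T t1 t2 α β : ℝ, T0 ≤ T → 0 ≤ t1 → 0 ≤ t2 → (t1 = 0 ∨ t2 = 0) → t1 ≤ δ / Real.log T ^ 2 →
    t2 ≤ δ / Real.log T ^ 2 → ε ≤ α → α ≤ A → ε ≤ β →
    ((isoL (heat t1 Λ) a T α β).ncard : ℝ) ≤ ((isoL (heat t2 Λ) a T (α - ε) (β - ε)).ncard : ℝ) +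
      ε * (T * Real.log T) := by
  obtain ⟨b, hb2⟩ : ∃ b : ℝ, b = 2 * κ := ⟨_, rfl⟩
  have hκ := h.kap
  have hb1 : 1 ≤ b := by rw [hb2]; linarith
  have hb0 : 0 < b := by linarith
  have heqn := h.eqn
  rw [← hb2] at heqn
  obtain ⟨δ, T0, hδ, hT0, H⟩ := fullI h.stb h.u0 Pool.Agent.W333.SDNGN.ngn Pool.Agent.W186.SD.HH.aw
    Pool.Agent.W186.SD.HH.cnt Pool.Agent.W337.SD.cov h.sym (2 * b * A) (by positivity) (ε / (2 * b)) (by positivity)
  refine ⟨δ / b ^ 2, max T0 (max 2 b), by positivity, hT0.trans (le_max_left _ _), ?_⟩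
  intro T t1 t2 α β hT ht1 ht2 h12 h1 h2 hα hαA hβ
  simp only [max_le_iff] at hT
  obtain ⟨hTa, hTb, hTc⟩ := hT
  obtain ⟨hL, r1, r2, r3, r4⟩ := ratio_num hb1 hTb hTc
  have hT0' : 0 < T := by linarith
  have hbT : T ≤ b * T := le_mul_of_one_le_left hT0'.le hb1
  have hbT1 : 1 < b * T := by linarith
  have hLb : 0 < Real.log (b * T) := by linarith
  have hOm : Om (b * T) = Real.log (b * T) / 2 := rfl
  have hOm0 : 0 < Om (b * T) := by rw [hOm]; linarith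
  have hτ : ∀ t : ℝ, t ≤ δ / b ^ 2 / Real.log T ^ 2 → b ^ 2 * t ≤ δ / Om (b * T) ^ 2 := by
    intro t ht
    have e1 : b ^ 2 * t ≤ b ^ 2 * (δ / b ^ 2 / Real.log T ^ 2) := mul_le_mul_of_nonneg_left ht (by positivity)
    have e2 : b ^ 2 * (δ / b ^ 2 / Real.log T ^ 2) = δ / Real.log T ^ 2 := by field_simp
    rw [e2] at e1
    refine e1.trans ?_
    apply div_le_div_of_nonneg_left hδ.le (by positivity)
    apply pow_le_pow_left₀ hOm0.le
    rw [hOm]; linarith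
  obtain ⟨r, hr⟩ : ∃ r : ℝ, r = Real.log (b * T) / Real.log T := ⟨_, rfl⟩
  rw [← hr] at r1 r2
  have hα0 : 0 ≤ α := by linarith
  have hβ0 : 0 ≤ β := by linarith
  have hε' : ε / (2 * b) ≤ ε := div_le_self hε.le (by linarith)
  have hbig : ∀ x : ℝ, ε ≤ x → ε ≤ b * x * r := by
    intro x hx
    have hx0 : 0 ≤ x := by linarith
    have g1 : x ≤ b * x := le_mul_of_one_le_left hx0 hb1
    have g2 : b * x ≤ b * x * r := le_mul_of_one_le_right (by positivity) r1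
    linarith
  have hup : b * α * r ≤ 2 * b * A := by
    have g1 : b * α ≤ b * A := mul_le_mul_of_nonneg_left hαA hb0.le
    have g2 : b * α * r ≤ b * A * 2 := mul_le_mul g1 r2 (by linarith) (by positivity)
    linarith
  have key := H (b * T) (b ^ 2 * t1) (b ^ 2 * t2) (b * α * r) (b * β * r) (hTa.trans hbT) (by positivity)
    (by positivity) (by
      rcases h12 with h | h
      · left; rw [h, mul_zero]
      · right; rw [h, mul_zero]) (hτ t1 h1) (hτ t2 h2) (hε'.trans (hbig α hα)) hup (hε'.trans (hbig β hβ))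
  have c1 := isoL_card (h.diff t1 ht1) h.une hb1 (heqn t1 ht1) (a := a) (T := T) (by linarith) α β
  have c2 := isoL_card (h.diff t2 ht2) h.une hb1 (heqn t2 ht2) (a := a) (T := T) (by linarith) (α - ε) (β - ε)
  rw [← hr] at c1 c2
  rw [c1, c2]
  have hsub : ∀ x : ℝ, b * (x - ε) * r ≤ b * x * r - ε / (2 * b) := by
    intro x
    have g1 : b * (x - ε) * r = b * x * r - b * ε * r := by ring
    rw [g1]
    have g2 := hbig ε le_rfl
    linarith
  have hs2 : ∀ s, FT (b ^ 2 * t2) s = 0 → |s.re| ≤ κ := fun s hs => h.stb.strip _ s (by positivity) hs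
  have hmon := NI_mono (h.stb.heatd (b ^ 2 * t2) (by positivity)) hs2 (T := b * T) hbT1 (hsub α) (hsub β)
  have hmon' : ((NI (FT (b ^ 2 * t2)) (b * T) (b * α * r - ε / (2 * b)) (b * β * r - ε / (2 * b))).ncard : ℝ) ≤
      ((NI (FT (b ^ 2 * t2)) (b * T) (b * (α - ε) * r) (b * (β - ε) * r)).ncard : ℝ) := by exact_mod_cast hmon
  have herr : ε / (2 * b) * (b * T * Real.log (b * T)) ≤ ε * (T * Real.log T) := by
    have g1 : ε / (2 * b) * (b * T * Real.log (b * T)) = ε / 2 * T * Real.log (b * T) := by field_simp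
    rw [g1]
    have g2 : ε / 2 * T * Real.log (b * T) ≤ ε / 2 * T * (2 * Real.log T) :=
      mul_le_mul_of_nonneg_left r3 (by positivity)
    linarith
  exact key.trans (add_le_add hmon' herr)

theorem cmpLF (h : HX κ a u Λ F FT) (ε : ℝ) (hε : 0 < ε) : ∃ δ T0 : ℝ, 0 < δ ∧ 2 ≤ T0 ∧
    ∀ T t1 t2 σ : ℝ, T0 ≤ T → 0 ≤ t1 → 0 ≤ t2 → (t1 = 0 ∨ t2 = 0) → t1 ≤ δ / Real.log T ^ 2 →
    t2 ≤ δ / Real.log T ^ 2 →
    ((farL (heat t1 Λ) a T σ).ncard : ℝ) ≤ ((farL (heat t2 Λ) a T (σ - ε)).ncard : ℝ) +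
      ε * (T * Real.log T) := by
  obtain ⟨b, hb2⟩ : ∃ b : ℝ, b = 2 * κ := ⟨_, rfl⟩
  have hκ := h.kap
  have hb1 : 1 ≤ b := by rw [hb2]; linarith
  have hb0 : 0 < b := by linarith
  have heqn := h.eqn
  rw [← hb2] at heqn
  obtain ⟨δ, T0, hδ, hT0, H⟩ := fullZ h.stb h.u0 Pool.Agent.W333.SDNGN.ngn Pool.Agent.W186.SD.HH.aw
    Pool.Agent.W186.SD.HH.cnt Pool.Agent.W337.SD.cov (ε / (2 * b)) (by positivity)
  refine ⟨δ / b ^ 2, max T0 (max 2 b), by positivity, hT0.trans (le_max_left _ _), ?_⟩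
  intro T t1 t2 σ hT ht1 ht2 h12 h1 h2
  simp only [max_le_iff] at hT
  obtain ⟨hTa, hTb, hTc⟩ := hT
  obtain ⟨hL, r1, r2, r3, r4⟩ := ratio_num hb1 hTb hTc
  have hT0' : 0 < T := by linarith
  have hbT : T ≤ b * T := le_mul_of_one_le_left hT0'.le hb1
  have hbT1 : 1 < b * T := by linarith
  have hLb : 0 < Real.log (b * T) := by linarith
  have hOm : Om (b * T) = Real.log (b * T) / 2 := rfl
  have hOm0 : 0 < Om (b * T) := by rw [hOm]; linarith
  have hτ : ∀ t : ℝ, t ≤ δ / b ^ 2 / Real.log T ^ 2 → b ^ 2 * t ≤ δ / Om (b * T) ^ 2 := by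
    intro t ht
    have e1 : b ^ 2 * t ≤ b ^ 2 * (δ / b ^ 2 / Real.log T ^ 2) := mul_le_mul_of_nonneg_left ht (by positivity)
    have e2 : b ^ 2 * (δ / b ^ 2 / Real.log T ^ 2) = δ / Real.log T ^ 2 := by field_simp
    rw [e2] at e1
    refine e1.trans ?_
    apply div_le_div_of_nonneg_left hδ.le (by positivity)
    apply pow_le_pow_left₀ hOm0.le
    rw [hOm]; linarith
  obtain ⟨r, hr⟩ : ∃ r : ℝ, r = Real.log (b * T) / Real.log T := ⟨_, rfl⟩
  rw [← hr] at r1 r2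
  have key := H (b * T) (b ^ 2 * t1) (b ^ 2 * t2) (b * σ * r) (hTa.trans hbT) (by positivity)
    (by positivity) (by
      rcases h12 with h | h
      · left; rw [h, mul_zero]
      · right; rw [h, mul_zero]) (hτ t1 h1) (hτ t2 h2)
  have c1 := farL_card (h.diff t1 ht1) h.une hb1 (heqn t1 ht1) (a := a) (T := T) (by linarith) σ
  have c2 := farL_card (h.diff t2 ht2) h.une hb1 (heqn t2 ht2) (a := a) (T := T) (by linarith) (σ - ε)
  rw [← hr] at c1 c2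
  rw [c1, c2]
  have hsub : b * (σ - ε) * r ≤ b * σ * r - ε / (2 * b) := by
    have g1 : b * (σ - ε) * r = b * σ * r - b * ε * r := by ring
    rw [g1]
    have g2 : ε ≤ b * ε := le_mul_of_one_le_left hε.le hb1
    have g3 : b * ε ≤ b * ε * r := le_mul_of_one_le_right (by positivity) r1
    have g4 : ε / (2 * b) ≤ ε := div_le_self hε.le (by linarith)
    linarith
  have hs2 : ∀ s, FT (b ^ 2 * t2) s = 0 → |s.re| ≤ κ := fun s hs => h.stb.strip _ s (by positivity) hs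
  have hmon := NL_mono (h.stb.heatd (b ^ 2 * t2) (by positivity)) hs2 (T := b * T) hsub
  have hmon' : ((NL (FT (b ^ 2 * t2)) (b * T) (b * σ * r - ε / (2 * b))).ncard : ℝ) ≤
      ((NL (FT (b ^ 2 * t2)) (b * T) (b * (σ - ε) * r)).ncard : ℝ) := by exact_mod_cast hmon
  have herr : ε / (2 * b) * (b * T * Real.log (b * T)) ≤ ε * (T * Real.log T) := by
    have g1 : ε / (2 * b) * (b * T * Real.log (b * T)) = ε / 2 * T * Real.log (b * T) := by field_simp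
    rw [g1]
    have g2 : ε / 2 * T * Real.log (b * T) ≤ ε / 2 * T * (2 * Real.log T) :=
      mul_le_mul_of_nonneg_left r3 (by positivity)
    linarith
  exact key.trans (add_le_add hmon' herr)

lemma farL_zero {Y : ℂ → ℂ} {T σ : ℝ} (hT : 1 ≤ T) (hσ : σ ≤ 0) : farL Y a T σ = allL Y T := by
  ext p
  constructor
  · rintro ⟨h1, h2, -⟩
    exact ⟨h1, h2⟩
  · rintro ⟨h1, h2⟩
    refine ⟨h1, h2, hσ.trans (mul_nonneg (abs_nonneg _) (Real.log_nonneg hT))⟩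

lemma isoL_mono (h : HX κ a u Λ F FT) {t : ℝ} (ht : 0 ≤ t) {T α β α' β' : ℝ} (hT : 1 < T) (hα : α' ≤ α)
    (hβ : β' ≤ β) : ((isoL (heat t Λ) a T α β).ncard : ℝ) ≤ ((isoL (heat t Λ) a T α' β').ncard : ℝ) := by
  obtain ⟨b, hb2⟩ : ∃ b : ℝ, b = 2 * κ := ⟨_, rfl⟩
  have hκ := h.kap
  have hb1 : 1 ≤ b := by rw [hb2]; linarith
  have hb0 : 0 < b := by linarith
  have heqn := h.eqn
  rw [← hb2] at heqn
  have hL : 0 < Real.log T := Real.log_pos hT
  have hbT : T ≤ b * T := le_mul_of_one_le_left (by linarith) hb1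
  have hbT1 : 1 < b * T := by linarith
  have hLb : 0 < Real.log (b * T) := Real.log_pos hbT1
  rw [isoL_card (h.diff t ht) h.une hb1 (heqn t ht) (a := a) hT, isoL_card (h.diff t ht) h.une hb1 (heqn t ht)
    (a := a) hT]
  have hs2 : ∀ s, FT (b ^ 2 * t) s = 0 → |s.re| ≤ κ := fun s hs => h.stb.strip _ s (by positivity) hs
  have hr : 0 ≤ Real.log (b * T) / Real.log T := by positivity
  have hmon := NI_mono (h.stb.heatd (b ^ 2 * t) (by positivity)) hs2 (T := b * T) hbT1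
    (mul_le_mul_of_nonneg_right (mul_le_mul_of_nonneg_left hα hb0.le) hr)
    (mul_le_mul_of_nonneg_right (mul_le_mul_of_nonneg_left hβ hb0.le) hr)
  exact_mod_cast hmon

/-- almost all zeros are simple, on the line and isolated -/
def ESL (a : ℝ) (Y : ℝ → ℂ → ℂ) : Prop :=
  ESS (fun T => ((allL (Y T) T).ncard : ℝ)) (fun T σ => ((isoL (Y T) a T σ σ).ncard : ℝ))

/-- almost all zeros are at the distance `o(1 / log T)` from the line -/
def NLL (a : ℝ) (Y : ℝ → ℂ → ℂ) : Prop := ∀ σ η : ℝ, 0 < σ → 0 < η → ∀ᶠ T : ℝ in atTop,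
  ((farL (Y T) a T σ).ncard : ℝ) ≤ η * (T * Real.log T)

lemma esl_tr (h : HX κ a u Λ F FT) {t1 t2 : ℝ → ℝ} (ht1 : ∀ T, 0 ≤ t1 T) (ht2 : ∀ T, 0 ≤ t2 T)
    (h12 : ∀ T, t1 T = 0 ∨ t2 T = 0) (hl1 : Tendsto (fun T => t1 T * Real.log T ^ 2) atTop (𝓝 0))
    (hl2 : Tendsto (fun T => t2 T * Real.log T ^ 2) atTop (𝓝 0)) (he : ESL a (fun T => heat (t1 T) Λ)) :
    ESL a (fun T => heat (t2 T) Λ) := by
  refine ess_tr (fun ε hε => ?_) (fun ε σ hε hεσ hσ => ?_) (fun σ σ' hσ => ?_) he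
  · obtain ⟨δ, T0, hδ, hT0, H⟩ := cmpLF h ε hε
    filter_upwards [eventually_ge_atTop T0, ev_le hl1 hδ, ev_le hl2 hδ] with T a1 a2 a3
    have := H T (t2 T) (t1 T) 0 a1 (ht2 T) (ht1 T) (h12 T).symm a3 a2
    rwa [farL_zero (by linarith) le_rfl, farL_zero (by linarith) (by linarith)] at this
  · obtain ⟨δ, T0, hδ, hT0, H⟩ := cmpLI h 1 zero_le_one ε hε
    filter_upwards [eventually_ge_atTop T0, ev_le hl1 hδ, ev_le hl2 hδ] with T a1 a2 a3
    exact H T (t1 T) (t2 T) σ σ a1 (ht1 T) (ht2 T) (h12 T) a2 a3 hεσ hσ hεσ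
  · filter_upwards [eventually_gt_atTop (1 : ℝ)] with T hT
    exact isoL_mono h (ht1 T) hT hσ hσ

lemma nll_tr (h : HX κ a u Λ F FT) {t1 t2 : ℝ → ℝ} (ht1 : ∀ T, 0 ≤ t1 T) (ht2 : ∀ T, 0 ≤ t2 T)
    (h12 : ∀ T, t1 T = 0 ∨ t2 T = 0) (hl1 : Tendsto (fun T => t1 T * Real.log T ^ 2) atTop (𝓝 0))
    (hl2 : Tendsto (fun T => t2 T * Real.log T ^ 2) atTop (𝓝 0)) (he : NLL a (fun T => heat (t1 T) Λ)) :
    NLL a (fun T => heat (t2 T) Λ) := by
  intro σ η hσ hη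
  obtain ⟨ε, hε⟩ : ∃ ε : ℝ, ε = min (σ / 2) (η / 2) := ⟨_, rfl⟩
  have hε0 : 0 < ε := by rw [hε]; positivity
  have hε1 : ε ≤ σ / 2 := by rw [hε]; exact min_le_left _ _
  have hε2 : ε ≤ η / 2 := by rw [hε]; exact min_le_right _ _
  obtain ⟨δ, T0, hδ, hT0, H⟩ := cmpLF h ε hε0
  filter_upwards [eventually_ge_atTop T0, ev_le hl1 hδ, ev_le hl2 hδ,
    he (σ - ε) (η / 2) (by linarith) (by positivity)] with T a1 a2 a3 a4
  have h1 := H T (t2 T) (t1 T) σ a1 (ht2 T) (ht1 T) (h12 T).symm a3 a2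
  have hW : 0 ≤ T * Real.log T := mul_nonneg (by linarith) (Real.log_nonneg (by linarith))
  have := mul_le_mul_of_nonneg_right hε2 hW
  have a4' : ((farL (heat (t1 T) Λ) a T (σ - ε)).ncard : ℝ) ≤ η / 2 * (T * Real.log T) := a4
  show ((farL (heat (t2 T) Λ) a T σ).ncard : ℝ) ≤ η * (T * Real.log T)
  linarith

theorem equivL (h : HX κ a u Λ F FT) {t : ℝ → ℝ} (ht : ∀ T, 0 ≤ t T)
    (hl : Tendsto (fun T => t T * Real.log T ^ 2) atTop (𝓝 0)) :
    (ESL a (fun _ => Λ) ↔ ESL a (fun T => heat (t T) Λ)) ∧ (NLL a (fun _ => Λ) ↔ NLL a (fun T => heat (t T) Λ)) := by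
  have hz : (fun _ : ℝ => Λ) = fun _ : ℝ => heat 0 Λ := by funext T; rw [h.zero]
  have hl0 : Tendsto (fun T => (fun _ : ℝ => (0 : ℝ)) T * Real.log T ^ 2) atTop (𝓝 0) := by
    simp
  rw [hz]
  refine ⟨⟨fun he => ?_, fun he => ?_⟩, ⟨fun he => ?_, fun he => ?_⟩⟩
  · exact esl_tr h (t1 := fun _ => 0) (t2 := t) (fun _ => le_rfl) ht (fun _ => Or.inl rfl) hl0 hl he
  · exact esl_tr h (t1 := t) (t2 := fun _ => 0) ht (fun _ => le_rfl) (fun _ => Or.inr rfl) hl hl0 he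
  · exact nll_tr h (t1 := fun _ => 0) (t2 := t) (fun _ => le_rfl) ht (fun _ => Or.inl rfl) hl0 hl he
  · exact nll_tr h (t1 := t) (t2 := fun _ => 0) ht (fun _ => le_rfl) (fun _ => Or.inr rfl) hl hl0 he

theorem largeL (h : HX κ a u Λ F FT) {t : ℝ → ℝ} {A : ℝ} (hA : ∀ᶠ T : ℝ in atTop, t T * Real.log T ≤ A)
    (ht : Tendsto (fun T => t T * Real.log T ^ 2) atTop atTop) : ESL a (fun T => heat (t T) Λ) := by
  obtain ⟨b, hb2⟩ : ∃ b : ℝ, b = 2 * κ := ⟨_, rfl⟩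
  have hκ := h.kap
  have hb1 : 1 ≤ b := by rw [hb2]; linarith
  have hb0 : 0 < b := by linarith
  have heqn := h.eqn
  rw [← hb2] at heqn
  intro η hη
  refine ⟨1 / (2 * b), by positivity, ?_⟩
  have hAA := le_abs_self A
  have hA0 := abs_nonneg A
  obtain ⟨K, T0, hK, hT0, H⟩ := irrB h.stb h.u0 1 (η / (8 * b)) (2 * b ^ 2 * (|A| + 1)) one_pos (by positivity)
    (by positivity)
  obtain ⟨C8, T8, hC8, hT8, hnn⟩ := nn_allX h.stb h.u0 (2 * b ^ 2 * (|A| + 1)) (by positivity)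
  filter_upwards [hA, ht.eventually_ge_atTop K, eventually_ge_atTop T0, eventually_ge_atTop T8,
    eventually_ge_atTop (Real.exp 1), eventually_ge_atTop (4 * C8 / η), eventually_ge_atTop b] with
    T h1 h2 h3 h4 h5 h6 h7
  have hT1 : 2 ≤ T := hT0.trans h3
  have hT0' : 0 < T := by linarith
  obtain ⟨hL, r1, r2, r3, r4⟩ := ratio_num hb1 hT1 h7
  have hbT : T ≤ b * T := le_mul_of_one_le_left hT0'.le hb1
  have ht0 : 0 ≤ t T := by
    by_contra hcon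
    push Not at hcon
    have h7 : t T * Real.log T ^ 2 ≤ 0 := mul_nonpos_of_nonpos_of_nonneg hcon.le (by positivity)
    linarith
  have hb21 : 1 ≤ b ^ 2 := one_le_pow₀ hb1
  have hbt : t T ≤ b ^ 2 * t T := le_mul_of_one_le_left ht0 hb21
  have hb1' : b ^ 2 * t T * Real.log (b * T) ≤ 2 * b ^ 2 * (|A| + 1) := by
    have e1 : b ^ 2 * t T * Real.log (b * T) ≤ b ^ 2 * t T * (2 * Real.log T) :=
      mul_le_mul_of_nonneg_left r3 (by positivity)
    have e2 : b ^ 2 * t T * (2 * Real.log T) = 2 * b ^ 2 * (t T * Real.log T) := by ring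
    have e3 : 2 * b ^ 2 * (t T * Real.log T) ≤ 2 * b ^ 2 * (|A| + 1) :=
      mul_le_mul_of_nonneg_left (by linarith) (by positivity)
    linarith
  have hb2' : K ≤ b ^ 2 * t T * Real.log (b * T) ^ 2 := by
    have e1 : t T * Real.log T ^ 2 ≤ b ^ 2 * t T * Real.log (b * T) ^ 2 :=
      mul_le_mul hbt (pow_le_pow_left₀ hL.le r4 2) (by positivity) (by positivity)
    linarith
  have k1 := H (b * T) (b ^ 2 * t T) (h3.trans hbT) hb2' hb1'
  have k2 := hnn (b * T) (b ^ 2 * t T) 0 (h4.trans hbT) (by positivity) hb1' le_rfl (by linarith)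
  have hs2 : ∀ s, FT (b ^ 2 * t T) s = 0 → |s.re| ≤ κ := fun s hs => h.stb.strip _ s (by positivity) hs
  have k3 := isoC (f := FT (b ^ 2 * t T)) (FT := FT) (B := κ) (ε := 1) (τ := b ^ 2 * t T) (T := b * T) rfl
    (h.stb.heatd _ (by positivity)) hs2 le_rfl (h5.trans hbT)
  show ((allL (heat (t T) Λ) T).ncard : ℝ) ≤ ((isoL (heat (t T) Λ) a T (1 / (2 * b)) (1 / (2 * b))).ncard : ℝ) +
    η * (T * Real.log T)
  rw [allL_card (h.diff (t T) ht0) h.une hb1 (heqn (t T) ht0) (a := a),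
    isoL_card (h.diff (t T) ht0) h.une hb1 (heqn (t T) ht0) (a := a) (by linarith)]
  have hone : b * (1 / (2 * b)) * (Real.log (b * T) / Real.log T) ≤ 1 := by
    have e1 : b * (1 / (2 * b)) = 1 / 2 := by field_simp
    rw [e1]; linarith
  have hmon := NI_mono (h.stb.heatd (b ^ 2 * t T) (by positivity)) hs2 (T := b * T) (by linarith) hone hone
  have hmon' : ((NI (FT (b ^ 2 * t T)) (b * T) 1 1).ncard : ℝ) ≤ ((NI (FT (b ^ 2 * t T)) (b * T)
      (b * (1 / (2 * b)) * (Real.log (b * T) / Real.log T))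
      (b * (1 / (2 * b)) * (Real.log (b * T) / Real.log T))).ncard : ℝ) := by exact_mod_cast hmon
  have e1 : 2 * (η / (8 * b) * (b * T * Real.log (b * T))) ≤ η / 2 * (T * Real.log T) := by
    have g1 : 2 * (η / (8 * b) * (b * T * Real.log (b * T))) = η / 4 * T * Real.log (b * T) := by
      field_simp
      ring
    rw [g1]
    have g2 : η / 4 * T * Real.log (b * T) ≤ η / 4 * T * (2 * Real.log T) :=
      mul_le_mul_of_nonneg_left r3 (by positivity)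
    linarith
  have e2 : C8 * Real.log (b * T) ≤ η / 2 * (T * Real.log T) := by
    rw [div_le_iff₀ hη] at h6
    have g1 : C8 * Real.log (b * T) ≤ C8 * (2 * Real.log T) := mul_le_mul_of_nonneg_left r3 hC8.le
    have g2 : 4 * C8 * Real.log T ≤ T * η * Real.log T := mul_le_mul_of_nonneg_right h6 hL.le
    have g3 : T * η * Real.log T = η * (T * Real.log T) := by ring
    rw [g3] at g2
    linarith
  linarith

end

end Pool.Agent.R838.IS
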